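import Pool.Agent.LST.Ord

/-!
# LST module BiApi (size 3)

Elementary consequences of `Bi f g` (definition in Defs: a homeomorphism of the plane onto a set
`Ω ⊆ X × Y` with line slices, whose coordinates are `f` and `g`).
-/

open Set Topology Filter

namespace Pool.Agent.LST

open Pool.Agent.H86.Bifol Pool.Agent.LSP

variable {X Y Z : Type*} [TopologicalSpace X] [TopologicalSpace Y] [TopologicalSpace Z] [SCM X]
  [SCM Y] [SCM Z] {f : ℝ × ℝ → X} {g : ℝ × ℝ → Y} {h : ℝ × ℝ → Z}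

/-- PROOF. `Prod.swap ⁻¹' Ω` (`Slices.swap`), compose with the swap homeomorphism. -/
theorem Bi.swap (b : Bi f g) : Bi g f := by
  obtain ⟨Ω, hΩ, Ψ, hΨ⟩ := b
  let E : Ω ≃ₜ (Prod.swap ⁻¹' Ω : Set (Y × X)) :=
    (Homeomorph.prodComm X Y).subtype (fun p => by
      show p ∈ Ω ↔ Prod.swap p.swap ∈ Ω
      rw [Prod.swap_swap])
  refine ⟨Prod.swap ⁻¹' Ω, hΩ.swap, Ψ.trans E, fun q => ?_⟩
  have h : ((Ψ.trans E) q).1 = (Ψ q).1.swap := rfl
  rw [h, hΨ q]
  rfl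

theorem Bi.cont₁ (b : Bi f g) : Continuous f := by
  obtain ⟨Ω, hΩ, Ψ, hΨ⟩ := b
  have h : f = fun q => (Ψ q).1.1 := by
    funext q
    rw [hΨ q]
  rw [h]
  exact continuous_fst.comp (continuous_subtype_val.comp Ψ.continuous)

theorem Bi.cont₂ (b : Bi f g) : Continuous g := b.swap.cont₁

theorem Bi.inj (b : Bi f g) {p q : ℝ × ℝ} (h1 : f p = f q) (h2 : g p = g q) : p = q := by
  obtain ⟨Ω, hΩ, Ψ, hΨ⟩ := b
  apply Ψ.injective
  apply Subtype.ext
  rw [hΨ p, hΨ q, h1, h2]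

/-- PROOF. `Ψ` is open, `Subtype.val : Ω → X × Y` is open. -/
theorem Bi.isOpenMap (b : Bi f g) : IsOpenMap fun p => (f p, g p) := by
  obtain ⟨Ω, hΩ, Ψ, hΨ⟩ := b
  have h : (fun p => (f p, g p)) = Subtype.val ∘ Ψ := by
    funext q
    exact (hΨ q).symm
  rw [h]
  exact hΩ.isOpen.isOpenMap_subtype_val.comp Ψ.isOpenMap

theorem Bi.open₁ (b : Bi f g) : IsOpenMap f :=
  isOpenMap_fst.comp b.isOpenMap

theorem Bi.open₂ (b : Bi f g) : IsOpenMap g :=
  isOpenMap_snd.comp b.isOpenMap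

/-- PROOF. The slices are nonempty. -/
theorem Bi.surj₁ (b : Bi f g) : Function.Surjective f := by
  obtain ⟨Ω, hΩ, Ψ, hΨ⟩ := b
  intro x
  obtain ⟨y, hy⟩ := (hΩ.fst x).nonempty
  refine ⟨Ψ.symm ⟨(x, y), hy⟩, ?_⟩
  have h := hΨ (Ψ.symm ⟨(x, y), hy⟩)
  rw [Ψ.apply_symm_apply] at h
  exact (congrArg Prod.fst h).symm

theorem Bi.surj₂ (b : Bi f g) : Function.Surjective g := b.swap.surj₁

private theorem BiApi_range {Ω : Set (X × Y)} (Ψ : ℝ × ℝ ≃ₜ Ω)
    (hΨ : ∀ q, (Ψ q).1 = (f q, g q)) : (range fun p => (f p, g p)) = Ω := by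
  ext ⟨x, y⟩
  constructor
  · rintro ⟨p, hp⟩
    have h := (Ψ p).2
    rw [hΨ p] at h
    have hp' : (f p, g p) = (x, y) := hp
    rwa [hp'] at h
  · intro h
    refine ⟨Ψ.symm ⟨(x, y), h⟩, ?_⟩
    have h2 := hΨ (Ψ.symm ⟨(x, y), h⟩)
    rw [Ψ.apply_symm_apply] at h2
    exact h2.symm

/-- PROOF. `Ω` is the range. -/
theorem Bi.slices (b : Bi f g) : Slices (range fun p => (f p, g p)) := by
  obtain ⟨Ω, hΩ, Ψ, hΨ⟩ := b
  rw [BiApi_range Ψ hΨ]
  exact hΩ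

/-- The image of the fibre of `x` is the slice at `x`. -/
theorem Bi.line₁ (b : Bi f g) (x : X) : IsLine (g '' (f ⁻¹' {x})) := by
  have h := b.slices.fst x
  have h2 : {y | (x, y) ∈ range fun p => (f p, g p)} = g '' (f ⁻¹' {x}) := by
    ext y
    constructor
    · rintro ⟨p, hp⟩
      have hp' : (f p, g p) = (x, y) := hp
      exact ⟨p, (Prod.mk.inj hp').1, (Prod.mk.inj hp').2⟩
    · rintro ⟨p, hp1, hp2⟩
      refine ⟨p, ?_⟩
      have hp1' : f p = x := hp1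
      show (f p, g p) = (x, y)
      rw [hp1', hp2]
  rwa [h2] at h

theorem Bi.line₂ (b : Bi f g) (y : Y) : IsLine (f '' (g ⁻¹' {y})) := b.swap.line₁ y

/-- PROOF. It is the image of the preconnected set `{y | (x, y) ∈ Ω} ∩ S` (`isPreconnected_inter`)
under the continuous map `y ↦ Ψ.symm (x, y)`; see `isPreconnected_fibre_fst` in LSP/Real for the
technique. -/
theorem Bi.fib_inter (b : Bi f g) (x : X) {S : Set Y} (hS : IsPreconnected S) (hSo : IsOpen S) :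
    IsPreconnected (f ⁻¹' {x} ∩ g ⁻¹' S) := by
  obtain ⟨Ω, hΩ, Ψ, hΨ⟩ := b
  have h1 : IsPreconnected ({y | (x, y) ∈ Ω} ∩ S) :=
    isPreconnected_inter (hΩ.fst x).pre (hΩ.fst x).isOpen hS hSo
  have h2 : PreconnectedSpace ({y | (x, y) ∈ Ω} ∩ S : Set Y) := Subtype.preconnectedSpace h1
  have h3 : f ⁻¹' {x} ∩ g ⁻¹' S =
      range (fun y : ({y | (x, y) ∈ Ω} ∩ S : Set Y) => Ψ.symm (⟨(x, y.1), y.2.1⟩ : Ω)) := by
    ext p
    constructor
    · rintro ⟨hp1, hp2⟩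
      have hp1' : f p = x := hp1
      have hmem : (x, g p) ∈ Ω := by
        have h := (Ψ p).2
        rw [hΨ p, hp1'] at h
        exact h
      refine ⟨⟨g p, hmem, hp2⟩, ?_⟩
      show Ψ.symm (⟨(x, g p), hmem⟩ : Ω) = p
      rw [Homeomorph.symm_apply_eq]
      apply Subtype.ext
      show (x, g p) = (Ψ p).1
      rw [hΨ p, hp1']
    · rintro ⟨y, rfl⟩
      have h := hΨ (Ψ.symm (⟨(x, y.1), y.2.1⟩ : Ω))
      rw [Ψ.apply_symm_apply] at h
      refine ⟨(congrArg Prod.fst h).symm, ?_⟩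
      have h4 : g (Ψ.symm (⟨(x, y.1), y.2.1⟩ : Ω)) = y.1 := (congrArg Prod.snd h).symm
      show g (Ψ.symm (⟨(x, y.1), y.2.1⟩ : Ω)) ∈ S
      rw [h4]
      exact y.2.2
  rw [h3]
  exact isPreconnected_range (Ψ.symm.continuous.comp (by fun_prop))

theorem Bi.fib₁ (b : Bi f g) (x : X) : IsPreconnected (f ⁻¹' {x}) := by
  have h := b.fib_inter x (S := univ) isPreconnected_univ isOpen_univ
  rwa [preimage_univ, inter_univ] at h

theorem Bi.fib₂ (b : Bi f g) (y : Y) : IsPreconnected (g ⁻¹' {y}) := b.swap.fib₁ y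

/-- PROOF. `isPreconnected_preimage` (BifolMain) for `f`, then `IsPreconnected.image`. -/
theorem Bi.isPreconnected_image (b : Bi f g) {S : Set X} (hS : IsPreconnected S) :
    IsPreconnected (g '' (f ⁻¹' S)) :=
  (isPreconnected_preimage b.open₁ b.surj₁ b.fib₁ hS).image g b.cont₂.continuousOn

/-- PROOF. The union of the lines `g '' (f ⁻¹' {x})`, `x ∈ S`. -/
theorem Bi.isOpen_image (b : Bi f g) (S : Set X) : IsOpen (g '' (f ⁻¹' S)) := by
  have h : g '' (f ⁻¹' S) = ⋃ x ∈ S, g '' (f ⁻¹' {x}) := by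
    ext y
    simp only [mem_iUnion, mem_image, mem_preimage, mem_singleton_iff]
    constructor
    · rintro ⟨p, hp, rfl⟩
      exact ⟨f p, hp, p, rfl, rfl⟩
    · rintro ⟨x, hx, p, rfl, rfl⟩
      exact ⟨p, hx, rfl⟩
  rw [h]
  exact isOpen_biUnion fun x _ => (b.line₁ x).isOpen

/-- On a fibre of `f` the values of `g` are totally ordered. PROOF. `line₁`, `up_iff_dn`. -/
theorem Bi.up_iff (b : Bi f g) (o : Orientation Y) {p q : ℝ × ℝ} (h1 : f p = f q) :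
    g q ∈ o.up (g p) ↔ g p ∈ o.dn (g q) :=
  up_iff_dn o (b.line₁ (f p)) ⟨p, rfl, rfl⟩ ⟨q, h1.symm, rfl⟩

/-- PROOF. `trichotomy`, `inj`. -/
theorem Bi.tri (b : Bi f g) (o : Orientation Y) {p q : ℝ × ℝ} (h1 : f p = f q) (hne : p ≠ q) :
    g q ∈ o.up (g p) ∨ g q ∈ o.dn (g p) :=
  o.up_or_dn fun h => hne (b.inj h1 h.symm)

/-- The decreasing property in the other direction. PROOF. `g q ≠ g p`, otherwise `p = q`
(`w.fg.inj`), but `h q ∈ oZ.up (h p)`. If `g q ∈ oY.up (g p)` then `h q ∈ oZ.dn (h p)` by `w.dX`: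
contradiction. -/
theorem Web.dX' {oX : Orientation X} {oY : Orientation Y} {oZ : Orientation Z}
    (w : Web oX oY oZ f g h) {p q : ℝ × ℝ} (h1 : f p = f q) (h2 : h q ∈ oZ.up (h p)) :
    g q ∈ oY.dn (g p) := by
  have hne : g q ≠ g p := by
    intro h3
    have h4 : p = q := w.fg.inj h1 h3.symm
    subst h4
    exact oZ.self_up _ h2
  rcases oY.up_or_dn hne with h3 | h3
  · exact absurd (w.dX p q h1 h3) (oZ.up_not_dn h2)
  · exact h3

/-- Also with `dn` and `up` exchanged. PROOF. `g q ∈ dn (g p)` iff `g p ∈ up (g q)` on a fibre. -/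
theorem Web.dX_dn {oX : Orientation X} {oY : Orientation Y} {oZ : Orientation Z}
    (w : Web oX oY oZ f g h) {p q : ℝ × ℝ} (h1 : f p = f q) (h2 : g q ∈ oY.dn (g p)) :
    h q ∈ oZ.up (h p) := by
  have h3 : g p ∈ oY.up (g q) := (w.fg.up_iff oY h1.symm).2 h2
  have h4 : h p ∈ oZ.dn (h q) := w.dX q p h1.symm h3
  exact (w.hf.swap.up_iff oZ h1).2 h4

/-- PROOF. The three clauses by `dX_dn` for `w`, `w.rot`, `w.rot.rot`. -/
theorem Web.op {oX : Orientation X} {oY : Orientation Y} {oZ : Orientation Z}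
    (w : Web oX oY oZ f g h) : Web (op oX) (op oY) (op oZ) f g h where
  fg := w.fg
  gh := w.gh
  hf := w.hf
  dX p q h1 h2 := by
    rw [op_up] at h2
    rw [op_dn]
    exact w.dX_dn h1 h2
  dY p q h1 h2 := by
    rw [op_up] at h2
    rw [op_dn]
    exact w.rot.dX_dn h1 h2
  dZ p q h1 h2 := by
    rw [op_up] at h2
    rw [op_dn]
    exact w.rot.rot.dX_dn h1 h2

end Pool.Agent.LST
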