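import Pool.Agent.LST.BiApi

/-!
# LST module BiOf (size 3)

The projections of two transverse foliations are `Bi`.
-/

open Set Topology Filter

namespace Pool.Agent.LST

open Pool.Agent.H86.Bifol Pool.Agent.LSP

variable {X Y Z : Type*} [TopologicalSpace X] [TopologicalSpace Y] [TopologicalSpace Z] [SCM X]
  [SCM Y] [SCM Z]

/-- PROOF. `f p := L (F.proj p)`, `g p := L' (G.proj p)`, `Φ p := (f p, g p)`. `Φ` is continuous
(`continuous_proj`), injective (`eq_of_proj_eq`, BifolPath), open: the image of an open `W ∋ p` is a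
neighbourhood of `Φ p` by `Transverse.exists_small` with this `W` (see `mem_interior_of_forall` in
LSP/NecB). So `Φ` is an open embedding and gives a homeomorphism onto its range `Ω`
(`IsOpenEmbedding.toHomeomorph` or `IsEmbedding.toHomeomorph`).
`Slices Ω`: open. The slice at `x` is `g '' (f ⁻¹' {x})`: preconnected (`isPreconnected_leaf`, see
`hfib` in LSP/NecA), nonempty (`f` is surjective), open (preimage of `Ω` under `y ↦ (x, y)`), separated:
if `y, y'` are in it and not separated and `y ≠ y'`, contradiction to `noncross` (BifolMain; applied to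
`G, F`: the leaf `x` of `F` crosses the two leaves `y`, `y'` of `G`; see the end of NecA for the use of
`noncross`). The slice at `y` in the same way. -/
theorem bi_of_transverse {F G : Foliation} (hFG : Transverse F G) (L : F.LeafSpace ≃ₜ X)
    (L' : G.LeafSpace ≃ₜ Y) : Bi (fun p => L (F.proj p)) (fun p => L' (G.proj p)) := by
  set f : ℝ × ℝ → X := fun p => L (F.proj p) with hf
  set g : ℝ × ℝ → Y := fun p => L' (G.proj p) with hg
  set Φ : ℝ × ℝ → X × Y := fun p => (f p, g p) with hΦ
  have hfc : Continuous f := L.continuous.comp F.continuous_proj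
  have hgc : Continuous g := L'.continuous.comp G.continuous_proj
  have hfo : IsOpenMap f := L.isOpenMap.comp F.isOpenMap_proj
  have hgo : IsOpenMap g := L'.isOpenMap.comp G.isOpenMap_proj
  have hfs : Function.Surjective f := L.surjective.comp Quotient.mk_surjective
  have hgs : Function.Surjective g := L'.surjective.comp Quotient.mk_surjective
  have hffib : ∀ l, IsPreconnected (f ⁻¹' {l}) := by
    intro l
    have : f ⁻¹' {l} = F.proj ⁻¹' {L.symm l} := by
      ext p
      simp only [hf, mem_preimage, mem_singleton_iff]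
      exact L.eq_symm_apply.symm
    rw [this]
    exact Foliation.isPreconnected_leaf F _
  have hgfib : ∀ l, IsPreconnected (g ⁻¹' {l}) := by
    intro l
    have : g ⁻¹' {l} = G.proj ⁻¹' {L'.symm l} := by
      ext p
      simp only [hg, mem_preimage, mem_singleton_iff]
      exact L'.eq_symm_apply.symm
    rw [this]
    exact Foliation.isPreconnected_leaf G _
  have hΦc : Continuous Φ := hfc.prodMk hgc
  have hΦi : Function.Injective Φ := by
    intro p q hpq
    have h := Prod.mk.inj hpq
    exact eq_of_proj_eq hFG SCM.charts L (L.injective h.1) (L'.injective h.2)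
  have hΦo : IsOpenMap Φ := by
    intro W hW
    rw [isOpen_iff_mem_nhds]
    rintro _ ⟨p, hp, rfl⟩
    obtain ⟨V, hVW, hVo, hpV, hs⟩ := hFG.exists_small (p := p) (W := W) (hW.mem_nhds hp)
    refine Filter.mem_of_superset
      (((hfo V hVo).prod (hgo V hVo)).mem_nhds ⟨⟨p, hpV, rfl⟩, ⟨p, hpV, rfl⟩⟩) ?_
    rintro ⟨a, b⟩ ⟨⟨q, hq, h1⟩, ⟨r, hr, h2⟩⟩
    obtain ⟨s, hsV, hs1, hs2⟩ := hs q hq r hr
    refine ⟨s, hVW hsV, ?_⟩
    simp only at h1 h2
    show (L (F.proj s), L' (G.proj s)) = (a, b)
    rw [hs1, hs2, ← h1, ← h2]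
  have hemb : IsOpenEmbedding Φ := IsOpenEmbedding.of_continuous_injective_isOpenMap hΦc hΦi hΦo
  have hopen : IsOpen (range Φ) := hemb.isOpen_range
  refine ⟨range Φ, ⟨hopen, fun x => ⟨?_, ?_, ?_, ?_⟩, fun y => ⟨?_, ?_, ?_, ?_⟩⟩,
    hemb.isEmbedding.toHomeomorph, fun q => rfl⟩
  · exact hopen.preimage (by fun_prop : Continuous fun y : Y => (x, y))
  · have h : {y | (x, y) ∈ range Φ} = g '' (f ⁻¹' {x}) := by
      ext y
      constructor
      · rintro ⟨p, hp⟩
        exact ⟨p, (Prod.mk.inj hp).1, (Prod.mk.inj hp).2⟩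
      · rintro ⟨p, hp1, hp2⟩
        exact ⟨p, Prod.ext hp1 hp2⟩
    rw [h]
    exact (hffib x).image g hgc.continuousOn
  · obtain ⟨p, hp⟩ := hfs x
    exact ⟨g p, p, Prod.ext hp rfl⟩
  · rintro y ⟨p, hp⟩ y' ⟨q, hq⟩ hns
    by_contra hne
    have h1 := Prod.mk.inj hp
    have h2 := Prod.mk.inj hq
    have h3 : G.proj p ≠ G.proj q := by
      intro h
      apply hne
      rw [← h1.2, ← h2.2]
      simp only [hg, h]
    refine noncross hFG.symm SCM.charts L' h3 ?_ (L.injective (h1.1.trans h2.1.symm))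
    have e1 : L' (G.proj p) = y := h1.2
    have e2 : L' (G.proj q) = y' := h2.2
    rw [e1, e2]
    exact hns
  · exact hopen.preimage (by fun_prop : Continuous fun x : X => (x, y))
  · have h : {x | (x, y) ∈ range Φ} = f '' (g ⁻¹' {y}) := by
      ext x
      constructor
      · rintro ⟨p, hp⟩
        exact ⟨p, (Prod.mk.inj hp).2, (Prod.mk.inj hp).1⟩
      · rintro ⟨p, hp1, hp2⟩
        exact ⟨p, Prod.ext hp2 hp1⟩
    rw [h]
    exact (hgfib y).image f hfc.continuousOn
  · obtain ⟨p, hp⟩ := hgs y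
    exact ⟨f p, p, Prod.ext rfl hp⟩
  · rintro x ⟨p, hp⟩ x' ⟨q, hq⟩ hns
    by_contra hne
    have h1 := Prod.mk.inj hp
    have h2 := Prod.mk.inj hq
    have h3 : F.proj p ≠ F.proj q := by
      intro h
      apply hne
      rw [← h1.1, ← h2.1]
      simp only [hf, h]
    refine noncross hFG SCM.charts L h3 ?_ (L'.injective (h1.2.trans h2.2.symm))
    have e1 : L (F.proj p) = x := h1.1
    have e2 : L (F.proj q) = x' := h2.1
    rw [e1, e2]
    exact hns

/-- PROOF. `bi_of_transverse` for the three pairs (`Transverse.symm` for the last one). -/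
theorem exists_bi_of_realizedTriple (hr : RealizedTriple X Y Z) :
    ∃ (f : ℝ × ℝ → X) (g : ℝ × ℝ → Y) (h : ℝ × ℝ → Z), Bi f g ∧ Bi g h ∧ Bi h f := by
  obtain ⟨F, G, H, h1, h2, h3, ⟨L⟩, ⟨L'⟩, ⟨L''⟩⟩ := hr
  exact ⟨_, _, _, bi_of_transverse h1 L L', bi_of_transverse h3 L' L'',
    bi_of_transverse h2.symm L'' L⟩

end Pool.Agent.LST
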