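import Pool.Agent.LST.Ord

/-!
# LST module CSlice (size 3)

The slices of the interior of `Sat O` are lines.
-/

open Set Topology Filter

namespace Pool.Agent.LST

open Pool.Agent.H86.Bifol Pool.Agent.LSP

variable {X Y : Type*} [TopologicalSpace X] [TopologicalSpace Y] [SCM X] [SCM Y]

/-- Exchange of the coordinates. -/
def swapO (O : Set (Set X × Set Y)) : Set (Set Y × Set X) := {q | (q.2, q.1) ∈ O}

omit [TopologicalSpace X] [TopologicalSpace Y] [SCM X] [SCM Y] in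
theorem mem_Sat_swap {O : Set (Set X × Set Y)} {x : X} {y : Y} :
    (y, x) ∈ Sat (swapO O) ↔ (x, y) ∈ Sat O := by
  constructor
  · intro h q hq
    exact (h (q.2, q.1) hq).symm
  · intro h q hq
    exact (h (q.2, q.1) hq).symm

/-- PROOF. As `mem_interior_Om_swap` in LSP/Defs. -/
theorem mem_interior_Sat_swap {O : Set (Set X × Set Y)} {x : X} {y : Y} :
    (y, x) ∈ interior (Sat (swapO O)) ↔ (x, y) ∈ interior (Sat O) := by
  have hs : Sat (swapO O) = Prod.swap ⁻¹' Sat O := by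
    ext ⟨y, x⟩
    exact mem_Sat_swap
  have h : interior (Sat (swapO O)) = Prod.swap ⁻¹' interior (Sat O) := by
    rw [hs]
    exact ((Homeomorph.prodComm Y X).preimage_interior (Sat O)).symm
  rw [h]
  rfl

private theorem cslice_hull {O : Set (Set X × Set Y)}
    (hO : ∀ q ∈ O, IsHalfSpace q.1 ∧ IsHalfSpace q.2) {x : X}
    {A : Set Y} (hA : ∀ y ∈ A, (x, y) ∈ Sat O) {q : Y} (hq : q ∈ Qh A) : (x, q) ∈ Sat O := by
  intro c hc
  by_cases hx : x ∈ c.1
  · exact Or.inl hx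
  · refine Or.inr (hq _ (hO c hc).2 fun y hy => ?_)
    exact (hA y hy c hc).resolve_left hx

/-- PROOF. Literally the proof of `isPreconnected_slice` in LSP/SliceOf, with `hull_subset_slice`
replaced by: if `(x, y) ∈ Sat O` for all `y ∈ A` and `q ∈ Qh A` then `(x, q) ∈ Sat O` (for `c ∈ O` with
`x ∉ c.1` all `y ∈ A` are in the half-space `c.2`, so `q ∈ c.2`), and `slice_sep` replaced by `sep`. -/
theorem isPreconnected_slice_sat {O : Set (Set X × Set Y)}
    (hO : ∀ q ∈ O, IsHalfSpace q.1 ∧ IsHalfSpace q.2) (x : X)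
    (sep : ∀ a b, (x, a) ∈ Sat O → (x, b) ∈ Sat O → NonSeparated a b → a = b) :
    IsPreconnected {y | (x, y) ∈ interior (Sat O)} := by
  have box : ∀ y, (x, y) ∈ interior (Sat O) → ∃ (N : Set X) (M : Set Y), IsOpen N ∧ x ∈ N ∧
      IsOpen M ∧ IsPreconnected M ∧ y ∈ M ∧ N ×ˢ M ⊆ Sat O := by
    intro y hy
    obtain ⟨N, M, hN, hxN, hM, hyM, hsub⟩ :=
      mem_nhds_prod_iff'.1 (isOpen_interior.mem_nhds hy)
    refine ⟨N, connectedComponentIn M y, hN, hxN, hM.connectedComponentIn,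
      isPreconnected_connectedComponentIn, mem_connectedComponentIn hyM, ?_⟩
    exact (prod_mono Subset.rfl (connectedComponentIn_subset M y)).trans
      (hsub.trans interior_subset)
  refine isPreconnected_of_forall_pair fun y₁ h₁ y₂ h₂ => ?_
  obtain ⟨N, M₁, hN, hxN, hM₁, pM₁, hy₁, hsub₁⟩ := box y₁ h₁
  obtain ⟨N', M₂, hN', hxN', hM₂, pM₂, hy₂, hsub₂⟩ := box y₂ h₂
  have hslice : ∀ x' ∈ N ∩ N', ∀ q ∈ Qh (M₁ ∪ M₂), (x', q) ∈ Sat O := by
    intro x' hx' q hq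
    refine cslice_hull hO (A := M₁ ∪ M₂) ?_ hq
    rintro y (hy | hy)
    · exact hsub₁ ⟨hx'.1, hy⟩
    · exact hsub₂ ⟨hx'.2, hy⟩
  obtain ⟨P, oP, pP, hP₁, hP₂, hPQ⟩ := hull hM₁ pM₁ hM₂ pM₂ hy₁ hy₂ fun a ha b hb hab =>
    sep a b (hslice x ⟨hxN, hxN'⟩ a ha) (hslice x ⟨hxN, hxN'⟩ b hb) hab
  have hint : (N ∩ N') ×ˢ P ⊆ interior (Sat O) := by
    refine interior_maximal ?_ ((hN.inter hN').prod oP)
    rintro ⟨x', q⟩ ⟨hx', hq⟩
    exact hslice x' hx' q (hPQ hq)
  exact ⟨P, fun y hy => hint ⟨⟨hxN, hxN'⟩, hy⟩, hP₁ hy₁, hP₂ hy₂, pP⟩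

/-- PROOF. As `slices_interior` in LSP/SliceOf; for the second slices use `swapO`. -/
theorem slices_sat {O : Set (Set X × Set Y)}
    (hO : ∀ q ∈ O, IsHalfSpace q.1 ∧ IsHalfSpace q.2)
    (s₁ : ∀ x a b, (x, a) ∈ Sat O → (x, b) ∈ Sat O → NonSeparated a b → a = b)
    (s₂ : ∀ y a b, (a, y) ∈ Sat O → (b, y) ∈ Sat O → NonSeparated a b → a = b)
    (hx : ∀ x, ∃ y, (x, y) ∈ interior (Sat O)) (hy : ∀ y, ∃ x, (x, y) ∈ interior (Sat O)) :
    Slices (interior (Sat O)) := by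
  refine ⟨isOpen_interior, fun x => ⟨?_, isPreconnected_slice_sat hO x (s₁ x), hx x, ?_⟩,
    fun y => ⟨?_, ?_, hy y, ?_⟩⟩
  · exact isOpen_interior.preimage (Continuous.prodMk_right x)
  · intro a ha b hb hab
    exact s₁ x a b (interior_subset ha) (interior_subset hb) hab
  · exact isOpen_interior.preimage (Continuous.prodMk_left y)
  · have hO' : ∀ q ∈ swapO O, IsHalfSpace q.1 ∧ IsHalfSpace q.2 := fun q hq =>
      ⟨(hO _ hq).2, (hO _ hq).1⟩
    have hp := isPreconnected_slice_sat hO' y fun a b ha hb hab =>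
      s₂ y a b (mem_Sat_swap.1 ha) (mem_Sat_swap.1 hb) hab
    have he : {x | (y, x) ∈ interior (Sat (swapO O))} = {x | (x, y) ∈ interior (Sat O)} := by
      ext x
      exact mem_interior_Sat_swap
    rwa [he] at hp
  · intro a ha b hb hab
    exact s₂ y a b (interior_subset ha) (interior_subset hb) hab

end Pool.Agent.LST
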