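import Pool.Agent.LST.CSlice

/-!
# LST module CTri (size 4)

A cut system gives a triangle.
-/

open Set Topology Filter

namespace Pool.Agent.LST

open Pool.Agent.H86.Bifol Pool.Agent.LSP

variable {X Y Z : Type*} [TopologicalSpace X] [TopologicalSpace Y] [TopologicalSpace Z] [SCM X]
  [SCM Y] [SCM Z] {oX : Orientation X} {oY : Orientation Y} {oZ : Orientation Z}
  {D₁ : CutData X Y Z} {D₂ : CutData Y Z X} {D₃ : CutData Z X Y}

/-- PROOF. `exists_above`, `up_eq_side`. -/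
theorem isHalfSpace_up (o : Orientation X) (x : X) : IsHalfSpace (o.up x) := by
  obtain ⟨y, -, hy, -⟩ := exists_above o isOpen_univ (mem_univ x)
  exact ⟨x, y, ne_of_mem_side (by rw [← o.up_eq_side hy]; exact hy), o.up_eq_side hy⟩

theorem isHalfSpace_dn (o : Orientation X) (x : X) : IsHalfSpace (o.dn x) := by
  have := isHalfSpace_up (op o) x
  rwa [op_up] at this

/-- PROOF. Case distinction; `isHalfSpace_up`, `isHalfSpace_dn`, `isHalfSpace_side` (LSP/Defs). -/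
theorem isHalfSpace_conds : ∀ q ∈ conds oX oY oZ D₁ D₂ D₃, IsHalfSpace q.1 ∧ IsHalfSpace q.2 := by
  rintro q ((⟨u, u', hn, -, rfl | rfl⟩ | ⟨u, u', hn, -, rfl | rfl⟩) |
    ⟨u, u', hn, -, ⟨-, rfl⟩ | ⟨-, rfl⟩⟩)
  · exact ⟨isHalfSpace_side hn.1.symm, isHalfSpace_dn _ _⟩
  · exact ⟨isHalfSpace_side hn.1, isHalfSpace_up _ _⟩
  · exact ⟨isHalfSpace_up _ _, isHalfSpace_side hn.1.symm⟩
  · exact ⟨isHalfSpace_dn _ _, isHalfSpace_side hn.1⟩
  · exact ⟨isHalfSpace_up _ _, isHalfSpace_up _ _⟩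
  · exact ⟨isHalfSpace_dn _ _, isHalfSpace_dn _ _⟩

/-- PROOF. If `a ≠ b` then `NS a b`; say `D₂.pos a b` (`t₂`; the other case by symmetry). The conditions
`(oX.up c, side a b)`, `(oX.dn c, side b a)` of `D₂.toZ`, `c = D₂.b a b`: `a ∉ side a b`, so `x ∈ oX.up c`;
`b ∉ side b a`, so `x ∈ oX.dn c`: contradiction. -/
theorem sep₁ (t₂ : D₂.Total) (x : X) (a b : Y) (ha : (x, a) ∈ Sat (conds oX oY oZ D₁ D₂ D₃))
    (hb : (x, b) ∈ Sat (conds oX oY oZ D₁ D₂ D₃)) (hn : NonSeparated a b) : a = b := by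
  by_contra hne
  have key : ∀ a b : Y, (x, a) ∈ Sat (conds oX oY oZ D₁ D₂ D₃) →
      (x, b) ∈ Sat (conds oX oY oZ D₁ D₂ D₃) → NS a b → D₂.pos a b → False := by
    intro a b ha hb hab hp
    have h1 := ha (oX.up (D₂.b a b), side a b) (Or.inl (Or.inr ⟨a, b, hab, hp, Or.inl rfl⟩))
    have h2 := hb (oX.dn (D₂.b a b), side b a) (Or.inl (Or.inr ⟨a, b, hab, hp, Or.inr rfl⟩))
    have h3 : x ∈ oX.up (D₂.b a b) := h1.resolve_right self_notMem_side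
    have h4 : x ∈ oX.dn (D₂.b a b) := h2.resolve_right self_notMem_side
    exact notMem_up_of_dn oX h4 h3
  rcases t₂ a b ⟨hne, hn⟩ with h | h
  · exact key a b ha hb ⟨hne, hn⟩ h
  · exact key b a hb ha (NS.symm ⟨hne, hn⟩) h

/-- PROOF. The same with `D₁.toY`. -/
theorem sep₂ (t₁ : D₁.Total) (y : Y) (a b : X) (ha : (a, y) ∈ Sat (conds oX oY oZ D₁ D₂ D₃))
    (hb : (b, y) ∈ Sat (conds oX oY oZ D₁ D₂ D₃)) (hn : NonSeparated a b) : a = b := by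
  by_contra hne
  have key : ∀ a b : X, (a, y) ∈ Sat (conds oX oY oZ D₁ D₂ D₃) →
      (b, y) ∈ Sat (conds oX oY oZ D₁ D₂ D₃) → NS a b → D₁.pos a b → False := by
    intro a b ha hb hab hp
    have h1 := ha (side a b, oY.dn (D₁.a a b)) (Or.inl (Or.inl ⟨a, b, hab, hp, Or.inl rfl⟩))
    have h2 := hb (side b a, oY.up (D₁.a a b)) (Or.inl (Or.inl ⟨a, b, hab, hp, Or.inr rfl⟩))
    have h3 : y ∈ oY.dn (D₁.a a b) := h1.resolve_left self_notMem_side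
    have h4 : y ∈ oY.up (D₁.a a b) := h2.resolve_left self_notMem_side
    exact notMem_up_of_dn oY h3 h4
  rcases t₁ a b ⟨hne, hn⟩ with h | h
  · exact key a b ha hb ⟨hne, hn⟩ h
  · exact key b a hb ha (NS.symm ⟨hne, hn⟩) h

/-- **Bad conditions are never violated.** If `(x, y)` and `(z, x)` satisfy all conditions, and `(y, z)` violates a
condition `q` on `(y, z)`, then `q` is `(oY.dn p, oZ.dn r)` (so `y`, `z` are in the closed
upper sides of `p`, `r`), or `(oY.up p, oZ.up r)`.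
PROOF. `q` is a condition of `D₂.toY`, `D₃.toZ` or `D₁.cross`. The last one is fine.
(a) `D₂.toY oZ`: `NS w w'`, `D₂.pos w w'`, `a = D₂.a w w' : Z`, `b = D₂.b w w' : X`.
(a1) `q = (side w w', oZ.dn a)`. If `w' ∈ oY.dn w` then `side w w' = oY.dn w`, fine. If
`w' ∈ oY.up w`: `y ∉ side w w'`, so by the condition `(oX.up b, side w w')` of `D₂.toZ` on `(x, y)`:
`x ∈ oX.up b`. The condition `(oZ.dn a, oX.dn b)` of `D₂.cross` on `(z, x)`: `z ∈ oZ.dn a` or `x ∈ oX.dn b`;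
so `z ∈ oZ.dn a`: `q` is not violated.
(a2) `q = (side w' w, oZ.up a)`. If `w' ∈ oY.up w` then `w ∈ oY.up w'` (`ns_up_iff`) and
`side w' w = oY.up w'`, fine. If `w' ∈ oY.dn w`: `y ∉ side w' w`, so `x ∈ oX.dn b` (condition `(oX.dn b, side w' w)`);
the condition `(oZ.up a, oX.up b)` of `D₂.cross`: `z ∈ oZ.up a`: not violated.
(b) `D₃.toZ oY`: `NS u u'` in `Z`, `a = D₃.a u u' : X`, `b = D₃.b u u' : Y`.
(b1) `q = (oY.up b, side u u')`. If `u' ∈ oZ.up u`, fine. If `u' ∈ oZ.dn u`: `z ∉ side u u'` gives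
`x ∈ oX.dn a` (condition `(side u u', oX.dn a)` of `D₃.toY` on `(z, x)`); the condition `(oX.up a, oY.up b)`
of `D₃.cross` on `(x, y)`: `y ∈ oY.up b`: not violated.
(b2) `q = (oY.dn b, side u' u)`. If `u' ∈ oZ.dn u` then `side u' u = oZ.dn u'`, fine. If `u' ∈ oZ.up u`:
`z ∉ side u' u` gives `x ∈ oX.up a`; the condition `(oX.dn a, oY.dn b)` of `D₃.cross`: `y ∈ oY.dn b`. -/
theorem violated {x : X} {y : Y} {z : Z} (h₁ : (x, y) ∈ Sat (conds oX oY oZ D₁ D₂ D₃))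
    (h₃ : (z, x) ∈ Sat (conds oZ oX oY D₃ D₁ D₂)) {q : Set Y × Set Z}
    (hq : q ∈ conds oY oZ oX D₂ D₃ D₁) (hy : y ∉ q.1) (hz : z ∉ q.2) :
    (∃ p r, q = (oY.dn p, oZ.dn r)) ∨ ∃ p r, q = (oY.up p, oZ.up r) := by
  rcases hq with (⟨w, w', hn, hp, rfl | rfl⟩ | ⟨u, u', hn, hp, rfl | rfl⟩) |
    ⟨u, u', hn, hp, ⟨-, rfl⟩ | ⟨-, rfl⟩⟩
  · -- (a1)
    by_cases hw : w' ∈ oY.up w
    · exfalso
      have e1 := h₁ (oX.up (D₂.b w w'), side w w') (Or.inl (Or.inr ⟨w, w', hn, hp, Or.inl rfl⟩))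
      have hx : x ∈ oX.up (D₂.b w w') := e1.resolve_right hy
      have e2 := h₃ (oZ.dn (D₂.a w w'), oX.dn (D₂.b w w'))
        (Or.inr ⟨w, w', hn, hp, Or.inr ⟨hw, rfl⟩⟩)
      have hz' : z ∈ oZ.dn (D₂.a w w') := e2.resolve_right fun h => notMem_up_of_dn oX h hx
      exact hz hz'
    · have hw' : w' ∈ oY.dn w := (oY.up_or_dn hn.1.symm).resolve_left hw
      exact Or.inl ⟨w, D₂.a w w', by rw [oY.dn_eq_side hw']⟩
  · -- (a2)
    by_cases hw : w' ∈ oY.up w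
    · have hw' : w ∈ oY.up w' := (ns_up_iff oY hn).1 hw
      exact Or.inr ⟨w', D₂.a w w', by rw [oY.up_eq_side hw']⟩
    · exfalso
      have hw' : w' ∈ oY.dn w := (oY.up_or_dn hn.1.symm).resolve_left hw
      have e1 := h₁ (oX.dn (D₂.b w w'), side w' w) (Or.inl (Or.inr ⟨w, w', hn, hp, Or.inr rfl⟩))
      have hx : x ∈ oX.dn (D₂.b w w') := e1.resolve_right hy
      have e2 := h₃ (oZ.up (D₂.a w w'), oX.up (D₂.b w w'))
        (Or.inr ⟨w, w', hn, hp, Or.inl ⟨hw', rfl⟩⟩)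
      have hz' : z ∈ oZ.up (D₂.a w w') := e2.resolve_right (notMem_up_of_dn oX hx)
      exact hz hz'
  · -- (b1)
    by_cases hu : u' ∈ oZ.up u
    · exact Or.inr ⟨D₃.b u u', u, by rw [oZ.up_eq_side hu]⟩
    · exfalso
      have hu' : u' ∈ oZ.dn u := (oZ.up_or_dn hn.1.symm).resolve_left hu
      have e1 := h₃ (side u u', oX.dn (D₃.a u u')) (Or.inl (Or.inl ⟨u, u', hn, hp, Or.inl rfl⟩))
      have hx : x ∈ oX.dn (D₃.a u u') := e1.resolve_left hz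
      have e2 := h₁ (oX.up (D₃.a u u'), oY.up (D₃.b u u'))
        (Or.inr ⟨u, u', hn, hp, Or.inl ⟨hu', rfl⟩⟩)
      exact hy (e2.resolve_left (notMem_up_of_dn oX hx))
  · -- (b2)
    by_cases hu : u' ∈ oZ.up u
    · exfalso
      have e1 := h₃ (side u' u, oX.up (D₃.a u u')) (Or.inl (Or.inl ⟨u, u', hn, hp, Or.inr rfl⟩))
      have hx : x ∈ oX.up (D₃.a u u') := e1.resolve_left hz
      have e2 := h₁ (oX.dn (D₃.a u u'), oY.dn (D₃.b u u'))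
        (Or.inr ⟨u, u', hn, hp, Or.inr ⟨hu, rfl⟩⟩)
      exact hy (e2.resolve_left fun h => notMem_up_of_dn oX h hx)
    · have hu' : u' ∈ oZ.dn u := (oZ.up_or_dn hn.1.symm).resolve_left hu
      have hu2 : u ∈ oZ.dn u' := by
        refine (oZ.up_or_dn hn.1).resolve_left fun h => hu ((ns_up_iff oZ hn).2 h)
      exact Or.inl ⟨D₃.b u u', u', by rw [oZ.dn_eq_side hu2]⟩
  · exact Or.inr ⟨_, _, rfl⟩
  · exact Or.inl ⟨_, _, rfl⟩

/-- PROOF. Let `y, y'`, `z, z'` be as in `Corner`, `ℓ := {y | (x, y) ∈ interior S₁}`,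
`ℓ' := {z | (z, x) ∈ interior S₃}` (lines, `hs₁.fst`, `hs₃.snd`), `S₂ := Sat (conds oY oZ oX D₂ D₃ D₁)`. Suppose
`(y, z') ∉ interior S₂`. Let `N ∋ y`, `N' ∋ z'` be open with: `N ⊆ ℓ ∩ oY.dn y'`, `N' ⊆ ℓ' ∩ oZ.up z`,
`N × {z} ⊆ interior S₂` (possible, `(y, z) ∈ interior S₂`), `{y'} × N' ⊆ interior S₂`. There is
`(y*, z*) ∈ N × N'`, `(y*, z*) ∉ S₂` (otherwise `N ×ˢ N' ⊆ S₂`): a condition `q` is violated by it. As
`y* ∈ ℓ`, `z* ∈ ℓ'`, `violated` applies. If `q = (oY.dn p, oZ.dn r)`: `y* ∉ oY.dn p`, `y' ∈ oY.up y*` on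
`ℓ` (`y* ∈ oY.dn y'`), so `y' ∈ oY.up p` (`up_of_notMem_dn`), so `y' ∉ oY.dn p`; and `z* ∉ oZ.dn r`: the pair
`(y', z*) ∈ S₂` violates `q`. If `q = (oY.up p, oZ.up r)`: `z* ∉ oZ.up r`, `z* ∈ oZ.up z` on `ℓ'`, so
`z ∈ oZ.dn r` (`dn_of_notMem_up`) and the pair `(y*, z) ∈ S₂` violates `q`.
`(y', z) ∈ interior S₂`: the same with neighbourhoods `N ∋ y'`, `N' ∋ z`: `N ⊆ ℓ ∩ oY.up y`,
`N' ⊆ ℓ' ∩ oZ.dn z'`, `N × {z'} ⊆ interior S₂`, `{y} × N' ⊆ interior S₂`. If `q = (oY.dn p, oZ.dn r)` is violated by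
`(y*, z*)`: `z' ∈ oZ.up z*`, so `z' ∈ oZ.up r` and `(y*, z')` violates `q`. If `q = (oY.up p, oZ.up r)`:
`y* ∈ oY.up y`, so `y ∈ oY.dn p` and `(y, z*)` violates `q`. -/
theorem corner_conds (hs₁ : Slices (interior (Sat (conds oX oY oZ D₁ D₂ D₃))))
    (hs₃ : Slices (interior (Sat (conds oZ oX oY D₃ D₁ D₂)))) (x : X) :
    Corner oY oZ {y | (x, y) ∈ interior (Sat (conds oX oY oZ D₁ D₂ D₃))}
      {z | (z, x) ∈ interior (Sat (conds oZ oX oY D₃ D₁ D₂))}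
      (interior (Sat (conds oY oZ oX D₂ D₃ D₁))) := by
  set S₁ := Sat (conds oX oY oZ D₁ D₂ D₃) with hS₁
  set S₂ := Sat (conds oY oZ oX D₂ D₃ D₁) with hS₂
  set S₃ := Sat (conds oZ oX oY D₃ D₁ D₂) with hS₃
  intro y hy y' hy' z hz z' hz' hyy hzz hb hb'
  have hℓ : IsLine {y | (x, y) ∈ interior S₁} := hs₁.fst x
  have hℓ' : IsLine {z | (z, x) ∈ interior S₃} := hs₃.snd x
  have o1 : ∀ z, IsOpen {y | (y, z) ∈ interior S₂} := fun z =>
    isOpen_interior.preimage (Continuous.prodMk_left z)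
  have o2 : ∀ y, IsOpen {z | (y, z) ∈ interior S₂} := fun y =>
    isOpen_interior.preimage (Continuous.prodMk_right y)
  have hyd : y ∈ oY.dn y' := (up_iff_dn oY hℓ hy hy').1 hyy
  have hzd : z ∈ oZ.dn z' := (up_iff_dn oZ hℓ' hz hz').1 hzz
  have main : ∀ (N : Set Y) (N' : Set Z) (p : Y) (r : Z), IsOpen N → IsOpen N' → p ∈ N → r ∈ N' →
      (∀ s ∈ N, ∀ t ∈ N', (s, t) ∈ S₂) → (p, r) ∈ interior S₂ := by
    intro N N' p r hN hN' hp hr h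
    exact mem_interior.2 ⟨N ×ˢ N', fun q hq => h q.1 hq.1 q.2 hq.2, hN.prod hN', hp, hr⟩
  constructor
  · refine main ({t | (x, t) ∈ interior S₁} ∩ oY.dn y' ∩ {t | (t, z) ∈ interior S₂})
      ({t | (t, x) ∈ interior S₃} ∩ oZ.up z ∩ {t | (y', t) ∈ interior S₂}) y z'
      ((hℓ.isOpen.inter (oY.isOpen_dn y')).inter (o1 z))
      ((hℓ'.isOpen.inter (oZ.isOpen_up z)).inter (o2 y'))
      ⟨⟨hy, hyd⟩, hb⟩ ⟨⟨hz', hzz⟩, hb'⟩ ?_
    rintro s ⟨⟨hs, hs1⟩, hs2⟩ t ⟨⟨ht, ht1⟩, ht2⟩ q hq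
    by_contra hcon
    push Not at hcon
    obtain ⟨c1, c2⟩ := hcon
    rcases violated (interior_subset hs) (interior_subset ht) hq c1 c2 with
      ⟨p, r, rfl⟩ | ⟨p, r, rfl⟩
    · have h1 : y' ∈ oY.up p := up_of_notMem_dn oY hℓ hs hy' ((up_iff_dn oY hℓ hs hy').2 hs1) c1
      rcases interior_subset ht2 _ hq with h2 | h2
      · exact notMem_up_of_dn oY h2 h1
      · exact c2 h2
    · have h1 : z ∈ oZ.dn r := dn_of_notMem_up oZ hℓ' hz ht ht1 c2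
      rcases interior_subset hs2 _ hq with h2 | h2
      · exact c1 h2
      · exact notMem_up_of_dn oZ h1 h2
  · refine main ({t | (x, t) ∈ interior S₁} ∩ oY.up y ∩ {t | (t, z') ∈ interior S₂})
      ({t | (t, x) ∈ interior S₃} ∩ oZ.dn z' ∩ {t | (y, t) ∈ interior S₂}) y' z
      ((hℓ.isOpen.inter (oY.isOpen_up y)).inter (o1 z'))
      ((hℓ'.isOpen.inter (oZ.isOpen_dn z')).inter (o2 y))
      ⟨⟨hy', hyy⟩, hb'⟩ ⟨⟨hz, hzd⟩, hb⟩ ?_
    rintro s ⟨⟨hs, hs1⟩, hs2⟩ t ⟨⟨ht, ht1⟩, ht2⟩ q hq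
    by_contra hcon
    push Not at hcon
    obtain ⟨c1, c2⟩ := hcon
    rcases violated (interior_subset hs) (interior_subset ht) hq c1 c2 with
      ⟨p, r, rfl⟩ | ⟨p, r, rfl⟩
    · have h1 : z' ∈ oZ.up r :=
        up_of_notMem_dn oZ hℓ' ht hz' ((up_iff_dn oZ hℓ' ht hz').2 ht1) c2
      rcases interior_subset hs2 _ hq with h2 | h2
      · exact c1 h2
      · exact notMem_up_of_dn oZ h2 h1
    · have h1 : y ∈ oY.dn p := dn_of_notMem_up oY hℓ hy hs hs1 c1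
      rcases interior_subset ht2 _ hq with h2 | h2
      · exact notMem_up_of_dn oY h1 h2
      · exact c2 h2

/-- PROOF. `slices_sat` with `isHalfSpace_conds`, `sep₁`, `sep₂` and `Onto`; `corner_conds` three times. -/
theorem tri_of_cuts (t₁ : D₁.Total) (t₂ : D₂.Total) (t₃ : D₃.Total)
    (h : Onto (interior (Sat (conds oX oY oZ D₁ D₂ D₃))) (interior (Sat (conds oY oZ oX D₂ D₃ D₁)))
      (interior (Sat (conds oZ oX oY D₃ D₁ D₂)))) :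
    Tri oX oY oZ (interior (Sat (conds oX oY oZ D₁ D₂ D₃)))
      (interior (Sat (conds oY oZ oX D₂ D₃ D₁))) (interior (Sat (conds oZ oX oY D₃ D₁ D₂))) := by
  have s₁ : Slices (interior (Sat (conds oX oY oZ D₁ D₂ D₃))) :=
    slices_sat isHalfSpace_conds (sep₁ t₂) (sep₂ t₁)
      (fun x => by obtain ⟨y, z, h1, -, -⟩ := h.eX x; exact ⟨y, h1⟩)
      (fun y => by obtain ⟨z, x, -, -, h1⟩ := h.eY y; exact ⟨x, h1⟩)
  have s₂ : Slices (interior (Sat (conds oY oZ oX D₂ D₃ D₁))) :=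
    slices_sat isHalfSpace_conds (sep₁ t₃) (sep₂ t₂)
      (fun x => by obtain ⟨y, z, h1, -, -⟩ := h.eY x; exact ⟨y, h1⟩)
      (fun y => by obtain ⟨z, x, -, -, h1⟩ := h.eZ y; exact ⟨x, h1⟩)
  have s₃ : Slices (interior (Sat (conds oZ oX oY D₃ D₁ D₂))) :=
    slices_sat isHalfSpace_conds (sep₁ t₁) (sep₂ t₃)
      (fun x => by obtain ⟨y, z, h1, -, -⟩ := h.eZ x; exact ⟨y, h1⟩)
      (fun y => by obtain ⟨z, x, -, -, h1⟩ := h.eX y; exact ⟨x, h1⟩)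
  exact ⟨⟨s₁, s₂, s₃, corner_conds s₁ s₃, corner_conds s₂ s₁, corner_conds s₃ s₂⟩, h⟩

end Pool.Agent.LST
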