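import Pool.Agent.LST.BiApi

/-!
# LST module CuspA (size 4)

Two non-separated points of `X` and the fibres over them.
-/

open Set Topology Filter

namespace Pool.Agent.LST

open Pool.Agent.H86.Bifol Pool.Agent.LSP

variable {X Y Z : Type*} [TopologicalSpace X] [TopologicalSpace Y] [TopologicalSpace Z] [SCM X]
  [SCM Y] [SCM Z] {oX : Orientation X} {oY : Orientation Y} {oZ : Orientation Z}
  {f : ℝ × ℝ → X} {g : ℝ × ℝ → Y} {h : ℝ × ℝ → Z} {z z' : X}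

/-- PROOF. `{x | ∃ r ∈ N, f r = x ∧ g r = g p}` is a neighbourhood of `z = f p`, because the image of
`interior N` under the open map `(f, g)` is (`fg.isOpenMap`). The same for `z'`. `hz.2` gives a common
point `x`. -/
theorem exists_common (fg : Bi f g) (hz : NS z z') {p p' : ℝ × ℝ} (hp : f p = z)
    (hp' : f p' = z') {N N' : Set (ℝ × ℝ)} (hN : N ∈ 𝓝 p) (hN' : N' ∈ 𝓝 p') :
    ∃ r ∈ N, ∃ r' ∈ N', f r = f r' ∧ g r = g p ∧ g r' = g p' := by
  have key : ∀ (p : ℝ × ℝ) (N : Set (ℝ × ℝ)), N ∈ 𝓝 p →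
      ∃ U : Set X, IsOpen U ∧ f p ∈ U ∧ ∀ x ∈ U, ∃ r ∈ N, f r = x ∧ g r = g p := by
    intro p N hN
    have h1 : (fun p => (f p, g p)) '' N ∈ 𝓝 (f p, g p) := fg.isOpenMap.image_mem_nhds hN
    have h2 : {x | (x, g p) ∈ (fun p => (f p, g p)) '' N} ∈ 𝓝 (f p) :=
      (Continuous.prodMk_left (g p)).continuousAt.preimage_mem_nhds h1
    obtain ⟨U, hU, hUo, hpU⟩ := mem_nhds_iff.1 h2
    refine ⟨U, hUo, hpU, fun x hx => ?_⟩
    obtain ⟨r, hr, e⟩ := hU hx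
    exact ⟨r, hr, congrArg Prod.fst e, congrArg Prod.snd e⟩
  obtain ⟨U, hU, hpU, h1⟩ := key p N hN
  obtain ⟨U', hU', hpU', h2⟩ := key p' N' hN'
  rw [hp] at hpU
  rw [hp'] at hpU'
  obtain ⟨x, hx, hx'⟩ := hz.2 U U' hU hU' hpU hpU'
  obtain ⟨r, hr, e1, e2⟩ := h1 x hx
  obtain ⟨r', hr', e3, e4⟩ := h2 x hx'
  exact ⟨r, hr, r', hr', e1.trans e3.symm, e2, e4⟩

/-- PROOF. As `hside`, `hdisj` in the proof of `exists_cut` (LSP/NecA): suppose `g q = g q'`,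
`f q ∈ Cc z z'`, `f q' ∈ Cc z' z`. The line `f '' (g ⁻¹' {g q})` (`fg.line₂`) is connected and contains a
point of `Cc z z'` and a point of `Cc z' z ⊆ side z z'`, so it contains `z`; in the same way `z'`.
Contradiction with `IsLine.sep` and `hz`. -/
theorem disjoint_images (fg : Bi f g) (hz : NS z z') :
    Disjoint (g '' (f ⁻¹' Cc z z')) (g '' (f ⁻¹' Cc z' z)) := by
  have key : ∀ a b : X, NS a b → ∀ q q', g q' = g q → f q ∈ Cc a b → f q' ∈ Cc b a →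
      a ∈ f '' (g ⁻¹' {g q}) := by
    intro a b hab q q' hgq hq hq'
    by_contra hcon
    have hl := fg.line₂ (g q)
    have h1 : Cc b a ⊆ side a b := by
      refine subset_side isPreconnected_Cc ?_ self_mem_Cc
      intro h
      exact h (mem_side hab.1)
    have h2 : f q ∈ side a (f q') := subset_side hl.pre hcon ⟨q', hgq, rfl⟩ ⟨q, rfl, rfl⟩
    exact hq (mem_side_trans h2 (h1 hq'))
  rw [Set.disjoint_left]
  rintro _ ⟨q, hq, rfl⟩ ⟨q', hq', e⟩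
  have h1 := key z z' hz q q' e hq hq'
  have h2 := key z' z hz.symm q' q e.symm hq' hq
  rw [e] at h2
  exact hz.1 ((fg.line₂ (g q)).sep z h1 z' h2 hz.2)

/-- PROOF. `g p ≠ g p'` by `disjoint_images` (`self_mem_Cc`). `exists_common` (with `univ`) gives `r, r'`
on a fibre of `f`, so `g p`, `g p'` are on the line `g '' (f ⁻¹' {f r})`: `trichotomy`. -/
theorem up_or_up (fg : Bi f g) (hz : NS z z') {p p' : ℝ × ℝ} (hp : f p = z) (hp' : f p' = z') :
    g p' ∈ oY.up (g p) ∨ g p ∈ oY.up (g p') := by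
  obtain ⟨r, -, r', -, e1, e2, e3⟩ := exists_common fg hz hp hp' univ_mem univ_mem
  have hl := fg.line₁ (f r)
  have m1 : g p ∈ g '' (f ⁻¹' {f r}) := ⟨r, rfl, e2⟩
  have m2 : g p' ∈ g '' (f ⁻¹' {f r}) := ⟨r', e1.symm, e3⟩
  rcases trichotomy oY hl m1 m2 with h1 | h1 | h1
  · exfalso
    refine Set.disjoint_left.1 (disjoint_images fg hz) ⟨p, ?_, rfl⟩ ⟨p', ?_, h1⟩
    · rw [mem_preimage, hp]
      exact self_mem_Cc
    · rw [mem_preimage, hp']
      exact self_mem_Cc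
  · exact Or.inl h1
  · exact Or.inr h1

/-- PROOF. Suppose `h q = h q'`, `g q ∉ oY.up a`, `f q' ∈ Cc z' z`. `g q' ∈ oY.up a` by `ha`. The line
`g '' (h ⁻¹' {h q})` contains `g q` and `g q'`, so it contains `a` (`g q = a`, or `g q ∈ oY.dn a` and
`between`): there is `m` with `h m = h q`, `g m = a`. `h q' = h m`, `g q' ∈ oY.up (g m)`; so on the fibre
of `h` through `m` and `q'`: `f m ∈ oX.up (f q')` (`w.dZ` says `f` up implies `g` down; use
`Web.dX'`/`dX_dn` for rotations of `w`, and `Bi.up_iff`).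
`Cc z' z = (oX.dn z')ᶜ` (`Cc_of_dn`; `z ∈ oX.dn z'` because otherwise `z ∈ oX.up z'` and `ns_up_iff` would give
`z' ∈ oX.up z`). So `f q' ∉ oX.dn z'` and `up_of_notMem_dn` (line `f '' (h ⁻¹' {h q})`) gives
`f m ∈ oX.up z'`, so `f m ∈ Cc z' z`, so `a = g m ∈ oY.up a` by `ha`: contradiction
(`Orientation.self_up`). -/
theorem cusp_disjoint (w : Web oX oY oZ f g h) (hz : NS z z') (hdn : z' ∈ oX.dn z) {a : Y}
    (ha : g '' (f ⁻¹' Cc z' z) ⊆ oY.up a) :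
    Disjoint (h '' (g ⁻¹' (oY.up a)ᶜ)) (h '' (f ⁻¹' Cc z' z)) := by
  rw [Set.disjoint_left]
  rintro _ ⟨q, hq, rfl⟩ ⟨q', hq', e⟩
  have hga : g q' ∈ oY.up a := ha ⟨q', hq', rfl⟩
  -- the fibre of `h`
  have hl := w.gh.line₂ (h q)
  have m1 : g q ∈ g '' (h ⁻¹' {h q}) := ⟨q, rfl, rfl⟩
  have m2 : g q' ∈ g '' (h ⁻¹' {h q}) := ⟨q', e, rfl⟩
  have m3 : a ∈ g '' (h ⁻¹' {h q}) := by
    by_cases h1 : g q = a
    · rw [← h1]
      exact m1
    · exact between oY hl.pre m1 m2 ((oY.up_or_dn h1).resolve_left hq) hga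
  obtain ⟨m, hm, hma⟩ := m3
  have hm' : h m = h q' := hm.trans e.symm
  have h1 : f q' ∈ oX.dn (f m) := by
    have := w.rot.rot.dX' (p := m) (q := q') hm' (by rw [hma]; exact hga)
    exact this
  have hl2 := w.hf.line₁ (h q)
  have n1 : f q' ∈ f '' (h ⁻¹' {h q}) := ⟨q', e, rfl⟩
  have n2 : f m ∈ f '' (h ⁻¹' {h q}) := ⟨m, hm, rfl⟩
  have h2 : f m ∈ oX.up (f q') := (up_iff_dn oX hl2 n1 n2).2 h1
  have hdn' : z ∈ oX.dn z' := by
    refine (oX.up_or_dn hz.1).resolve_left fun h3 => ?_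
    exact notMem_up_of_dn oX hdn ((ns_up_iff oX hz).2 h3)
  have hq2 : f q' ∉ oX.dn z' := by
    have h3 : f q' ∈ Cc z' z := hq'
    rw [Cc_of_dn oX hdn'] at h3
    exact h3
  have h4 : f m ∈ oX.up z' := up_of_notMem_dn oX hl2 n1 n2 h2 hq2
  have h5 : g m ∈ oY.up a := by
    refine ha ⟨m, ?_, rfl⟩
    rw [mem_preimage, Cc_of_dn oX hdn']
    exact fun h6 => notMem_up_of_dn oX h6 h4
  rw [hma] at h5
  exact oY.self_up a h5

end Pool.Agent.LST
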