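import Pool.Agent.LST.Ord

/-!
# LST module SepPt (size 2)

Two disjoint open connected sets are separated by a point.
-/

open Set Topology Filter

namespace Pool.Agent.LST

open Pool.Agent.H86.Bifol Pool.Agent.LSP

variable {Y : Type*} [TopologicalSpace Y] [SCM Y]

/-- PROOF. See the end of the proof of `exists_cut` in LSP/NecA: `exit` (H86/Side.lean) with
`A := univ`, `W := U`, `g := v`, `y := u` gives `c ∈ closure U`, `c ∉ U`, `c = v ∨ u ∉ side c v`. `c ∉ V` because
`V` is open and disjoint from `U`, so `c ≠ v`. Then `subset_side`, `disjoint_side`. -/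
theorem exists_sep {U V : Set Y} (oU : IsOpen U) (pU : IsPreconnected U) (oV : IsOpen V)
    (pV : IsPreconnected V) (hd : Disjoint U V) {u v : Y} (hu : u ∈ U) (hv : v ∈ V) :
    ∃ c, U ⊆ side c u ∧ V ⊆ side c v ∧ Disjoint (side c u) (side c v) := by
  have hvU : v ∉ U := fun h => Set.disjoint_left.1 hd h hv
  obtain ⟨c, -, hcl, hcU, hor⟩ := exit (A := univ) (W := U) isPreconnected_univ isOpen_univ
    pU oU (subset_univ _) (mem_univ v) hvU hu
  have hcV : c ∉ V := by
    intro hh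
    obtain ⟨x, hx, hx'⟩ := mem_closure_iff.1 hcl V oV hh
    exact Set.disjoint_left.1 hd hx' hx
  have hsep : u ∉ side c v := by
    rcases hor with h | h
    · exact absurd (h ▸ hv) hcV
    · exact h
  exact ⟨c, subset_side pU hcU hu, subset_side pV hcV hv, disjoint_side hsep⟩

/-- PROOF. `c` from `exists_sep`. `c ∈ ℓ`, otherwise `ℓ ⊆ side c u` (`subset_side`), so
`v ∈ side c u ∩ side c v`. `u ≠ c`, `v ≠ c` (`self_notMem_side`). If `u ∈ o.up c` then
`side c u = o.up c` (`up_eq_side`), so `v ∉ o.up c`, `v ∈ o.dn c`, and on `ℓ`: `v < c < u < v`,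
contradiction (`up_iff_dn`, `up_trans`, `up_asymm`). So `u ∈ o.dn c`, `side c u = o.dn c`
(`dn_eq_side`), `v ∉ o.dn c`, so `v ∈ o.up c`, `side c v = o.up c`. -/
theorem exists_sep_up (o : Orientation Y) {U V ℓ : Set Y} (oU : IsOpen U) (pU : IsPreconnected U)
    (oV : IsOpen V) (pV : IsPreconnected V) (hd : Disjoint U V) {u v : Y} (hu : u ∈ U)
    (hv : v ∈ V) (hℓ : IsLine ℓ) (huℓ : u ∈ ℓ) (hvℓ : v ∈ ℓ) (huv : v ∈ o.up u) :
    ∃ c, U ⊆ o.dn c ∧ V ⊆ o.up c := by
  obtain ⟨c, hU, hV, hdis⟩ := exists_sep oU pU oV pV hd hu hv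
  have hcu : u ≠ c := ne_of_mem_side (hU hu)
  have hcv : v ≠ c := ne_of_mem_side (hV hv)
  have hvu : v ∉ side c u := fun h => Set.disjoint_left.1 hdis h (hV hv)
  have hcℓ : c ∈ ℓ := by
    by_contra hc
    exact hvu (subset_side hℓ.pre hc huℓ hvℓ)
  rcases o.up_or_dn hcu with h | h
  · exfalso
    have h1 : side c u = o.up c := (o.up_eq_side h).symm
    have h2 : v ∈ o.dn c := (o.up_or_dn hcv).resolve_left (fun h' => hvu (h1 ▸ h'))
    have h3 : c ∈ o.up v := (up_iff_dn o hℓ hvℓ hcℓ).2 h2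
    have h4 : u ∈ o.up v := up_trans o hℓ hvℓ hcℓ huℓ h3 h
    exact up_asymm o hℓ huℓ hvℓ huv h4
  · have h1 : side c u = o.dn c := (o.dn_eq_side h).symm
    have h2 : v ∈ o.up c := (o.up_or_dn hcv).resolve_right (fun h' => hvu (h1 ▸ h'))
    have h3 : side c v = o.up c := (o.up_eq_side h2).symm
    exact ⟨c, h1 ▸ hU, h3 ▸ hV⟩

end Pool.Agent.LST
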