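import Pool.Agent.LST.CuspA
import Pool.Agent.LST.SepPt

/-!
# LST module CuspB (size 4)

Cut points for two non-separated points of `X`.
-/

open Set Topology Filter

namespace Pool.Agent.LST

open Pool.Agent.H86.Bifol Pool.Agent.LSP

variable {X Y Z : Type*} [TopologicalSpace X] [TopologicalSpace Y] [TopologicalSpace Z] [SCM X]
  [SCM Y] [SCM Z] {oX : Orientation X} {oY : Orientation Y} {oZ : Orientation Z}
  {f : ℝ × ℝ → X} {g : ℝ × ℝ → Y} {h : ℝ × ℝ → Z} {z z' : X}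

/-- PROOF. (1) `U := g '' (f ⁻¹' Cc z z')`, `V := g '' (f ⁻¹' Cc z' z)` are open, connected
(`Bi.isOpen_image`, `Bi.isPreconnected_image`, `isPreconnected_Cc`) and disjoint (`disjoint_images`),
`g p ∈ U`, `g p' ∈ V`. `exists_common` (with `univ`) gives `r, r'` on a fibre of `f` with `g r = g p`,
`g r' = g p'`, so both are on the line `g '' (f ⁻¹' {f r})`. `exists_sep_up` gives `a` with `U ⊆ oY.dn a`,
`V ⊆ oY.up a`.
(2) `U' := h '' (g ⁻¹' (oY.up a)ᶜ)`, `V' := h '' (f ⁻¹' Cc z' z)` are open, connected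
(`Bi` of `g, h` resp. `f, h`; `(oY.up a)ᶜ` is connected: `isPreconnected_compl_side` after
`up_eq_side` with `g p' ∈ oY.up a`), disjoint by `cusp_disjoint`. `h p ∈ U'` (`g p ∈ oY.dn a`),
`h p' ∈ V'`.
(3) `exists_sep` gives `b` with `U' ⊆ side b (h p)`, `V' ⊆ side b (h p')`, disjoint sides. By
`exists_common` for `N := h ⁻¹' side b (h p)`, `N' := h ⁻¹' side b (h p')` (open, contain `p`, `p'`; `h p ≠ b`)
there are `r, r'` with `f r = f r'`, `g r = g p`, `g r' = g p'`, `h r ∈ side b (h p)`, `h r' ∈ side b (h p')`.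
`g r' ∈ oY.up (g r)`, so `h r' ∈ oZ.dn (h r)` (`w.dX`), `h r ∈ oZ.up (h r')` (`up_iff`). On the line
`ℓ := h '' (f ⁻¹' {f r})`: `b ∈ ℓ` (otherwise `ℓ ⊆ side b (h r)`, but the sides are disjoint). As in
`exists_sep_up`: `h r' ∈ oZ.dn b`, `h r ∈ oZ.up b`, so `side b (h p) = side b (h r) = oZ.up b`
(`side_eq`, `up_eq_side`) and `side b (h p') = oZ.dn b`. (Or apply `exists_sep_up` directly to
`V'`, `U'` with the points `h r' ∈ V'`?, not available: `f r'` is not in `Cc z' z`. Use `exists_sep`.)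
(4) Conclusion: `f q ∈ Cc z z'`: `g q ∈ U ⊆ oY.dn a`, so `h q ∈ U' ⊆ oZ.up b`. `f q ∈ Cc z' z`:
`g q ∈ V ⊆ oY.up a`, `h q ∈ V' ⊆ oZ.dn b`. Any `q`: if `g q ∉ oY.up a` then `h q ∈ U' ⊆ oZ.up b`. -/
theorem pos_cusp (w : Web oX oY oZ f g h) (hz : NS z z') (hdn : z' ∈ oX.dn z)
    {p p' : ℝ × ℝ} (hp : f p = z) (hp' : f p' = z') (hg : g p' ∈ oY.up (g p)) :
    ∃ a b, (∀ q, f q ∈ Cc z z' → g q ∈ oY.dn a ∧ h q ∈ oZ.up b) ∧
      (∀ q, f q ∈ Cc z' z → g q ∈ oY.up a ∧ h q ∈ oZ.dn b) ∧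
      ∀ q, g q ∈ oY.up a ∨ h q ∈ oZ.up b := by
  have mz : f p ∈ Cc z z' := by rw [hp]; exact self_mem_Cc
  have mz' : f p' ∈ Cc z' z := by rw [hp']; exact self_mem_Cc
  obtain ⟨a, hUa, hVa⟩ : ∃ a, g '' (f ⁻¹' Cc z z') ⊆ oY.dn a ∧ g '' (f ⁻¹' Cc z' z) ⊆ oY.up a := by
    obtain ⟨r, -, r', -, e1, e2, e3⟩ := exists_common w.fg hz hp hp' univ_mem univ_mem
    exact exists_sep_up oY (w.fg.isOpen_image _) (w.fg.isPreconnected_image isPreconnected_Cc)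
      (w.fg.isOpen_image _) (w.fg.isPreconnected_image isPreconnected_Cc) (disjoint_images w.fg hz)
      ⟨p, mz, rfl⟩ ⟨p', mz', rfl⟩ (w.fg.line₁ (f r)) ⟨r, rfl, e2⟩ ⟨r', e1.symm, e3⟩ hg
  have hpa : g p ∉ oY.up a := notMem_up_of_dn oY (hUa ⟨p, mz, rfl⟩)
  have hp'a : g p' ∈ oY.up a := hVa ⟨p', mz', rfl⟩
  have hpre : IsPreconnected (oY.up a)ᶜ := by
    rw [oY.up_eq_side hp'a]
    exact isPreconnected_compl_side
  obtain ⟨b, hb1, hb2, hbd⟩ := exists_sep (w.gh.isOpen_image (oY.up a)ᶜ)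
    (w.gh.isPreconnected_image hpre) (w.hf.swap.isOpen_image (Cc z' z))
    (w.hf.swap.isPreconnected_image isPreconnected_Cc) (cusp_disjoint w hz hdn hVa)
    ⟨p, hpa, rfl⟩ ⟨p', mz', rfl⟩
  have mp : h p ∈ side b (h p) := hb1 ⟨p, hpa, rfl⟩
  have mp' : h p' ∈ side b (h p') := hb2 ⟨p', mz', rfl⟩
  obtain ⟨r, hr, r', hr', e1, e2, e3⟩ := exists_common w.fg hz hp hp'
    ((isOpen_side.preimage w.gh.cont₂).mem_nhds mp) ((isOpen_side.preimage w.gh.cont₂).mem_nhds mp')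
  have hr1 : h r ∈ side b (h p) := hr
  have hr2 : h r' ∈ side b (h p') := hr'
  have hd1 : h r' ∈ oZ.dn (h r) := w.dX r r' e1 (by rw [e2, e3]; exact hg)
  have hl := w.hf.line₂ (f r)
  have n1 : h r ∈ h '' (f ⁻¹' {f r}) := ⟨r, rfl, rfl⟩
  have n2 : h r' ∈ h '' (f ⁻¹' {f r}) := ⟨r', e1.symm, rfl⟩
  have hu1 : h r ∈ oZ.up (h r') := (up_iff_dn oZ hl n2 n1).2 hd1
  have s1 : side b (h p) = side b (h r) := side_eq hr1
  have s2 : side b (h p') = side b (h r') := side_eq hr2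
  have hno : h r' ∉ side b (h r) := by
    intro hc
    rw [← s1] at hc
    exact Set.disjoint_left.1 hbd hc hr2
  have hrb : h r ∈ oZ.up b := by
    refine (oZ.up_or_dn (ne_of_mem_side hr1)).resolve_right fun hc => ?_
    have h1 : h r' ∈ oZ.dn b := dn_of_notMem_up oZ hl n2 n1 hu1 (notMem_up_of_dn oZ hc)
    rw [oZ.dn_eq_side hc] at h1
    exact hno h1
  have u1 : side b (h p) = oZ.up b := by rw [s1, oZ.up_eq_side hrb]
  have hr'b : h r' ∈ oZ.dn b := by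
    refine (oZ.up_or_dn (ne_of_mem_side hr2)).resolve_left fun hc => ?_
    rw [oZ.up_eq_side hrb] at hc
    exact hno hc
  have u2 : side b (h p') = oZ.dn b := by rw [s2, oZ.dn_eq_side hr'b]
  rw [u1] at hb1
  rw [u2] at hb2
  refine ⟨a, b, fun q hq => ?_, fun q hq => ?_, fun q => ?_⟩
  · have h1 : g q ∈ oY.dn a := hUa ⟨q, hq, rfl⟩
    exact ⟨h1, hb1 ⟨q, notMem_up_of_dn oY h1, rfl⟩⟩
  · exact ⟨hVa ⟨q, hq, rfl⟩, hb2 ⟨q, hq, rfl⟩⟩
  · by_cases h1 : g q ∈ oY.up a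
    · exact Or.inl h1
    · exact Or.inr (hb1 ⟨q, h1, rfl⟩)

/-- PROOF. `pos_cusp` for `w.op`, the pair `(z', z)` (`hz.symm`; `z ∈ (op oX).dn z' = oX.up z'` by
`ns_up_iff`), the points `p', p`; `g p ∈ (op oY).up (g p') = oY.dn (g p')`: both `g p`, `g p'` are on a
line (`exists_common`), `up_iff_dn`. -/
theorem neg_cusp (w : Web oX oY oZ f g h) (hz : NS z z') (hup : z' ∈ oX.up z)
    {p p' : ℝ × ℝ} (hp : f p = z) (hp' : f p' = z') (hg : g p' ∈ oY.up (g p)) :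
    ∃ a b, (∀ q, f q ∈ Cc z z' → g q ∈ oY.dn a ∧ h q ∈ oZ.up b) ∧
      (∀ q, f q ∈ Cc z' z → g q ∈ oY.up a ∧ h q ∈ oZ.dn b) ∧
      ∀ q, g q ∈ oY.dn a ∨ h q ∈ oZ.dn b := by
  obtain ⟨r, -, r', -, e1, e2, e3⟩ := exists_common w.fg hz hp hp' univ_mem univ_mem
  have hl := w.fg.line₁ (f r)
  have m1 : g p ∈ g '' (f ⁻¹' {f r}) := ⟨r, rfl, e2⟩
  have m2 : g p' ∈ g '' (f ⁻¹' {f r}) := ⟨r', e1.symm, e3⟩
  have hg' : g p ∈ oY.dn (g p') := (up_iff_dn oY hl m1 m2).1 hg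
  obtain ⟨a, b, h1, h2, h3⟩ := pos_cusp w.op hz.symm
    (by rw [op_dn]; exact (ns_up_iff oX hz).1 hup) hp' hp (by rw [op_up]; exact hg')
  simp only [op_up, op_dn] at h1 h2 h3
  exact ⟨a, b, h2, h1, h3⟩

end Pool.Agent.LST
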