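import Pool.Agent.LSP.Adm
import Pool.Agent.H86.Triple

/-!
# Triples of leaf spaces: definitions (squad LST, MP_a3f59c_gt, Q2)

`X`, `Y`, `Z` are simply connected 1-manifolds. Everything is cyclic in `(X, Y, Z)`: `A ⊆ X × Y`,
`B ⊆ Y × Z`, `C ⊆ Z × X`, and every notion has a rotation lemma `rot`, so that it is enough to prove
statements for one of the three positions.

Local model: the plane is a surface in `X × Y × Z` which looks locally like `x + y + z = 0`: on each
leaf of one of the three foliations the two other coordinates are related by a decreasing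
homeomorphism.
-/

open Set Topology Filter

namespace Pool.Agent.LST

open Pool.Agent.H86.Bifol Pool.Agent.LSP

variable {X Y Z : Type*} [TopologicalSpace X] [TopologicalSpace Y] [TopologicalSpace Z]

/-! ### Triangles of sets with line slices -/

/-- Every point of `X`, of `Y` and of `Z` is a coordinate of a point `(x, y, z)` with
`(x, y) ∈ A`, `(y, z) ∈ B`, `(z, x) ∈ C`. -/
structure Onto (A : Set (X × Y)) (B : Set (Y × Z)) (C : Set (Z × X)) : Prop where
  eX : ∀ x, ∃ y z, (x, y) ∈ A ∧ (y, z) ∈ B ∧ (z, x) ∈ C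
  eY : ∀ y, ∃ z x, (y, z) ∈ B ∧ (z, x) ∈ C ∧ (x, y) ∈ A
  eZ : ∀ z, ∃ x y, (z, x) ∈ C ∧ (x, y) ∈ A ∧ (y, z) ∈ B

/-- The corner condition for `B` in the rectangle `I × J`: if `(y, z)` and `(y', z')` are in `B`,
`y < y'` and `z < z'`, then the two other corners of the rectangle are in `B`. -/
def Corner (oY : Orientation Y) (oZ : Orientation Z) (I : Set Y) (J : Set Z) (B : Set (Y × Z)) :
    Prop :=
  ∀ y ∈ I, ∀ y' ∈ I, ∀ z ∈ J, ∀ z' ∈ J, y' ∈ oY.up y → z' ∈ oZ.up z → (y, z) ∈ B →
    (y', z') ∈ B → (y, z') ∈ B ∧ (y', z) ∈ B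

/-- Three open sets with line slices which satisfy the corner conditions. -/
structure Conv (oX : Orientation X) (oY : Orientation Y) (oZ : Orientation Z) (A : Set (X × Y))
    (B : Set (Y × Z)) (C : Set (Z × X)) : Prop where
  sA : Slices A
  sB : Slices B
  sC : Slices C
  cX : ∀ x, Corner oY oZ {y | (x, y) ∈ A} {z | (z, x) ∈ C} B
  cY : ∀ y, Corner oZ oX {z | (y, z) ∈ B} {x | (x, y) ∈ A} C
  cZ : ∀ z, Corner oX oY {x | (z, x) ∈ C} {y | (y, z) ∈ B} A

/-- A triangle: three open sets with line slices which satisfy the corner conditions, such that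
every point of `X`, `Y`, `Z` is a coordinate of a point with all its pairs in the three sets. -/
structure Tri (oX : Orientation X) (oY : Orientation Y) (oZ : Orientation Z) (A : Set (X × Y))
    (B : Set (Y × Z)) (C : Set (Z × X)) : Prop extends Conv oX oY oZ A B C, Onto A B C

/-- Every element of `A`, `B`, `C` is completed by a third coordinate. -/
structure Full (A : Set (X × Y)) (B : Set (Y × Z)) (C : Set (Z × X)) : Prop where
  fA : ∀ x y, (x, y) ∈ A → ∃ z, (y, z) ∈ B ∧ (z, x) ∈ C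
  fB : ∀ y z, (y, z) ∈ B → ∃ x, (z, x) ∈ C ∧ (x, y) ∈ A
  fC : ∀ z x, (z, x) ∈ C → ∃ y, (x, y) ∈ A ∧ (y, z) ∈ B

section rot

variable {oX : Orientation X} {oY : Orientation Y} {oZ : Orientation Z} {A : Set (X × Y)}
  {B : Set (Y × Z)} {C : Set (Z × X)}

omit [TopologicalSpace X] [TopologicalSpace Y] [TopologicalSpace Z] in
theorem Onto.rot (h : Onto A B C) : Onto B C A := ⟨h.eY, h.eZ, h.eX⟩

omit [TopologicalSpace X] [TopologicalSpace Y] [TopologicalSpace Z] in
theorem Full.rot (h : Full A B C) : Full B C A := ⟨h.fB, h.fC, h.fA⟩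

theorem Conv.rot (h : Conv oX oY oZ A B C) : Conv oY oZ oX B C A :=
  ⟨h.sB, h.sC, h.sA, h.cY, h.cZ, h.cX⟩

theorem Tri.rot (h : Tri oX oY oZ A B C) : Tri oY oZ oX B C A :=
  ⟨h.toConv.rot, h.toOnto.rot⟩

end rot

/-! ### Maps of the plane -/

/-- The two maps give a homeomorphism from the plane onto a set with line slices. -/
def Bi (f : ℝ × ℝ → X) (g : ℝ × ℝ → Y) : Prop :=
  ∃ Ω : Set (X × Y), Slices Ω ∧ ∃ Ψ : ℝ × ℝ ≃ₜ Ω, ∀ q, (Ψ q).1 = (f q, g q)

/-- Three maps of the plane, pairwise `Bi`, and decreasing: on a fibre of one of them the two others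
are related by an order reversing map. -/
structure Web (oX : Orientation X) (oY : Orientation Y) (oZ : Orientation Z) (f : ℝ × ℝ → X)
    (g : ℝ × ℝ → Y) (h : ℝ × ℝ → Z) : Prop where
  fg : Bi f g
  gh : Bi g h
  hf : Bi h f
  dX : ∀ p q, f p = f q → g q ∈ oY.up (g p) → h q ∈ oZ.dn (h p)
  dY : ∀ p q, g p = g q → h q ∈ oZ.up (h p) → f q ∈ oX.dn (f p)
  dZ : ∀ p q, h p = h q → f q ∈ oX.up (f p) → g q ∈ oY.dn (g p)

theorem Web.rot {oX : Orientation X} {oY : Orientation Y} {oZ : Orientation Z} {f : ℝ × ℝ → X}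
    {g : ℝ × ℝ → Y} {h : ℝ × ℝ → Z} (w : Web oX oY oZ f g h) : Web oY oZ oX g h f :=
  ⟨w.gh, w.hf, w.fg, w.dY, w.dZ, w.dX⟩

/-! ### Cut systems -/

/-- Cut data of `X` with respect to `Y` and `Z`: for the ordered pairs `(u, u')` of distinct
non-separated points of `X` which are *positive* a point `a u u'` of `Y` and a point `b u u'` of `Z`
(the values for other pairs do not matter). -/
structure CutData (X Y Z : Type*) where
  /-- the positive pairs -/
  pos : X → X → Prop
  /-- the cut points in `Y` -/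
  a : X → X → Y
  /-- the cut points in `Z` -/
  b : X → X → Z

/-- At least one of the two orders of every pair of distinct non-separated points is positive. -/
def CutData.Total (D : CutData X Y Z) : Prop := ∀ u u', NS u u' → D.pos u u' ∨ D.pos u' u

/-- The conditions on `(x, y)`: if `x` is in `Cc u u'` then `y` is below the cut point of `(u, u')`, if
`x` is in `Cc u' u` then `y` is above it. A pair `(K, L)` stands for the condition `x ∈ K ∨ y ∈ L`. -/
def CutData.toY (oY : Orientation Y) (D : CutData X Y Z) : Set (Set X × Set Y) :=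
  {q | ∃ u u', NS u u' ∧ D.pos u u' ∧
    (q = (side u u', oY.dn (D.a u u')) ∨ q = (side u' u, oY.up (D.a u u')))}

/-- The conditions on `(z, x)`: if `x` is in `Cc u u'` then `z` is above the cut point, if `x` is in
`Cc u' u` then `z` is below it. -/
def CutData.toZ (oZ : Orientation Z) (D : CutData X Y Z) : Set (Set Z × Set X) :=
  {q | ∃ u u', NS u u' ∧ D.pos u u' ∧
    (q = (oZ.up (D.b u u'), side u u') ∨ q = (oZ.dn (D.b u u'), side u' u))}

/-- The conditions on `(y, z)`: if `u, u'` have common points below them, then `y` is above its cut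
point or `z` is above its cut point; if `u, u'` have common points above them, then one of the two
is below its cut point. -/
def CutData.cross (oX : Orientation X) (oY : Orientation Y) (oZ : Orientation Z)
    (D : CutData X Y Z) : Set (Set Y × Set Z) :=
  {q | ∃ u u', NS u u' ∧ D.pos u u' ∧
    ((u' ∈ oX.dn u ∧ q = (oY.up (D.a u u'), oZ.up (D.b u u'))) ∨
      (u' ∈ oX.up u ∧ q = (oY.dn (D.a u u'), oZ.dn (D.b u u'))))}

/-- All conditions on `(x, y)`. -/
def conds (oX : Orientation X) (oY : Orientation Y) (oZ : Orientation Z) (D₁ : CutData X Y Z)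
    (D₂ : CutData Y Z X) (D₃ : CutData Z X Y) : Set (Set X × Set Y) :=
  D₁.toY oY ∪ D₂.toZ oX ∪ D₃.cross oZ oX oY

/-- The set of the pairs which satisfy all conditions. -/
def Sat (O : Set (Set X × Set Y)) : Set (X × Y) := {p | ∀ q ∈ O, p.1 ∈ q.1 ∨ p.2 ∈ q.2}

/-- Compatibility of two conditions on `(x, y)`. -/
def Compat₂ (O : Set (Set X × Set Y)) : Prop :=
  ∀ q ∈ O, ∀ r ∈ O, (q.1 ∪ r.1 ≠ univ → (q.2 ∩ r.2).Nonempty) ∧
    (q.2 ∪ r.2 ≠ univ → (q.1 ∩ r.1).Nonempty)

/-- Compatibility of three conditions, one on `(x, y)`, one on `(y, z)` and one on `(z, x)`. -/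
def Compat₃ (O₁ : Set (Set X × Set Y)) (O₂ : Set (Set Y × Set Z)) (O₃ : Set (Set Z × Set X)) :
    Prop :=
  ∀ q ∈ O₁, ∀ r ∈ O₂, ∀ s ∈ O₃, (q.1 ∪ s.2 ≠ univ → (q.2 ∩ r.1).Nonempty ∨ (s.1 ∩ r.2).Nonempty)

/-- All compatibility conditions. -/
structure CompatAll (O₁ : Set (Set X × Set Y)) (O₂ : Set (Set Y × Set Z))
    (O₃ : Set (Set Z × Set X)) : Prop where
  p₁ : Compat₂ O₁
  p₂ : Compat₂ O₂
  p₃ : Compat₂ O₃
  t₁ : Compat₃ O₁ O₂ O₃
  t₂ : Compat₃ O₂ O₃ O₁
  t₃ : Compat₃ O₃ O₁ O₂

/-- A cut system for the triple all of whose conditions can be satisfied around every point. -/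
def HasCuts (X Y Z : Type*) [TopologicalSpace X] [TopologicalSpace Y] [TopologicalSpace Z] :
    Prop :=
  ∃ (oX : Orientation X) (oY : Orientation Y) (oZ : Orientation Z) (D₁ : CutData X Y Z)
    (D₂ : CutData Y Z X) (D₃ : CutData Z X Y), D₁.Total ∧ D₂.Total ∧ D₃.Total ∧
    Onto (interior (Sat (conds oX oY oZ D₁ D₂ D₃))) (interior (Sat (conds oY oZ oX D₂ D₃ D₁)))
      (interior (Sat (conds oZ oX oY D₃ D₁ D₂)))

/-- A cut system for the triple with compatible conditions. -/
def HasCompatCuts (X Y Z : Type*) [TopologicalSpace X] [TopologicalSpace Y] [TopologicalSpace Z] :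
    Prop :=
  ∃ (oX : Orientation X) (oY : Orientation Y) (oZ : Orientation Z) (D₁ : CutData X Y Z)
    (D₂ : CutData Y Z X) (D₃ : CutData Z X Y), D₁.Total ∧ D₂.Total ∧ D₃.Total ∧
    CompatAll (conds oX oY oZ D₁ D₂ D₃) (conds oY oZ oX D₂ D₃ D₁) (conds oZ oX oY D₃ D₁ D₂)

end Pool.Agent.LST
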