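import Pool.Agent.LST.Ord

/-!
# LST module FinA (size 3)

Finite type: there are only finitely many conditions and `Sat O` is open.
-/

open Set Topology Filter

namespace Pool.Agent.LST

open Pool.Agent.H86.Bifol Pool.Agent.LSP

section
variable {X Y : Type*} [TopologicalSpace X] [TopologicalSpace Y] [SCM X] [SCM Y]

/-- PROOF. The complement is the finite union of the closed sets `q.1ᶜ ×ˢ q.2ᶜ` (`isOpen_of_halfSpace`);
see `isOpen_Om` in LSP/Fin. -/
theorem isOpen_Sat {O : Set (Set X × Set Y)} (hf : O.Finite)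
    (hO : ∀ q ∈ O, IsHalfSpace q.1 ∧ IsHalfSpace q.2) : IsOpen (Sat O) := by
  have h1 : IsClosed (⋃ q ∈ O, (q.1)ᶜ ×ˢ (q.2)ᶜ) := by
    refine hf.isClosed_biUnion fun q hq => ?_
    exact (isOpen_of_halfSpace (hO q hq).1).isClosed_compl.prod
      (isOpen_of_halfSpace (hO q hq).2).isClosed_compl
  have he : Sat O = (⋃ q ∈ O, (q.1)ᶜ ×ˢ (q.2)ᶜ)ᶜ := by
    ext ⟨x, y⟩
    constructor
    · intro h hc
      obtain ⟨q, hq, hc⟩ := mem_iUnion₂.1 hc
      rcases h q hq with h' | h'
      · exact hc.1 h'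
      · exact hc.2 h'
    · intro hc q hq
      by_contra hn
      rw [not_or] at hn
      exact hc (mem_iUnion₂.2 ⟨q, hq, hn.1, hn.2⟩)
  rw [he]
  exact h1.isOpen_compl

end

variable {X Y Z : Type*} [TopologicalSpace X] [TopologicalSpace Y] [TopologicalSpace Z]

/-- PROOF. Image of the finite set of pairs under finitely many maps (`Set.Finite.subset` of the union
of two images). -/
theorem finite_toY (hX : FinType X) (oY : Orientation Y) (D : CutData X Y Z) :
    (D.toY oY).Finite := by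
  have hX' : {p : X × X | NS p.1 p.2}.Finite := hX
  refine ((hX'.image fun p => (side p.1 p.2, oY.dn (D.a p.1 p.2))).union
    (hX'.image fun p => (side p.2 p.1, oY.up (D.a p.1 p.2)))).subset ?_
  rintro q ⟨u, u', hu, -, h | h⟩
  · exact Or.inl ⟨(u, u'), hu, h.symm⟩
  · exact Or.inr ⟨(u, u'), hu, h.symm⟩

theorem finite_toZ (hX : FinType X) (oZ : Orientation Z) (D : CutData X Y Z) :
    (D.toZ oZ).Finite := by
  have hX' : {p : X × X | NS p.1 p.2}.Finite := hX
  refine ((hX'.image fun p => (oZ.up (D.b p.1 p.2), side p.1 p.2)).union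
    (hX'.image fun p => (oZ.dn (D.b p.1 p.2), side p.2 p.1))).subset ?_
  rintro q ⟨u, u', hu, -, h | h⟩
  · exact Or.inl ⟨(u, u'), hu, h.symm⟩
  · exact Or.inr ⟨(u, u'), hu, h.symm⟩

theorem finite_cross (hX : FinType X) (oX : Orientation X) (oY : Orientation Y)
    (oZ : Orientation Z) (D : CutData X Y Z) : (D.cross oX oY oZ).Finite := by
  have hX' : {p : X × X | NS p.1 p.2}.Finite := hX
  refine ((hX'.image fun p => (oY.up (D.a p.1 p.2), oZ.up (D.b p.1 p.2))).union
    (hX'.image fun p => (oY.dn (D.a p.1 p.2), oZ.dn (D.b p.1 p.2)))).subset ?_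
  rintro q ⟨u, u', hu, -, ⟨-, h⟩ | ⟨-, h⟩⟩
  · exact Or.inl ⟨(u, u'), hu, h.symm⟩
  · exact Or.inr ⟨(u, u'), hu, h.symm⟩

theorem finite_conds (hX : FinType X) (hY : FinType Y) (hZ : FinType Z) (oX : Orientation X)
    (oY : Orientation Y) (oZ : Orientation Z) (D₁ : CutData X Y Z) (D₂ : CutData Y Z X)
    (D₃ : CutData Z X Y) : (conds oX oY oZ D₁ D₂ D₃).Finite :=
  ((finite_toY hX oY D₁).union (finite_toZ hY oX D₂)).union (finite_cross hZ oZ oX oY D₃)

end Pool.Agent.LST
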