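import Pool.Agent.LST.Ord
import Pool.Agent.LSP.Helly

/-!
# LST module FinB (size 3)

Finitely many compatible conditions can be satisfied over every point.
-/

open Set Topology Filter

namespace Pool.Agent.LST

open Pool.Agent.H86.Bifol Pool.Agent.LSP

private theorem FinB_ne {W : Type*} {A B : Set W} {w : W} (h1 : w ∉ A) (h2 : w ∉ B) :
    A ∪ B ≠ univ := by
  intro hu
  rcases (hu ▸ mem_univ w : w ∈ A ∪ B) with h | h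
  · exact h1 h
  · exact h2 h

private theorem FinB_ex {W : Type*} {A B : Set W} (hu : A ∪ B ≠ univ) : ∃ w, w ∉ A ∧ w ∉ B := by
  obtain ⟨w, hw⟩ := (Set.ne_univ_iff_exists_notMem _).1 hu
  exact ⟨w, fun h' => hw (Or.inl h'), fun h' => hw (Or.inr h')⟩

section
variable {Y : Type*} [TopologicalSpace Y] [SCM Y]

/-- Helly for a finite set of half-spaces. PROOF. `helly` (LSP/Helly) for `S.toFinset` and the identity
family if `S` is nonempty, any point otherwise. -/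
theorem helly_set {S : Set (Set Y)} (hf : S.Finite) (hS : ∀ H ∈ S, IsHalfSpace H)
    (hm : ∀ H ∈ S, ∀ K ∈ S, (H ∩ K).Nonempty) : ∃ y, ∀ H ∈ S, y ∈ H := by
  rcases S.eq_empty_or_nonempty with hI | hI
  · obtain ⟨y⟩ : Nonempty Y := inferInstance
    exact ⟨y, fun i hi => by rw [hI] at hi; exact absurd hi (Set.notMem_empty i)⟩
  · obtain ⟨y, hy⟩ := helly hf.toFinset (hf.toFinset_nonempty.2 hI) (fun H => H)
      (fun H hH => isOpen_of_halfSpace (hS H (hf.mem_toFinset.1 hH)))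
      (fun H hH => isPreconnected_of_halfSpace (hS H (hf.mem_toFinset.1 hH)))
      (fun H hH K hK => hm H (hf.mem_toFinset.1 hH) K (hf.mem_toFinset.1 hK))
    exact ⟨y, fun H hH => hy H (hf.mem_toFinset.2 hH)⟩

end

variable {X Y Z : Type*} [TopologicalSpace X] [TopologicalSpace Y] [TopologicalSpace Z] [SCM X]
  [SCM Y] [SCM Z] {O₁ : Set (Set X × Set Y)} {O₂ : Set (Set Y × Set Z)} {O₃ : Set (Set Z × Set X)}

omit [TopologicalSpace X] [TopologicalSpace Y] [TopologicalSpace Z] [SCM X] [SCM Y] [SCM Z] in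
theorem CompatAll.rot (h : CompatAll O₁ O₂ O₃) : CompatAll O₂ O₃ O₁ :=
  ⟨h.p₂, h.p₃, h.p₁, h.t₂, h.t₃, h.t₁⟩

/-- PROOF. Fix `x`. `S := {q.2 | q ∈ O₁, x ∉ q.1} ∪ {r.1 | r ∈ O₂, ∃ s ∈ O₃, x ∉ s.2 ∧ s.1 ∩ r.2 = ∅}`, a finite
set of half-spaces of `Y` (images of subsets of `O₁`, `O₂`). They meet pairwise:
* `q.2, q'.2`: `x ∉ q.1 ∪ q'.1`, `h.p₁`;
* `q.2, r.1` (with `s`): `x ∉ q.1 ∪ s.2`, so `h.t₁` gives `q.2 ∩ r.1 ≠ ∅` or `s.1 ∩ r.2 ≠ ∅`;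
* `r.1, r'.1` (with `s`, `s'`): `x ∉ s.2 ∪ s'.2`, so `s.1 ∩ s'.1` contains a point `t` (`h.p₃`); `t ∉ r.2`,
  `t ∉ r'.2`, so `r.2 ∪ r'.2 ≠ univ` and `r.1 ∩ r'.1 ≠ ∅` (`h.p₂`).
`helly_set` gives `y`. Then `T := {s.1 | s ∈ O₃, x ∉ s.2} ∪ {r.2 | r ∈ O₂, y ∉ r.1}`: `s.1, s'.1` meet by
`h.p₃`; `r.2, r'.2` meet by `h.p₂` (`y ∉ r.1 ∪ r'.1`); `s.1, r.2` meet, because otherwise `r.1 ∈ S` and
`y ∈ r.1`. `helly_set` gives `z`. -/
theorem exists_of_compat (f₁ : O₁.Finite) (f₂ : O₂.Finite) (f₃ : O₃.Finite)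
    (h₁ : ∀ q ∈ O₁, IsHalfSpace q.1 ∧ IsHalfSpace q.2)
    (h₂ : ∀ q ∈ O₂, IsHalfSpace q.1 ∧ IsHalfSpace q.2)
    (h₃ : ∀ q ∈ O₃, IsHalfSpace q.1 ∧ IsHalfSpace q.2) (h : CompatAll O₁ O₂ O₃) (x : X) :
    ∃ y z, (x, y) ∈ Sat O₁ ∧ (y, z) ∈ Sat O₂ ∧ (z, x) ∈ Sat O₃ := by
  obtain ⟨y, hy⟩ : ∃ y, ∀ H ∈ ({H | ∃ q ∈ O₁, x ∉ q.1 ∧ H = q.2} ∪
      {H | ∃ r ∈ O₂, (∃ s ∈ O₃, x ∉ s.2 ∧ s.1 ∩ r.2 = ∅) ∧ H = r.1} : Set (Set Y)), y ∈ H := by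
    refine helly_set ?_ ?_ ?_
    · refine (f₁.image Prod.snd |>.union (f₂.image Prod.fst)).subset ?_
      rintro H (⟨q, hq, -, rfl⟩ | ⟨r, hr, -, rfl⟩)
      · exact Or.inl ⟨q, hq, rfl⟩
      · exact Or.inr ⟨r, hr, rfl⟩
    · rintro H (⟨q, hq, -, rfl⟩ | ⟨r, hr, -, rfl⟩)
      · exact (h₁ q hq).2
      · exact (h₂ r hr).1
    · have mixed : ∀ q ∈ O₁, x ∉ q.1 → ∀ r ∈ O₂, (∃ s ∈ O₃, x ∉ s.2 ∧ s.1 ∩ r.2 = ∅) →
          (q.2 ∩ r.1).Nonempty := by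
        rintro q hq hxq r hr ⟨s, hs, hxs, hsr⟩
        rcases h.t₁ q hq r hr s hs (FinB_ne hxq hxs) with h' | h'
        · exact h'
        · rw [hsr] at h'
          exact absurd h' Set.not_nonempty_empty
      rintro H (⟨q, hq, hxq, rfl⟩ | ⟨r, hr, hs, rfl⟩) K (⟨q', hq', hxq', rfl⟩ | ⟨r', hr', hs', rfl⟩)
      · exact (h.p₁ q hq q' hq').1 (FinB_ne hxq hxq')
      · exact mixed q hq hxq r' hr' hs'
      · rw [Set.inter_comm]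
        exact mixed q' hq' hxq' r hr hs
      · obtain ⟨s, hs, hxs, hsr⟩ := hs
        obtain ⟨s', hs', hxs', hsr'⟩ := hs'
        obtain ⟨t, ht, ht'⟩ := (h.p₃ s hs s' hs').2 (FinB_ne hxs hxs')
        refine (h.p₂ r hr r' hr').2 (FinB_ne (w := t) ?_ ?_)
        · intro h'
          exact (Set.eq_empty_iff_forall_notMem.1 hsr t) ⟨ht, h'⟩
        · intro h'
          exact (Set.eq_empty_iff_forall_notMem.1 hsr' t) ⟨ht', h'⟩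
  obtain ⟨z, hz⟩ : ∃ z, ∀ H ∈ ({H | ∃ s ∈ O₃, x ∉ s.2 ∧ H = s.1} ∪
      {H | ∃ r ∈ O₂, y ∉ r.1 ∧ H = r.2} : Set (Set Z)), z ∈ H := by
    refine helly_set ?_ ?_ ?_
    · refine (f₃.image Prod.fst |>.union (f₂.image Prod.snd)).subset ?_
      rintro H (⟨q, hq, -, rfl⟩ | ⟨r, hr, -, rfl⟩)
      · exact Or.inl ⟨q, hq, rfl⟩
      · exact Or.inr ⟨r, hr, rfl⟩
    · rintro H (⟨q, hq, -, rfl⟩ | ⟨r, hr, -, rfl⟩)
      · exact (h₃ q hq).1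
      · exact (h₂ r hr).2
    · have mixed : ∀ s ∈ O₃, x ∉ s.2 → ∀ r ∈ O₂, y ∉ r.1 → (s.1 ∩ r.2).Nonempty := by
        intro s hs hxs r hr hyr
        by_contra hcon
        rw [Set.not_nonempty_iff_eq_empty] at hcon
        exact hyr (hy _ (Or.inr ⟨r, hr, ⟨s, hs, hxs, hcon⟩, rfl⟩))
      rintro H (⟨s, hs, hxs, rfl⟩ | ⟨r, hr, hyr, rfl⟩) K (⟨s', hs', hxs', rfl⟩ | ⟨r', hr', hyr', rfl⟩)
      · exact (h.p₃ s hs s' hs').2 (FinB_ne hxs hxs')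
      · exact mixed s hs hxs r' hr' hyr'
      · rw [Set.inter_comm]
        exact mixed s' hs' hxs' r hr hyr
      · exact (h.p₂ r hr r' hr').1 (FinB_ne hyr hyr')
  refine ⟨y, z, ?_, ?_, ?_⟩
  · intro q hq
    by_cases hx : x ∈ q.1
    · exact Or.inl hx
    · exact Or.inr (hy _ (Or.inl ⟨q, hq, hx, rfl⟩))
  · intro r hr
    by_cases hyr : y ∈ r.1
    · exact Or.inl hyr
    · exact Or.inr (hz _ (Or.inr ⟨r, hr, hyr, rfl⟩))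
  · intro s hs
    by_cases hx : x ∈ s.2
    · exact Or.inr hx
    · exact Or.inl (hz _ (Or.inl ⟨s, hs, hx, rfl⟩))

/-- PROOF. `exists_of_compat` and its rotations. -/
theorem onto_of_compat (f₁ : O₁.Finite) (f₂ : O₂.Finite) (f₃ : O₃.Finite)
    (h₁ : ∀ q ∈ O₁, IsHalfSpace q.1 ∧ IsHalfSpace q.2)
    (h₂ : ∀ q ∈ O₂, IsHalfSpace q.1 ∧ IsHalfSpace q.2)
    (h₃ : ∀ q ∈ O₃, IsHalfSpace q.1 ∧ IsHalfSpace q.2) (h : CompatAll O₁ O₂ O₃) :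
    Onto (Sat O₁) (Sat O₂) (Sat O₃) := by
  refine ⟨fun x => exists_of_compat f₁ f₂ f₃ h₁ h₂ h₃ h x, fun y => ?_, fun z => ?_⟩
  · exact exists_of_compat f₂ f₃ f₁ h₂ h₃ h₁ h.rot y
  · exact exists_of_compat f₃ f₁ f₂ h₃ h₁ h₂ h.rot.rot z

omit [TopologicalSpace X] [TopologicalSpace Y] [TopologicalSpace Z] [SCM X] [SCM Y] [SCM Z] in
/-- PROOF. `p₁`: let `x ∉ q.1 ∪ r.1` and let `y, z` complete `x`: `y ∈ q.2 ∩ r.2`. If `y ∉ q.2 ∪ r.2`, complete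
`y`. `t₁`: let `x ∉ q.1 ∪ s.2`, complete `x` by `y`, `z`: `y ∈ q.2`, `z ∈ s.1`, and `y ∈ r.1` or `z ∈ r.2`. The
others by rotation (`Onto.rot`). -/
theorem compat_of_onto (h : Onto (Sat O₁) (Sat O₂) (Sat O₃)) : CompatAll O₁ O₂ O₃ := by
  refine ⟨?_, ?_, ?_, ?_, ?_, ?_⟩
  · intro q hq r hr
    refine ⟨fun hu => ?_, fun hu => ?_⟩
    · obtain ⟨x, hx, hx'⟩ := FinB_ex hu
      obtain ⟨y, z, h1, -, -⟩ := h.eX x
      exact ⟨y, (h1 q hq).resolve_left hx, (h1 r hr).resolve_left hx'⟩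
    · obtain ⟨y, hy, hy'⟩ := FinB_ex hu
      obtain ⟨z, x, -, -, h1⟩ := h.eY y
      exact ⟨x, (h1 q hq).resolve_right hy, (h1 r hr).resolve_right hy'⟩
  · intro q hq r hr
    refine ⟨fun hu => ?_, fun hu => ?_⟩
    · obtain ⟨y, hy, hy'⟩ := FinB_ex hu
      obtain ⟨z, x, h1, -, -⟩ := h.eY y
      exact ⟨z, (h1 q hq).resolve_left hy, (h1 r hr).resolve_left hy'⟩
    · obtain ⟨z, hz, hz'⟩ := FinB_ex hu
      obtain ⟨x, y, -, -, h1⟩ := h.eZ z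
      exact ⟨y, (h1 q hq).resolve_right hz, (h1 r hr).resolve_right hz'⟩
  · intro q hq r hr
    refine ⟨fun hu => ?_, fun hu => ?_⟩
    · obtain ⟨z, hz, hz'⟩ := FinB_ex hu
      obtain ⟨x, y, h1, -, -⟩ := h.eZ z
      exact ⟨x, (h1 q hq).resolve_left hz, (h1 r hr).resolve_left hz'⟩
    · obtain ⟨x, hx, hx'⟩ := FinB_ex hu
      obtain ⟨y, z, -, -, h1⟩ := h.eX x
      exact ⟨z, (h1 q hq).resolve_right hx, (h1 r hr).resolve_right hx'⟩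
  · intro q hq r hr s hs hu
    obtain ⟨x, hx, hx'⟩ := FinB_ex hu
    obtain ⟨y, z, h1, h2, h3⟩ := h.eX x
    have hy := (h1 q hq).resolve_left hx
    have hz := (h3 s hs).resolve_right hx'
    rcases h2 r hr with h' | h'
    · exact Or.inl ⟨y, hy, h'⟩
    · exact Or.inr ⟨z, hz, h'⟩
  · intro q hq r hr s hs hu
    obtain ⟨y, hy, hy'⟩ := FinB_ex hu
    obtain ⟨z, x, h1, h2, h3⟩ := h.eY y
    have hz := (h1 q hq).resolve_left hy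
    have hx := (h3 s hs).resolve_right hy'
    rcases h2 r hr with h' | h'
    · exact Or.inl ⟨z, hz, h'⟩
    · exact Or.inr ⟨x, hx, h'⟩
  · intro q hq r hr s hs hu
    obtain ⟨z, hz, hz'⟩ := FinB_ex hu
    obtain ⟨x, y, h1, h2, h3⟩ := h.eZ z
    have hx := (h1 q hq).resolve_left hz
    have hy := (h3 s hs).resolve_right hz'
    rcases h2 r hr with h' | h'
    · exact Or.inl ⟨x, hx, h'⟩
    · exact Or.inr ⟨y, hy, h'⟩

end Pool.Agent.LST
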