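import Pool.Agent.LST.Ord

/-!
# LST module Theta (size 3)

A continuous function which is positive below `β` and zero elsewhere.
-/

open Set Topology Filter

namespace Pool.Agent.LST

open Pool.Agent.H86.Bifol Pool.Agent.LSP

variable {X : Type*} [TopologicalSpace X] [SCM X]

/-- For a decreasing family of open sets `D t`, `t ∈ [0, 1]`, with `closure (D t') ⊆ D t` for
`t < t'`, the function `sup {t | t = 0 ∨ x ∈ D t}` is continuous. -/
private theorem Theta_cont {D : ℝ → Set X} (hD : ∀ t, 0 ≤ t → t ≤ 1 → IsOpen (D t))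
    (hcl : ∀ t t', 0 ≤ t → t < t' → t' ≤ 1 → closure (D t') ⊆ D t) :
    Continuous fun x => sSup {t : ℝ | 0 ≤ t ∧ t ≤ 1 ∧ (t = 0 ∨ x ∈ D t)} := by
  have hbdd : ∀ x, BddAbove {t : ℝ | 0 ≤ t ∧ t ≤ 1 ∧ (t = 0 ∨ x ∈ D t)} :=
    fun x => ⟨1, fun t ht => ht.2.1⟩
  have hne : ∀ x, (0 : ℝ) ∈ {t : ℝ | 0 ≤ t ∧ t ≤ 1 ∧ (t = 0 ∨ x ∈ D t)} :=
    fun x => ⟨le_rfl, zero_le_one, Or.inl rfl⟩
  rw [OrderTopology.continuous_iff]
  intro r
  constructor
  · rcases lt_or_ge r 0 with hr | hr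
    · have h : (fun x => sSup {t : ℝ | 0 ≤ t ∧ t ≤ 1 ∧ (t = 0 ∨ x ∈ D t)}) ⁻¹' Ioi r = univ := by
        ext x
        simp only [mem_preimage, mem_Ioi, mem_univ, iff_true]
        exact lt_of_lt_of_le hr (le_csSup (hbdd x) (hne x))
      rw [h]
      exact isOpen_univ
    · have h : (fun x => sSup {t : ℝ | 0 ≤ t ∧ t ≤ 1 ∧ (t = 0 ∨ x ∈ D t)}) ⁻¹' Ioi r =
          ⋃ t ∈ Ioc r 1, D t := by
        ext x
        simp only [mem_preimage, mem_Ioi, mem_iUnion, mem_Ioc]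
        constructor
        · intro hx
          obtain ⟨t, ht, hrt⟩ := exists_lt_of_lt_csSup ⟨0, hne x⟩ hx
          refine ⟨t, ⟨hrt, ht.2.1⟩, ?_⟩
          rcases ht.2.2 with h0 | h0
          · rw [h0] at hrt
            exact absurd hrt (not_lt.2 hr)
          · exact h0
        · rintro ⟨t, ⟨ht1, ht2⟩, hx⟩
          exact lt_of_lt_of_le ht1 (le_csSup (hbdd x) ⟨hr.trans ht1.le, ht2, Or.inr hx⟩)
      rw [h]
      exact isOpen_biUnion fun t ht => hD t (hr.trans ht.1.le) ht.2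
  · rw [isOpen_iff_mem_nhds]
    intro x hx
    have hx' : sSup {t : ℝ | 0 ≤ t ∧ t ≤ 1 ∧ (t = 0 ∨ x ∈ D t)} < r := hx
    have h0 : 0 ≤ sSup {t : ℝ | 0 ≤ t ∧ t ≤ 1 ∧ (t = 0 ∨ x ∈ D t)} := le_csSup (hbdd x) (hne x)
    rcases lt_or_ge 1 r with hr | hr
    · refine Filter.mem_of_superset Filter.univ_mem fun y _ => ?_
      show sSup _ < r
      exact lt_of_le_of_lt (csSup_le ⟨0, hne y⟩ fun t ht => ht.2.1) hr
    · obtain ⟨t, ht1, ht2⟩ := exists_between hx'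
      obtain ⟨t', ht3, ht4⟩ := exists_between ht2
      have hxD : x ∉ D t := by
        intro hxt
        exact absurd (le_csSup (hbdd x) ⟨h0.trans ht1.le, (ht2.le.trans hr), Or.inr hxt⟩)
          (not_le.2 ht1)
      have hxc : x ∈ (closure (D t'))ᶜ := fun hc =>
        hxD (hcl t t' (h0.trans ht1.le) ht3 (ht4.le.trans hr) hc)
      refine Filter.mem_of_superset (isClosed_closure.isOpen_compl.mem_nhds hxc) fun y hy => ?_
      show sSup _ < r
      refine lt_of_le_of_lt (csSup_le ⟨0, hne y⟩ fun s hs => ?_) ht4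
      rcases hs.2.2 with h5 | h5
      · rw [h5]
        exact h0.trans (ht1.le.trans ht3.le)
      · by_contra hcon
        push Not at hcon
        have h6 : y ∈ D t' :=
          hcl t' s (h0.trans (ht1.le.trans ht3.le)) hcon hs.2.1 (subset_closure h5)
        exact hy (subset_closure h6)

/-- PROOF. Positive chart `e` at `β`, `c t := e.symm (e β - t)`, `D t := o.dn (c t)` for `t ∈ [0, 1]`.
`D` is decreasing: for `t < t'`, `c t' ∈ o.dn (c t)`, `D t' ⊆ D t` (`dnS_subset`), and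
`closure (D t') ⊆ insert (c t') (D t') ⊆ D t` (`closure_side_subset`).
`θ x := sSup {t ∈ [0,1] | t = 0 ∨ x ∈ D t}`.
Continuity: `{θ > r}` is `univ` (`r < 0`) or `⋃ t > r, D t`, open. `{θ < r}`: if `θ x < r` take
`θ x < t < r` (`t ≤ 1`): `x ∉ D t`; for `t < t' < r` the open set `(closure (D t'))ᶜ ∋ x` is contained in
`{θ ≤ t'}`. (`continuous_iff_lower_upperSemicontinuous` or `continuous_generateFrom`/
`continuous_iff_continuousAt` with `Metric`.)
If `x ∉ o.dn β = D 0` then `x ∉ D t` for all `t`, so `θ x = 0`.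
If `x, β ∈ ℓ` and `x ∈ o.dn β`: there is a point `y ∈ ℓ ∩ e.source` with `x < y < β` on `ℓ`
(`exists_below` for the open set `ℓ ∩ e.source ∩ o.up x ∋ β`); `y ∈ o.dn β` gives `e y < e β`; put
`t := min 1 (e β - e y) > 0`; `c t` is in `e.source`, `e y ≤ e (c t)`, so `o.dn y ⊆ D t`
and `x ∈ o.dn y` (line), so `θ x ≥ t > 0`.
Monotonicity: `x, y ∈ ℓ`, `y ∈ o.up x`, `y ∈ D t` imply `x ∈ D t`: by `dn_of_notMem_up` with `p = c t`
(`y ∈ o.dn p` implies `y ∉ o.up p`). So the set for `y` is contained in the set for `x`. -/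
theorem exists_theta (o : Orientation X) (β : X) :
    ∃ θ : X → ℝ, Continuous θ ∧ (∀ x, 0 ≤ θ x) ∧ (∀ x, θ x ≤ 1) ∧ (∀ x, x ∉ o.dn β → θ x = 0) ∧
      (∀ ℓ, IsLine ℓ → ∀ x ∈ ℓ, β ∈ ℓ → x ∈ o.dn β → 0 < θ x) ∧
      ∀ ℓ, IsLine ℓ → ∀ x ∈ ℓ, ∀ y ∈ ℓ, y ∈ o.up x → θ y ≤ θ x := by
  obtain ⟨e, he, hp⟩ := o.exists_chart β
  set c : ℝ → X := fun t => e.symm (e β - t) with hc
  have hcs : ∀ t, c t ∈ e.source := fun t => symm_mem hp.tar _
  have hec : ∀ t, e (c t) = e β - t := fun t => apply_symm hp.tar _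
  have hc0 : c 0 = β := by
    rw [hc]
    simp only [sub_zero]
    exact e.left_inv he
  have hDeq : ∀ t, o.dn (c t) = dnS e (c t) := fun t => hp.dn_eq (hcs t)
  have hmono : ∀ t t', t ≤ t' → o.dn (c t') ⊆ o.dn (c t) := by
    intro t t' h
    rw [hDeq, hDeq]
    exact dnS_subset hp.tar (hcs t') (hcs t) (by rw [hec, hec]; linarith)
  have hcl : ∀ t t', t < t' → closure (o.dn (c t')) ⊆ o.dn (c t) := by
    intro t t' h x hx
    have h1 : x ∈ insert (c t') (o.dn (c t')) := by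
      rw [hDeq] at hx ⊢
      exact closure_side_subset hx
    rcases h1 with h1 | h1
    · rw [h1, hDeq]
      exact (mem_dnS_iff (hcs t) hp.tar (hcs t')).2 (by rw [hec, hec]; linarith)
    · exact hmono t t' h.le h1
  have hbdd : ∀ x, BddAbove {t : ℝ | 0 ≤ t ∧ t ≤ 1 ∧ (t = 0 ∨ x ∈ o.dn (c t))} :=
    fun x => ⟨1, fun t ht => ht.2.1⟩
  have hne : ∀ x, (0 : ℝ) ∈ {t : ℝ | 0 ≤ t ∧ t ≤ 1 ∧ (t = 0 ∨ x ∈ o.dn (c t))} :=
    fun x => ⟨le_rfl, zero_le_one, Or.inl rfl⟩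
  refine ⟨fun x => sSup {t : ℝ | 0 ≤ t ∧ t ≤ 1 ∧ (t = 0 ∨ x ∈ o.dn (c t))},
    Theta_cont (fun t _ _ => o.isOpen_dn _) (fun t t' _ h _ => hcl t t' h),
    fun x => le_csSup (hbdd x) (hne x), fun x => csSup_le ⟨0, hne x⟩ fun t ht => ht.2.1, ?_, ?_, ?_⟩
  · intro x hx
    apply le_antisymm
    · refine csSup_le ⟨0, hne x⟩ fun t ht => ?_
      rcases ht.2.2 with h | h
      · exact h.le
      · exfalso
        apply hx
        have h1 := hmono 0 t ht.1 h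
        rwa [hc0] at h1
    · exact le_csSup (hbdd x) (hne x)
  · intro ℓ hℓ x hx hβ hxβ
    have h1 : β ∈ o.up x := (up_iff_dn o hℓ hx hβ).2 hxβ
    obtain ⟨y, hy, hyβ, -⟩ := exists_below o ((hℓ.isOpen.inter e.open_source).inter (o.isOpen_up x))
      (x := β) ⟨⟨hβ, he⟩, h1⟩
    have hyd : e y < e β := by
      rw [hp.dn_eq he] at hyβ
      exact (mem_dnS_iff he hp.tar hy.1.2).1 hyβ
    have hxy : x ∈ o.dn y := (up_iff_dn o hℓ hx hy.1.1).1 hy.2
    have ht0 : 0 < min 1 (e β - e y) := lt_min one_pos (by linarith)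
    refine lt_of_lt_of_le ht0 (le_csSup (hbdd x) ⟨ht0.le, min_le_left _ _, Or.inr ?_⟩)
    rw [hDeq]
    rw [hp.dn_eq hy.1.2] at hxy
    refine dnS_subset hp.tar hy.1.2 (hcs _) ?_ hxy
    rw [hec]
    have := min_le_right 1 (e β - e y)
    linarith
  · intro ℓ hℓ x hx y hy hxy
    refine csSup_le_csSup (hbdd x) ⟨0, hne y⟩ fun t ht => ⟨ht.1, ht.2.1, ?_⟩
    rcases ht.2.2 with h | h
    · exact Or.inl h
    · exact Or.inr (dn_of_notMem_up o hℓ hx hy hxy (notMem_up_of_dn o h))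

end Pool.Agent.LST
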