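import Pool.Agent.LST.Low
import Pool.Agent.LST.Theta

/-!
# LST module Gfun (size 3)

A continuous monotone function on `Mh A B C` which is positive exactly strictly below a given point.
-/

open Set Topology Filter

namespace Pool.Agent.LST

open Pool.Agent.H86.Bifol Pool.Agent.LSP

variable {X Y Z : Type*} [TopologicalSpace X] [TopologicalSpace Y] [TopologicalSpace Z] [SCM X]
  [SCM Y] [SCM Z] {oX : Orientation X} {oY : Orientation Y} {oZ : Orientation Z} {A : Set (X × Y)}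
  {B : Set (Y × Z)} {C : Set (Z × X)}

/-- One step upwards in the first coordinate. PROOF. If `(x₂, y, z)` is in `Strict … x' y' z'` then
`(x₁, y, z)` is `Below` `(x₂, y, z)` (vertices: hypotheses; `x₁ ∈ oX.dn x₂` by `up_iff_dn` on
the line `{t | (t, y) ∈ A}`), so `Below … x' y' z'` by `Below.trans`; `x₁ < x₂ < x'` on the line
`{t | (t, y) ∈ A}` (`(x', y) ∈ A` is `a3`), so `x₁ ∈ oX.dn x'`. -/
theorem strict_of_up (h : Conv oX oY oZ A B C) {x₁ x₂ x' : X} {y y' : Y} {z z' : Z}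
    (h₁ : (x₁, y, z) ∈ Mh A B C) (h₂ : (x₂, y, z) ∈ Strict oX oY oZ A B C x' y' z')
    (hup : x₂ ∈ oX.up x₁) : (x₁, y, z) ∈ Strict oX oY oZ A B C x' y' z' := by
  obtain ⟨hb, hx, hy, hz⟩ := h₂
  simp only at hb hx hy hz
  have hl : IsLine {t | (t, y) ∈ A} := h.sA.snd y
  have hlt : x₁ ∈ oX.dn x₂ := (up_iff_dn oX hl h₁.1 hb.a1).1 hup
  have hB : Below oX oY oZ A B C x₁ y z x₂ y z :=
    ⟨Or.inr hlt, Or.inl rfl, Or.inl rfl, h₁.1, h₁.1, hb.a1, hb.a1, h₁.2.1, h₁.2.1, h₁.2.1,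
      h₁.2.1, h₁.2.2, hb.c1, h₁.2.2, hb.c1⟩
  have hB' := hB.trans h hb
  have hx' : x' ∈ oX.up x₂ := (up_iff_dn oX hl hb.a1 hb.a3).2 hx
  have hx'' : x' ∈ oX.up x₁ := up_trans oX hl h₁.1 hb.a1 hb.a3 hup hx'
  exact ⟨hB', (up_iff_dn oX hl h₁.1 hb.a3).1 hx'', hy, hz⟩

open Classical in
/-- PROOF. `θ₁, θ₂, θ₃` from `exists_theta` for `x'`, `y'`, `z'`;
`g x y z := if (x, y, z) ∈ Strict … x' y' z' then θ₁ x * θ₂ y * θ₃ z else 0`.
Positivity on `Strict`: `x` and `x'` are on the line `{t | (t, y) ∈ A}` (`a1`, `a3`), etc.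
Continuity: `continuous_indicator` on the subspace `Mh A B C` (or `ContinuousOn.if`) for the set
`S := Strict` and the continuous function `θ₁ θ₂ θ₃`: at a point `q ∈ Mh` of `closure S \ S`
(`isOpen_Strict`) we have `Below q` (`below_of_mem_closure`) and not `Strict`, so `q.1 = x'` or `q.2.1 = y'` or
`q.2.2 = z'`, and `θ₁ x' = 0` (`self_notMem_dn`).
Monotonicity: if `(x₂, y, z) ∉ S` the left-hand side is `0`. Otherwise `strict_of_up` and `θ₁ x₂ ≤ θ₁ x₁`
(line `{t | (t, y) ∈ A}`). The other two coordinates in the same way with `strict_of_up` for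
`h.rot`, `h.rot.rot` (`mem_Strict_rot`). -/
theorem exists_g (h : Conv oX oY oZ A B C) (x' : X) (y' : Y) (z' : Z) :
    ∃ g : X → Y → Z → ℝ,
      ContinuousOn (fun q : X × Y × Z => g q.1 q.2.1 q.2.2) (Mh A B C) ∧
      (∀ x y z, 0 ≤ g x y z) ∧ (∀ x y z, g x y z ≤ 1) ∧
      (∀ x y z, 0 < g x y z ↔ (x, y, z) ∈ Strict oX oY oZ A B C x' y' z') ∧
      (∀ x₁ x₂ y z, (x₁, y, z) ∈ Mh A B C → (x₂, y, z) ∈ Mh A B C → x₂ ∈ oX.up x₁ →
        g x₂ y z ≤ g x₁ y z) ∧
      (∀ x y₁ y₂ z, (x, y₁, z) ∈ Mh A B C → (x, y₂, z) ∈ Mh A B C → y₂ ∈ oY.up y₁ →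
        g x y₂ z ≤ g x y₁ z) ∧
      (∀ x y z₁ z₂, (x, y, z₁) ∈ Mh A B C → (x, y, z₂) ∈ Mh A B C → z₂ ∈ oZ.up z₁ →
        g x y z₂ ≤ g x y z₁) := by
  obtain ⟨θ₁, c₁, n₁, l₁, v₁, p₁, m₁⟩ := exists_theta oX x'
  obtain ⟨θ₂, c₂, n₂, l₂, v₂, p₂, m₂⟩ := exists_theta oY y'
  obtain ⟨θ₃, c₃, n₃, l₃, v₃, p₃, m₃⟩ := exists_theta oZ z'
  set S := Strict oX oY oZ A B C x' y' z' with hS
  have hSo : IsOpen S := isOpen_Strict h x' y' z'
  have hTn : ∀ x y z, 0 ≤ θ₁ x * θ₂ y * θ₃ z := fun x y z =>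
    mul_nonneg (mul_nonneg (n₁ x) (n₂ y)) (n₃ z)
  have hT1 : ∀ x y z, θ₁ x * θ₂ y * θ₃ z ≤ 1 := fun x y z =>
    mul_le_one₀ (mul_le_one₀ (l₁ x) (n₂ y) (l₂ y)) (n₃ z) (l₃ z)
  have hTc : Continuous (fun q : X × Y × Z => θ₁ q.1 * θ₂ q.2.1 * θ₃ q.2.2) := by fun_prop
  refine ⟨fun x y z => if (x, y, z) ∈ S then θ₁ x * θ₂ y * θ₃ z else 0, ?_, ?_, ?_, ?_, ?_, ?_, ?_⟩
  · intro q hq
    obtain ⟨x, y, z⟩ := q
    refine ContinuousAt.continuousWithinAt ?_
    by_cases hqS : (x, y, z) ∈ S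
    · have : (fun q : X × Y × Z => if (q.1, q.2.1, q.2.2) ∈ S then θ₁ q.1 * θ₂ q.2.1 * θ₃ q.2.2 else 0)
          =ᶠ[𝓝 (x, y, z)] (fun q : X × Y × Z => θ₁ q.1 * θ₂ q.2.1 * θ₃ q.2.2) := by
        filter_upwards [hSo.mem_nhds hqS] with r hr
        exact if_pos hr
      exact (hTc.continuousAt).congr this.symm
    · by_cases hcl : (x, y, z) ∈ closure S
      · have hb := below_of_mem_closure h hq hcl
        have h0 : θ₁ x * θ₂ y * θ₃ z = 0 := by
          by_contra hne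
          have e1 : x ∈ oX.dn x' := by
            by_contra hc
            exact hne (by rw [v₁ x hc]; simp)
          have e2 : y ∈ oY.dn y' := by
            by_contra hc
            exact hne (by rw [v₂ y hc]; simp)
          have e3 : z ∈ oZ.dn z' := by
            by_contra hc
            exact hne (by rw [v₃ z hc]; simp)
          exact hqS ⟨hb, e1, e2, e3⟩
        have hval : (if (x, y, z) ∈ S then θ₁ x * θ₂ y * θ₃ z else 0) = 0 := if_neg hqS
        unfold ContinuousAt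
        simp only
        rw [hval]
        have hlim : Tendsto (fun q : X × Y × Z => θ₁ q.1 * θ₂ q.2.1 * θ₃ q.2.2) (𝓝 (x, y, z))
            (𝓝 0) := by
          have := hTc.tendsto (x, y, z)
          simp only [h0] at this
          exact this
        refine squeeze_zero (fun r => ?_) (fun r => ?_) hlim
        · split_ifs
          · exact hTn _ _ _
          · exact le_rfl
        · split_ifs
          · exact le_rfl
          · exact hTn _ _ _
      · have : (fun q : X × Y × Z => if (q.1, q.2.1, q.2.2) ∈ S then θ₁ q.1 * θ₂ q.2.1 * θ₃ q.2.2 else 0)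
            =ᶠ[𝓝 (x, y, z)] (fun _ : X × Y × Z => (0 : ℝ)) := by
          filter_upwards [isClosed_closure.isOpen_compl.mem_nhds hcl] with r hr
          exact if_neg (fun h' => hr (subset_closure h'))
        exact continuousAt_const.congr this.symm
  · intro x y z
    simp only
    split_ifs
    · exact hTn _ _ _
    · exact le_rfl
  · intro x y z
    simp only
    split_ifs
    · exact hT1 _ _ _
    · exact zero_le_one
  · intro x y z
    constructor
    · intro h'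
      by_contra hn
      simp only [if_neg hn, lt_irrefl] at h'
    · intro hs
      simp only [if_pos hs]
      obtain ⟨hb, e1, e2, e3⟩ := hs
      simp only at hb e1 e2 e3
      exact mul_pos (mul_pos (p₁ _ (h.sA.snd y) x hb.a1 hb.a3 e1)
        (p₂ _ (h.sA.fst x) y hb.a1 hb.a2 e2)) (p₃ _ (h.sB.fst y) z hb.b1 hb.b2 e3)
  · intro x₁ x₂ y z h₁ h₂ hup
    simp only
    by_cases hs : (x₂, y, z) ∈ S
    · have hs' : (x₁, y, z) ∈ S := strict_of_up h h₁ hs hup
      rw [if_pos hs, if_pos hs']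
      refine mul_le_mul_of_nonneg_right (mul_le_mul_of_nonneg_right ?_ (n₂ y)) (n₃ z)
      exact m₁ _ (h.sA.snd y) x₁ h₁.1 x₂ h₂.1 hup
    · rw [if_neg hs]
      split_ifs
      · exact hTn _ _ _
      · exact le_rfl
  · intro x y₁ y₂ z h₁ h₂ hup
    simp only
    by_cases hs : (x, y₂, z) ∈ S
    · have hs' : (x, y₁, z) ∈ S :=
        mem_Strict_rot (mem_Strict_rot (strict_of_up h.rot (x₁ := y₁) (x₂ := y₂) (y := z) (z := x)
          ⟨h₁.2.1, h₁.2.2, h₁.1⟩ (mem_Strict_rot hs) hup))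
      rw [if_pos hs, if_pos hs']
      refine mul_le_mul_of_nonneg_right (mul_le_mul_of_nonneg_left ?_ (n₁ x)) (n₃ z)
      exact m₂ _ (h.sA.fst x) y₁ h₁.1 y₂ h₂.1 hup
    · rw [if_neg hs]
      split_ifs
      · exact hTn _ _ _
      · exact le_rfl
  · intro x y z₁ z₂ h₁ h₂ hup
    simp only
    by_cases hs : (x, y, z₂) ∈ S
    · have hs' : (x, y, z₁) ∈ S :=
        mem_Strict_rot (strict_of_up h.rot.rot (x₁ := z₁) (x₂ := z₂) (y := x) (z := y)
          ⟨h₁.2.2, h₁.1, h₁.2.1⟩ (mem_Strict_rot (mem_Strict_rot hs)) hup)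
      rw [if_pos hs, if_pos hs']
      refine mul_le_mul_of_nonneg_left ?_ (mul_nonneg (n₁ x) (n₂ y))
      exact m₃ _ (h.sB.fst y) z₁ h₁.2.1 z₂ h₂.2.1 hup
    · rw [if_neg hs]
      split_ifs
      · exact hTn _ _ _
      · exact le_rfl

end Pool.Agent.LST
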