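import Pool.Agent.LST.Ord

/-!
# LST module Low (size 4)

The order relation on the points `(x, y, z)` all of whose pairs are in `A`, `B`, `C`.
-/

open Set Topology Filter

namespace Pool.Agent.LST

open Pool.Agent.H86.Bifol Pool.Agent.LSP

variable {X Y Z : Type*} [TopologicalSpace X] [TopologicalSpace Y] [TopologicalSpace Z]

/-- The points with all pairs in `A`, `B`, `C`. -/
def Mh (A : Set (X × Y)) (B : Set (Y × Z)) (C : Set (Z × X)) : Set (X × Y × Z) :=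
  {q | (q.1, q.2.1) ∈ A ∧ (q.2.1, q.2.2) ∈ B ∧ (q.2.2, q.1) ∈ C}

/-- `(x, y, z)` is below `(x', y', z')`: each coordinate is, and all pairs of coordinates of the eight
vertices of the box are in `A`, `B`, `C`. -/
structure Below (oX : Orientation X) (oY : Orientation Y) (oZ : Orientation Z) (A : Set (X × Y))
    (B : Set (Y × Z)) (C : Set (Z × X)) (x : X) (y : Y) (z : Z) (x' : X) (y' : Y) (z' : Z) :
    Prop where
  hx : x = x' ∨ x ∈ oX.dn x'
  hy : y = y' ∨ y ∈ oY.dn y'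
  hz : z = z' ∨ z ∈ oZ.dn z'
  a1 : (x, y) ∈ A
  a2 : (x, y') ∈ A
  a3 : (x', y) ∈ A
  a4 : (x', y') ∈ A
  b1 : (y, z) ∈ B
  b2 : (y, z') ∈ B
  b3 : (y', z) ∈ B
  b4 : (y', z') ∈ B
  c1 : (z, x) ∈ C
  c2 : (z, x') ∈ C
  c3 : (z', x) ∈ C
  c4 : (z', x') ∈ C

/-- The points strictly below `(x', y', z')`. -/
def Strict (oX : Orientation X) (oY : Orientation Y) (oZ : Orientation Z) (A : Set (X × Y))
    (B : Set (Y × Z)) (C : Set (Z × X)) (x' : X) (y' : Y) (z' : Z) : Set (X × Y × Z) :=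
  {q | Below oX oY oZ A B C q.1 q.2.1 q.2.2 x' y' z' ∧ q.1 ∈ oX.dn x' ∧ q.2.1 ∈ oY.dn y' ∧
    q.2.2 ∈ oZ.dn z'}

variable {oX : Orientation X} {oY : Orientation Y} {oZ : Orientation Z} {A : Set (X × Y)}
  {B : Set (Y × Z)} {C : Set (Z × X)} {x x' x'' : X} {y y' y'' : Y} {z z' z'' : Z}

theorem Below.rot (h : Below oX oY oZ A B C x y z x' y' z') :
    Below oY oZ oX B C A y z x y' z' x' :=
  ⟨h.hy, h.hz, h.hx, h.b1, h.b2, h.b3, h.b4, h.c1, h.c2, h.c3, h.c4, h.a1, h.a2, h.a3, h.a4⟩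

theorem Below.mem (h : Below oX oY oZ A B C x y z x' y' z') : (x, y, z) ∈ Mh A B C :=
  ⟨h.a1, h.b1, h.c1⟩

theorem Below.mem' (h : Below oX oY oZ A B C x y z x' y' z') : (x', y', z') ∈ Mh A B C :=
  ⟨h.a4, h.b4, h.c4⟩

theorem mem_Strict_rot (h : (x, y, z) ∈ Strict oX oY oZ A B C x' y' z') :
    (y, z, x) ∈ Strict oY oZ oX B C A y' z' x' := ⟨h.1.rot, h.2.2.1, h.2.2.2, h.2.1⟩

variable [SCM X] [SCM Y] [SCM Z]

/-- PROOF. The preimages of the open sets `A`, `B`, `C` under continuous maps. -/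
theorem isOpen_Mh (h : Conv oX oY oZ A B C) : IsOpen (Mh A B C) := by
  exact (h.sA.isOpen.preimage (by fun_prop : Continuous fun q : X × Y × Z => (q.1, q.2.1))).inter
    ((h.sB.isOpen.preimage (by fun_prop : Continuous fun q : X × Y × Z => (q.2.1, q.2.2))).inter
      (h.sC.isOpen.preimage (by fun_prop : Continuous fun q : X × Y × Z => (q.2.2, q.1))))

/-- The `X`–part of transitivity. PROOF. `x, x', x''` are on the line `{t | (t, y') ∈ A}` (`h₁.a2`,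
`h₁.a4`, `h₂.a3`). Use `up_iff_dn`, `up_trans`. -/
theorem below_hx (h : Conv oX oY oZ A B C) (h₁ : Below oX oY oZ A B C x y z x' y' z')
    (h₂ : Below oX oY oZ A B C x' y' z' x'' y'' z'') : x = x'' ∨ x ∈ oX.dn x'' := by
  rcases h₁.hx with e | e
  · rw [e]; exact h₂.hx
  rcases h₂.hx with e' | e'
  · rw [← e']; exact Or.inr e
  right
  have hl := h.sA.snd y'
  have m : x ∈ {t | (t, y') ∈ A} := h₁.a2
  have m' : x' ∈ {t | (t, y') ∈ A} := h₁.a4
  have m'' : x'' ∈ {t | (t, y') ∈ A} := h₂.a3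
  exact (up_iff_dn oX hl m m'').1 (up_trans oX hl m m' m'' ((up_iff_dn oX hl m m').2 e)
    ((up_iff_dn oX hl m' m'').2 e'))

/-- The `A`–part of transitivity. PROOF. First component. If `x = x'` it is `h₂.a2`; if `y' = y''` it is
`h₁.a2`. Otherwise `h.cZ z'` (corner condition in the rectangle `{x | (z', x) ∈ C} × {y | (y, z') ∈ B}`) for
`(x, y'), (x', y'') ∈ A`, `x < x'`, `y' < y''` (memberships: `h₁.c3`, `h₁.c4`, `h₁.b4`, `h₂.b3`; on
these lines `up_iff_dn`). Second component: the same with `(x', y), (x'', y') ∈ A`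
(memberships `h₂.c1`/`h₁.c4`, `h₂.c2`, `h₁.b2`, `h₁.b4`). -/
theorem below_A (h : Conv oX oY oZ A B C) (h₁ : Below oX oY oZ A B C x y z x' y' z')
    (h₂ : Below oX oY oZ A B C x' y' z' x'' y'' z'') : (x, y'') ∈ A ∧ (x'', y) ∈ A := by
  have hl := h.sA.snd y'
  have m : x ∈ {t | (t, y') ∈ A} := h₁.a2
  have m' : x' ∈ {t | (t, y') ∈ A} := h₁.a4
  have m'' : x'' ∈ {t | (t, y') ∈ A} := h₂.a3
  have hk := h.sB.snd z'
  have n : y ∈ {t | (t, z') ∈ B} := h₁.b2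
  have n' : y' ∈ {t | (t, z') ∈ B} := h₁.b4
  have n'' : y'' ∈ {t | (t, z') ∈ B} := h₂.b3
  constructor
  · rcases h₁.hx with e | e
    · rw [e]; exact h₂.a2
    rcases h₂.hy with e' | e'
    · rw [← e']; exact h₁.a2
    exact (h.cZ z' x h₁.c3 x' h₁.c4 y' h₁.b4 y'' h₂.b3 ((up_iff_dn oX hl m m').2 e)
      ((up_iff_dn oY hk n' n'').2 e') h₁.a2 h₂.a2).1
  · rcases h₂.hx with e | e
    · rw [← e]; exact h₁.a3
    rcases h₁.hy with e' | e'
    · rw [e']; exact h₂.a3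
    exact (h.cZ z' x' h₁.c4 x'' h₂.c2 y h₁.b2 y' h₁.b4 ((up_iff_dn oX hl m' m'').2 e)
      ((up_iff_dn oY hk n n').2 e') h₁.a3 h₂.a3).2

/-- **Transitivity.** PROOF. `below_hx`, `below_A` for `h`, `h.rot`, `h.rot.rot`. -/
theorem Below.trans (h : Conv oX oY oZ A B C) (h₁ : Below oX oY oZ A B C x y z x' y' z')
    (h₂ : Below oX oY oZ A B C x' y' z' x'' y'' z'') :
    Below oX oY oZ A B C x y z x'' y'' z'' := by
  have hA := below_A h h₁ h₂
  have hB := below_A h.rot h₁.rot h₂.rot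
  have hC := below_A h.rot.rot h₁.rot.rot h₂.rot.rot
  exact ⟨below_hx h h₁ h₂, below_hx h.rot h₁.rot h₂.rot, below_hx h.rot.rot h₁.rot.rot h₂.rot.rot,
    h₁.a1, hA.1, hA.2, h₂.a4, h₁.b1, hB.1, hB.2, h₂.b4, h₁.c1, hC.1, hC.2, h₂.c4⟩

/-- PROOF. `(x', y', z') ∈ Mh` or the set is empty. The conditions on `q` are: `q ∈ Mh`,
`(q.1, y') ∈ A`, `(x', q.2.1) ∈ A`, …, `q.1 ∈ oX.dn x'`, … ; all are open. -/
theorem isOpen_Strict (h : Conv oX oY oZ A B C) (x' : X) (y' : Y) (z' : Z) :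
    IsOpen (Strict oX oY oZ A B C x' y' z') := by
  by_cases hM : (x', y', z') ∈ Mh A B C
  · have hA := h.sA.isOpen
    have hB := h.sB.isOpen
    have hC := h.sC.isOpen
    have key : Strict oX oY oZ A B C x' y' z' =
        (Mh A B C ∩ ((fun q : X × Y × Z => (q.1, y')) ⁻¹' A ∩
          ((fun q : X × Y × Z => (x', q.2.1)) ⁻¹' A ∩
          ((fun q : X × Y × Z => (q.2.1, z')) ⁻¹' B ∩
          ((fun q : X × Y × Z => (y', q.2.2)) ⁻¹' B ∩
          ((fun q : X × Y × Z => (q.2.2, x')) ⁻¹' C ∩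
          ((fun q : X × Y × Z => (z', q.1)) ⁻¹' C ∩
          ((fun q : X × Y × Z => q.1) ⁻¹' oX.dn x' ∩
          ((fun q : X × Y × Z => q.2.1) ⁻¹' oY.dn y' ∩
          (fun q : X × Y × Z => q.2.2) ⁻¹' oZ.dn z'))))))))) := by
      ext q
      constructor
      · rintro ⟨b, h1, h2, h3⟩
        exact ⟨b.mem, b.a2, b.a3, b.b2, b.b3, b.c2, b.c3, h1, h2, h3⟩
      · rintro ⟨⟨m1, m2, m3⟩, a2, a3, b2, b3, c2, c3, h1, h2, h3⟩
        exact ⟨⟨Or.inr h1, Or.inr h2, Or.inr h3, m1, a2, a3, hM.1, m2, b2, b3, hM.2.1, m3, c2, c3,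
          hM.2.2⟩, h1, h2, h3⟩
    rw [key]
    exact (isOpen_Mh h).inter ((hA.preimage (by fun_prop)).inter ((hA.preimage (by fun_prop)).inter
      ((hB.preimage (by fun_prop)).inter ((hB.preimage (by fun_prop)).inter
      ((hC.preimage (by fun_prop)).inter ((hC.preimage (by fun_prop)).inter
      (((oX.isOpen_dn x').preimage (by fun_prop)).inter
      (((oY.isOpen_dn y').preimage (by fun_prop)).inter
      ((oZ.isOpen_dn z').preimage (by fun_prop))))))))))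
  · have key : Strict oX oY oZ A B C x' y' z' = ∅ := by
      ext q
      constructor
      · rintro ⟨b, -⟩
        exact hM b.mem'
      · rintro ⟨⟩
    rw [key]
    exact isOpen_empty

/-- A small neighbourhood contains lower bounds of its points and of its centre. -/
theorem low_min {W : Type*} [TopologicalSpace W] [SCM W] (o : Orientation W) {U : Set W}
    (hU : IsOpen U) {t : W} (ht : t ∈ U) :
    ∃ V ⊆ U, IsOpen V ∧ t ∈ V ∧ ∀ s ∈ V, ∃ w ∈ V, (w = t ∨ w ∈ o.dn t) ∧ (w = s ∨ w ∈ o.dn s) := by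
  obtain ⟨e, he, hp⟩ := o.exists_chart t
  refine ⟨U ∩ e.source, inter_subset_left, hU.inter e.open_source, ⟨ht, he⟩, fun s hs => ?_⟩
  rcases lt_trichotomy (e t) (e s) with h | h | h
  · refine ⟨t, ⟨ht, he⟩, Or.inl rfl, Or.inr ?_⟩
    rw [hp.dn_eq hs.2]
    exact (mem_dnS_iff hs.2 hp.tar he).2 h
  · exact ⟨t, ⟨ht, he⟩, Or.inl rfl, Or.inl (e.injOn he hs.2 h)⟩
  · refine ⟨s, hs, Or.inr ?_, Or.inl rfl⟩
    rw [hp.dn_eq he]
    exact (mem_dnS_iff he hp.tar hs.2).2 h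

/-- The part of `below_of_mem_closure` for `A`. -/
theorem low_part (h : Conv oX oY oZ A B C) {u : X} {v : Y} {w : Z}
    (b1 : Below oX oY oZ A B C u v w x' y' z') (b2 : Below oX oY oZ A B C u v w x y z)
    (hx : x ∉ oX.up x') (hy : y ∉ oY.up y') :
    (x = x' ∨ x ∈ oX.dn x') ∧ (x, y') ∈ A ∧ (x', y) ∈ A := by
  have hx' : x = x' ∨ x ∈ oX.dn x' := by
    by_cases e : x = x'
    · exact Or.inl e
    · exact Or.inr ((oX.up_or_dn e).resolve_left hx)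
  have hy' : y = y' ∨ y ∈ oY.dn y' := by
    by_cases e : y = y'
    · exact Or.inl e
    · exact Or.inr ((oY.up_or_dn e).resolve_left hy)
  refine ⟨hx', ?_, ?_⟩
  · rcases hx' with e | e
    · rw [e]; exact b1.a4
    rcases b2.hx with e' | e'
    · rw [← e']; exact b1.a2
    have hl := h.sA.snd v
    have m : x ∈ {t | (t, v) ∈ A} := b2.a3
    have m' : x' ∈ {t | (t, v) ∈ A} := b1.a3
    exact between oX (S := {t | (t, y') ∈ A}) (h.sA.snd y').pre (x := u) (z := x') b1.a2 b1.a4 e'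
      ((up_iff_dn oX hl m m').2 e)
  · rcases hy' with e | e
    · rw [e]; exact b1.a4
    rcases b2.hy with e' | e'
    · rw [← e']; exact b1.a3
    have hl := h.sA.fst u
    have m : y ∈ {t | (u, t) ∈ A} := b2.a2
    have m' : y' ∈ {t | (u, t) ∈ A} := b1.a2
    exact between oY (S := {t | (x', t) ∈ A}) (h.sA.fst x').pre (x := v) (z := y') b1.a3 b1.a4 e'
      ((up_iff_dn oY hl m m').2 e)

/-- PROOF. Let `(x, y, z) ∈ Mh` be in the closure of `Strict … x' y' z'`. Let `N₁ × N₂ × N₃ ⊆ Mh` be a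
box around `(x, y, z)` with `N_i` chart intervals (connected open subsets of the source of a
positive chart, on which the order is the order of the chart). Let `N₁'` be `N₁`, intersected with `oX.up x'` if
`x ∈ oX.up x'`; the same for `N₂'`, `N₃'`. There is `(x₁, y₁, z₁)` in `Strict …` and in
`N₁' × N₂' × N₃'`; as `x₁ ∈ oX.dn x'`, we get `x ∉ oX.up x'`, and the same for `y`, `z`.
Let `w₁ := min x x₁` in the chart `N₁`, etc. Then `(w₁, w₂, w₃)` is `Below` `(x₁, y₁, z₁)` (all vertices are in the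
box), which is `Below` `(x', y', z')`: so `Below … w₁ w₂ w₃ x' y' z'` (`Below.trans`).
`w₁` and `x'` are on the line `{t | (t, w₂) ∈ A}`, and `x` too; so `x = x'` or `x ∈ oX.dn x'` (`x ∉ oX.up x'`).
`(x, y') ∈ A`: the line `{t | (t, y') ∈ A}` contains `w₁` and `x'`, and `x` is `w₁` or `x'` or between
(`between`). `(x', y) ∈ A`: the line `{t | (x', t) ∈ A}` contains `w₂` and `y'`, and `y` is one of them or
between. Cyclic permutations (`Conv.rot`) for the other conditions; it may be convenient to prove first a lemma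
with the conclusion `(x = x' ∨ x ∈ oX.dn x') ∧ (x, y') ∈ A ∧ (x', y) ∈ A` from
`Below … w₁ w₂ w₃ x' y' z'`, `(w₁ = x ∨ w₁ ∈ oX.dn x)`, …, all pairs of `x, w₁`, `y, w₂`, `z, w₃` in `A`, `B`, `C`,
`x ∉ oX.up x'`, …, and to rotate it. -/
theorem below_of_mem_closure (h : Conv oX oY oZ A B C) (hm : (x, y, z) ∈ Mh A B C)
    (hcl : (x, y, z) ∈ closure (Strict oX oY oZ A B C x' y' z')) :
    Below oX oY oZ A B C x y z x' y' z' := by
  have hxn : x ∉ oX.up x' := fun h0 => by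
    obtain ⟨q, hq1, hq2⟩ := mem_closure_iff.1 hcl {q : X × Y × Z | q.1 ∈ oX.up x'}
      ((oX.isOpen_up x').preimage (by fun_prop : Continuous fun q : X × Y × Z => q.1)) h0
    exact oX.up_not_dn hq1 hq2.2.1
  have hyn : y ∉ oY.up y' := fun h0 => by
    obtain ⟨q, hq1, hq2⟩ := mem_closure_iff.1 hcl {q : X × Y × Z | q.2.1 ∈ oY.up y'}
      ((oY.isOpen_up y').preimage (by fun_prop : Continuous fun q : X × Y × Z => q.2.1)) h0
    exact oY.up_not_dn hq1 hq2.2.2.1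
  have hzn : z ∉ oZ.up z' := fun h0 => by
    obtain ⟨q, hq1, hq2⟩ := mem_closure_iff.1 hcl {q : X × Y × Z | q.2.2 ∈ oZ.up z'}
      ((oZ.isOpen_up z').preimage (by fun_prop : Continuous fun q : X × Y × Z => q.2.2)) h0
    exact oZ.up_not_dn hq1 hq2.2.2.2
  obtain ⟨U₁, W, hU₁, hW, hxU, hyzW, hsub⟩ := isOpen_prod_iff.1 (isOpen_Mh h) x (y, z) hm
  obtain ⟨U₂, U₃, hU₂, hU₃, hyU, hzU, hsub'⟩ := isOpen_prod_iff.1 hW y z hyzW
  have box : ∀ a ∈ U₁, ∀ b ∈ U₂, ∀ c ∈ U₃, (a, b, c) ∈ Mh A B C := fun a ha b hb c hc =>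
    hsub (mk_mem_prod ha (hsub' (mk_mem_prod hb hc)))
  obtain ⟨V₁, hV₁, hV₁o, hxV, hV₁m⟩ := low_min oX hU₁ hxU
  obtain ⟨V₂, hV₂, hV₂o, hyV, hV₂m⟩ := low_min oY hU₂ hyU
  obtain ⟨V₃, hV₃, hV₃o, hzV, hV₃m⟩ := low_min oZ hU₃ hzU
  obtain ⟨⟨x₁, y₁, z₁⟩, ⟨hx₁, hy₁, hz₁⟩, hs⟩ := mem_closure_iff.1 hcl (V₁ ×ˢ (V₂ ×ˢ V₃))
    (hV₁o.prod (hV₂o.prod hV₃o)) ⟨hxV, hyV, hzV⟩
  obtain ⟨u, hu, hux, hux₁⟩ := hV₁m x₁ hx₁
  obtain ⟨v, hv, hvy, hvy₁⟩ := hV₂m y₁ hy₁
  obtain ⟨w, hw, hwz, hwz₁⟩ := hV₃m z₁ hz₁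
  have mk : ∀ a ∈ V₁, ∀ b ∈ V₂, ∀ c ∈ V₃, (u = a ∨ u ∈ oX.dn a) → (v = b ∨ v ∈ oY.dn b) →
      (w = c ∨ w ∈ oZ.dn c) → Below oX oY oZ A B C u v w a b c := by
    intro a ha b hb c hc h1 h2 h3
    have ha := hV₁ ha
    have hb := hV₂ hb
    have hc := hV₃ hc
    have hu := hV₁ hu
    have hv := hV₂ hv
    have hw := hV₃ hw
    exact ⟨h1, h2, h3, (box u hu v hv w hw).1, (box u hu b hb w hw).1, (box a ha v hv w hw).1,
      (box a ha b hb w hw).1, (box u hu v hv w hw).2.1, (box u hu v hv c hc).2.1,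
      (box u hu b hb w hw).2.1, (box u hu b hb c hc).2.1, (box u hu v hv w hw).2.2,
      (box a ha v hv w hw).2.2, (box u hu v hv c hc).2.2, (box a ha v hv c hc).2.2⟩
  have b2 := mk x hxV y hyV z hzV hux hvy hwz
  have b1 := (mk x₁ hx₁ y₁ hy₁ z₁ hz₁ hux₁ hvy₁ hwz₁).trans h hs.1
  have pA := low_part h b1 b2 hxn hyn
  have pB := low_part h.rot b1.rot b2.rot hyn hzn
  have pC := low_part h.rot.rot b1.rot.rot b2.rot.rot hzn hxn
  exact ⟨pA.1, pB.1, pC.1, hm.1, pA.2.1, pA.2.2, b1.a4, hm.2.1, pB.2.1, pB.2.2, b1.b4, hm.2.2,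
    pC.2.1, pC.2.2, b1.c4⟩

end Pool.Agent.LST
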