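import Pool.Agent.LST.CuspB

/-!
# LST module NecCut (size 3)

A web gives a cut system.
-/

open Set Topology Filter

namespace Pool.Agent.LST

open Pool.Agent.H86.Bifol Pool.Agent.LSP

variable {X Y Z : Type*} [TopologicalSpace X] [TopologicalSpace Y] [TopologicalSpace Z] [SCM X]
  [SCM Y] [SCM Z] {oX : Orientation X} {oY : Orientation Y} {oZ : Orientation Z}
  {f : ℝ × ℝ → X} {g : ℝ × ℝ → Y} {h : ℝ × ℝ → Z}

/-- PROOF. `D.pos z z' := ∃ p p', f p = z ∧ f p' = z' ∧ g p' ∈ oY.up (g p)`. `Total`: `fg.surj₁` and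
`up_or_up`. For `NS z z'` and `D.pos z z'` choose `a`, `b` from `pos_cusp` if `z' ∈ oX.dn z` and from
`neg_cusp` if `z' ∈ oX.up z` (`Orientation.up_or_dn`, exactly one holds: `up_not_dn`); otherwise
arbitrary (`Nonempty`). `side z z'` and `Cc z z'` are complementary: `notMem_Cc`. -/
theorem exists_data (w : Web oX oY oZ f g h) : ∃ D : CutData X Y Z, D.Total ∧
    (∀ q, (f q, g q) ∈ Sat (D.toY oY)) ∧ (∀ q, (h q, f q) ∈ Sat (D.toZ oZ)) ∧
    ∀ q, (g q, h q) ∈ Sat (D.cross oX oY oZ) := by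
  classical
  let pos : X → X → Prop := fun z z' => ∃ p p', f p = z ∧ f p' = z' ∧ g p' ∈ oY.up (g p)
  have hc : ∀ z z' : X, ∃ ab : Y × Z, NS z z' → pos z z' →
      (∀ q, f q ∈ Cc z z' → g q ∈ oY.dn ab.1 ∧ h q ∈ oZ.up ab.2) ∧
      (∀ q, f q ∈ Cc z' z → g q ∈ oY.up ab.1 ∧ h q ∈ oZ.dn ab.2) ∧
      (z' ∈ oX.dn z → ∀ q, g q ∈ oY.up ab.1 ∨ h q ∈ oZ.up ab.2) ∧
      (z' ∈ oX.up z → ∀ q, g q ∈ oY.dn ab.1 ∨ h q ∈ oZ.dn ab.2) := by
    intro z z'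
    by_cases hn : NS z z' ∧ pos z z'
    · obtain ⟨hz, p, p', hp, hp', hg⟩ := hn
      by_cases hup : z' ∈ oX.up z
      · obtain ⟨a, b, h1, h2, h3⟩ := neg_cusp w hz hup hp hp' hg
        exact ⟨(a, b), fun _ _ => ⟨h1, h2, fun hd => absurd hup (notMem_up_of_dn oX hd),
          fun _ => h3⟩⟩
      · have hdn : z' ∈ oX.dn z := (oX.up_or_dn hz.1.symm).resolve_left hup
        obtain ⟨a, b, h1, h2, h3⟩ := pos_cusp w hz hdn hp hp' hg
        exact ⟨(a, b), fun _ _ => ⟨h1, h2, fun _ => h3, fun hu => absurd hu hup⟩⟩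
    · obtain ⟨y⟩ : Nonempty Y := inferInstance
      obtain ⟨z⟩ : Nonempty Z := inferInstance
      exact ⟨(y, z), fun h1 h2 => absurd ⟨h1, h2⟩ hn⟩
  choose ab hab using hc
  refine ⟨⟨pos, fun z z' => (ab z z').1, fun z z' => (ab z z').2⟩, ?_, ?_, ?_, ?_⟩
  · intro u u' hn
    obtain ⟨p, hp⟩ := w.fg.surj₁ u
    obtain ⟨p', hp'⟩ := w.fg.surj₁ u'
    rcases up_or_up (oY := oY) w.fg hn hp hp' with h1 | h1
    · exact Or.inl ⟨p, p', hp, hp', h1⟩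
    · exact Or.inr ⟨p', p, hp', hp, h1⟩
  · rintro q c ⟨u, u', hn, hp, rfl | rfl⟩
    · by_cases h1 : f q ∈ side u u'
      · exact Or.inl h1
      · exact Or.inr ((hab u u' hn hp).1 q h1).1
    · by_cases h1 : f q ∈ side u' u
      · exact Or.inl h1
      · exact Or.inr ((hab u u' hn hp).2.1 q h1).1
  · rintro q c ⟨u, u', hn, hp, rfl | rfl⟩
    · by_cases h1 : f q ∈ side u u'
      · exact Or.inr h1
      · exact Or.inl ((hab u u' hn hp).1 q h1).2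
    · by_cases h1 : f q ∈ side u' u
      · exact Or.inr h1
      · exact Or.inl ((hab u u' hn hp).2.1 q h1).2
  · rintro q c ⟨u, u', hn, hp, ⟨h1, rfl⟩ | ⟨h1, rfl⟩⟩
    · exact (hab u u' hn hp).2.2.1 h1 q
    · exact (hab u u' hn hp).2.2.2 h1 q

/-- PROOF. `D₁`, `D₂`, `D₃` from `exists_data` for `w`, `w.rot`, `w.rot.rot`. `(f q, g q)` satisfies the
conditions of `D₁.toY`, `D₂.toZ`, `D₃.cross`, i.e. it is in `Sat (conds …)` for all `q`; the range of `(f, g)` is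
open, so it is contained in the interior (`interior_maximal`, `w.fg.isOpenMap.isOpen_range`).
`Onto`: for `x` take `q` with `f q = x`. -/
theorem cuts_of_web (w : Web oX oY oZ f g h) :
    ∃ (D₁ : CutData X Y Z) (D₂ : CutData Y Z X) (D₃ : CutData Z X Y),
      D₁.Total ∧ D₂.Total ∧ D₃.Total ∧
      Onto (interior (Sat (conds oX oY oZ D₁ D₂ D₃))) (interior (Sat (conds oY oZ oX D₂ D₃ D₁)))
        (interior (Sat (conds oZ oX oY D₃ D₁ D₂))) := by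
  obtain ⟨D₁, t₁, a₁, b₁, c₁⟩ := exists_data w
  obtain ⟨D₂, t₂, a₂, b₂, c₂⟩ := exists_data w.rot
  obtain ⟨D₃, t₃, a₃, b₃, c₃⟩ := exists_data w.rot.rot
  have m₁ : ∀ q, (f q, g q) ∈ interior (Sat (conds oX oY oZ D₁ D₂ D₃)) := by
    intro q
    refine interior_maximal ?_ w.fg.isOpenMap.isOpen_range ⟨q, rfl⟩
    rintro _ ⟨r, rfl⟩ c ((hc | hc) | hc)
    · exact a₁ r c hc
    · exact b₂ r c hc
    · exact c₃ r c hc
  have m₂ : ∀ q, (g q, h q) ∈ interior (Sat (conds oY oZ oX D₂ D₃ D₁)) := by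
    intro q
    refine interior_maximal ?_ w.gh.isOpenMap.isOpen_range ⟨q, rfl⟩
    rintro _ ⟨r, rfl⟩ c ((hc | hc) | hc)
    · exact a₂ r c hc
    · exact b₃ r c hc
    · exact c₁ r c hc
  have m₃ : ∀ q, (h q, f q) ∈ interior (Sat (conds oZ oX oY D₃ D₁ D₂)) := by
    intro q
    refine interior_maximal ?_ w.hf.isOpenMap.isOpen_range ⟨q, rfl⟩
    rintro _ ⟨r, rfl⟩ c ((hc | hc) | hc)
    · exact a₃ r c hc
    · exact b₁ r c hc
    · exact c₂ r c hc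
  refine ⟨D₁, D₂, D₃, t₁, t₂, t₃, ?_, ?_, ?_⟩
  · intro x
    obtain ⟨q, rfl⟩ := w.fg.surj₁ x
    exact ⟨g q, h q, m₁ q, m₂ q, m₃ q⟩
  · intro y
    obtain ⟨q, rfl⟩ := w.fg.surj₂ y
    exact ⟨h q, f q, m₂ q, m₃ q, m₁ q⟩
  · intro z
    obtain ⟨q, rfl⟩ := w.gh.surj₂ z
    exact ⟨f q, g q, m₃ q, m₁ q, m₂ q⟩

end Pool.Agent.LST
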