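import Pool.Agent.LST.BiApi

/-!
# LST module NecTri (size 3)

A web gives a triangle.
-/

open Set Topology Filter

namespace Pool.Agent.LST

open Pool.Agent.H86.Bifol Pool.Agent.LSP

variable {X Y Z : Type*} [TopologicalSpace X] [TopologicalSpace Y] [TopologicalSpace Z] [SCM X]
  [SCM Y] [SCM Z] {oX : Orientation X} {oY : Orientation Y} {oZ : Orientation Z}
  {f : ℝ × ℝ → X} {g : ℝ × ℝ → Y} {h : ℝ × ℝ → Z}

/-- PROOF. Let `y, y'`, `z, z'` be as in `Corner`, `B = range (g, h)`. Let `p` be the point with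
`f p = x`, `g p = y`.
`(y, z') ∈ B`: compare `z'` and `h p` on the line `{z | (z, x) ∈ C} = h '' (f ⁻¹' {x})` (`trichotomy`).
If `z' = h p` it is clear. If `z' < h p`: the line `{z | (y, z) ∈ B}` contains `z` and `h p` and
`z < z' < h p`, so it contains `z'` (`between`). If `z' > h p`: let `q` be the point with `f q = x`, `h q = z'`.
`g q ∈ oY.dn (g p)` (`w.dX'`), so `g q < y < y'` and the line `{t | (t, z') ∈ B}` contains `g q` and `y'`,
hence `y`.
`(y', z) ∈ B`: the same with the point `p'` with `f p' = x`, `g p' = y'`: if `z = h p'` clear; if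
`h p' < z`: the line `{t | (y', t) ∈ B}` contains `h p'` and `z'`, and `h p' < z < z'`. If `z < h p'`: let `q` with `f q = x`,
`h q = z`: `g q > g p' = y'` (`dX'`), and the line `{t | (t, z) ∈ B}` contains `y < y' < g q`. -/
theorem corner_of_web (w : Web oX oY oZ f g h) (x : X) :
    Corner oY oZ {y | (x, y) ∈ range fun p => (f p, g p)}
      {z | (z, x) ∈ range fun p => (h p, f p)} (range fun p => (g p, h p)) := by
  rintro y ⟨p, hp⟩ y' ⟨p', hp'⟩ z ⟨r, hr⟩ z' ⟨r', hr'⟩ hyy hzz hb hb'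
  have e1 : f p = x := congrArg Prod.fst hp
  have e2 : g p = y := congrArg Prod.snd hp
  have e3 : f p' = x := congrArg Prod.fst hp'
  have e4 : g p' = y' := congrArg Prod.snd hp'
  have e5 : h r = z := congrArg Prod.fst hr
  have e6 : f r = x := congrArg Prod.snd hr
  have e7 : h r' = z' := congrArg Prod.fst hr'
  have e8 : f r' = x := congrArg Prod.snd hr'
  have sB := w.gh.slices
  have lY : IsLine (g '' (f ⁻¹' {x})) := w.fg.line₁ x
  have lZ : IsLine (h '' (f ⁻¹' {x})) := w.hf.line₂ x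
  have my : y ∈ g '' (f ⁻¹' {x}) := ⟨p, e1, e2⟩
  have my' : y' ∈ g '' (f ⁻¹' {x}) := ⟨p', e3, e4⟩
  have mz : z ∈ h '' (f ⁻¹' {x}) := ⟨r, e6, e5⟩
  have mz' : z' ∈ h '' (f ⁻¹' {x}) := ⟨r', e8, e7⟩
  have mhp : h p ∈ h '' (f ⁻¹' {x}) := ⟨p, e1, rfl⟩
  have mhp' : h p' ∈ h '' (f ⁻¹' {x}) := ⟨p', e3, rfl⟩
  have hyd : y ∈ oY.dn y' := (up_iff_dn oY lY my my').1 hyy
  have hzd : z ∈ oZ.dn z' := (up_iff_dn oZ lZ mz mz').1 hzz
  have bp : (y, h p) ∈ range fun p => (g p, h p) := ⟨p, by simp only [e2]⟩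
  have bp' : (y', h p') ∈ range fun p => (g p, h p) := ⟨p', by simp only [e4]⟩
  constructor
  · rcases trichotomy oZ lZ mhp mz' with h1 | h1 | h1
    · rw [h1]
      exact bp
    · -- `z'` above `h p`
      have h2 : g r' ∈ oY.dn (g p) := w.dX' (e1.trans e8.symm) (by rw [e7]; exact h1)
      rw [e2] at h2
      have h3 : (g r', z') ∈ range fun p => (g p, h p) := ⟨r', by simp only [e7]⟩
      exact between oY (sB.snd z').pre h3 hb' h2 hyy
    · -- `z'` below `h p`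
      exact between oZ (sB.fst y).pre hb bp hzd h1
  · rcases trichotomy oZ lZ mhp' mz with h1 | h1 | h1
    · rw [h1]
      exact bp'
    · -- `z` above `h p'`
      have h2 : h p' ∈ oZ.dn z := (up_iff_dn oZ lZ mhp' mz).1 h1
      exact between oZ (sB.fst y').pre bp' hb' h2 hzz
    · -- `z` below `h p'`
      have h2 : g p' ∈ oY.dn (g r) := w.dX' (e6.trans e3.symm) (by rw [e5]; exact h1)
      have h3 : (g r, z) ∈ range fun p => (g p, h p) := ⟨r, by simp only [e5]⟩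
      have h4 : g r ∈ oY.up y' := by
        refine (up_iff_dn oY lY my' ⟨r, e6, rfl⟩).2 ?_
        rw [← e4]
        exact h2
      exact between oY (sB.snd z).pre hb h3 hyd h4

/-- PROOF. `Bi.slices`, `corner_of_web` for `w`, `w.rot`, `w.rot.rot`; `Onto`: for `x` take `p` with
`f p = x` (`surj₁`), `y := g p`, `z := h p`. -/
theorem tri_of_web (w : Web oX oY oZ f g h) :
    Tri oX oY oZ (range fun p => (f p, g p)) (range fun p => (g p, h p))
      (range fun p => (h p, f p)) := by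
  refine ⟨⟨w.fg.slices, w.gh.slices, w.hf.slices, corner_of_web w, corner_of_web w.rot,
    corner_of_web w.rot.rot⟩, ⟨?_, ?_, ?_⟩⟩
  · intro x
    obtain ⟨q, rfl⟩ := w.fg.surj₁ x
    exact ⟨g q, h q, ⟨q, rfl⟩, ⟨q, rfl⟩, ⟨q, rfl⟩⟩
  · intro y
    obtain ⟨q, rfl⟩ := w.fg.surj₂ y
    exact ⟨h q, f q, ⟨q, rfl⟩, ⟨q, rfl⟩, ⟨q, rfl⟩⟩
  · intro z
    obtain ⟨q, rfl⟩ := w.gh.surj₂ z
    exact ⟨f q, g q, ⟨q, rfl⟩, ⟨q, rfl⟩, ⟨q, rfl⟩⟩

end Pool.Agent.LST
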