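import Pool.Agent.LST.Sgn

/-!
# LST module Ori (size 3)

Choice of the orientations.
-/

open Set Topology Filter

namespace Pool.Agent.LST

open Pool.Agent.H86.Bifol Pool.Agent.LSP

variable {X Y Z : Type*} [TopologicalSpace X] [TopologicalSpace Y] [TopologicalSpace Z] [SCM X]
  [SCM Y] [SCM Z] {f : ℝ × ℝ → X} {g : ℝ × ℝ → Y} {h : ℝ × ℝ → Z}

/-- For a given orientation of `Z` there is one of `X` for which the fibres of `g` are decreasing.
PROOF. Take any orientation `oX₀` of `X` (`exists_orientation`). By `leaf_sign` either it works, or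
`f q ∈ oX₀.up (f p) → h q ∈ oZ.up (h p)` on fibres of `g`; then take `op oX₀`:
`f q ∈ oX₀.dn (f p)` gives `f p ∈ oX₀.up (f q)` (`Bi.up_iff` for `fg.swap`), so `h p ∈ oZ.up (h q)`, so
`h q ∈ oZ.dn (h p)` (`Bi.up_iff` for `gh`). -/
theorem exists_ori (fg : Bi f g) (gh : Bi g h) (oZ : Orientation Z) : ∃ oX : Orientation X,
    ∀ p q, g p = g q → f q ∈ oX.up (f p) → h q ∈ oZ.dn (h p) := by
  obtain ⟨up, hup⟩ := exists_orientation X
  rcases leaf_sign fg gh ⟨up, hup⟩ oZ with H | H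
  · refine ⟨op ⟨up, hup⟩, fun p q h1 h2 => ?_⟩
    rw [op_up] at h2
    have h3 : f p ∈ (⟨up, hup⟩ : Orientation X).up (f q) := (fg.swap.up_iff _ h1.symm).2 h2
    exact (gh.up_iff oZ h1.symm).1 (H q p h1.symm h3)
  · exact ⟨⟨up, hup⟩, H⟩

/-- There are two points on a fibre of `h`, such that the corner is also in the image. PROOF. Let
`p` be any point. `Φ q := (f q, g q)` is open (`fg.isOpenMap`); its image contains a box
`N × M ∋ (f p, g p)`. `O := {q | f q ∈ N ∧ g q ∈ M}` is an open neighbourhood of `p`, so its image under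
`q ↦ (h q, f q)` is a neighbourhood of `(h p, f p)` (`hf.isOpenMap`): it contains `(h p, a)` for some `a`
with `a ∈ oX.up (f p)` (`exists_above`). So there is `q ∈ O` with `h q = h p`, `f q = a`. And
`(f q, g p) ∈ N × M` is `Φ r`. -/
theorem exists_corner (fg : Bi f g) (hf : Bi h f) (oX : Orientation X) :
    ∃ p q r : ℝ × ℝ, h p = h q ∧ f q ∈ oX.up (f p) ∧ f r = f q ∧ g r = g p := by
  obtain ⟨p⟩ : Nonempty (ℝ × ℝ) := inferInstance
  have hW : IsOpen ((fun q => (f q, g q)) '' (univ : Set (ℝ × ℝ))) := fg.isOpenMap _ isOpen_univ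
  obtain ⟨N, M, hN, hM, hpN, hpM, hNM⟩ := isOpen_prod_iff.1 hW (f p) (g p) ⟨p, mem_univ _, rfl⟩
  have hO : IsOpen (f ⁻¹' N ∩ g ⁻¹' M) := (hN.preimage fg.cont₁).inter (hM.preimage fg.cont₂)
  have hV : IsOpen ((fun q => (h q, f q)) '' (f ⁻¹' N ∩ g ⁻¹' M)) := hf.isOpenMap _ hO
  obtain ⟨N', M', hN', hM', hpN', hpM', hNM'⟩ :=
    isOpen_prod_iff.1 hV (h p) (f p) ⟨p, ⟨hpN, hpM⟩, rfl⟩
  obtain ⟨a, haM, ha, -⟩ := exists_above oX hM' hpM'
  obtain ⟨q, ⟨hqN, hqM⟩, hq⟩ := hNM' (show (h p, a) ∈ N' ×ˢ M' from ⟨hpN', haM⟩)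
  obtain ⟨hq1, hq2⟩ := Prod.mk.inj hq
  obtain ⟨r, -, hr⟩ := hNM (show (f q, g p) ∈ N ×ˢ M from ⟨hqN, hpM⟩)
  obtain ⟨hr1, hr2⟩ := Prod.mk.inj hr
  exact ⟨p, q, r, hq1.symm, by rw [hq2]; exact ha, hr1, hr2⟩

/-- PROOF. Any `oZ` (`exists_orientation`), `oX` from `exists_ori fg gh oZ`, `oY` from `exists_ori`
for `fg.swap`, `hf.swap` (fibres of `f`: `g q ∈ oY.up (g p) → h q ∈ oZ.dn (h p)`): this is `dX`.
`dY`: `g p = g q`, `h q ∈ oZ.up (h p)`: `f p ≠ f q` (`fg.inj` would give `p = q`), and `f q ∈ oX.up (f p)` would give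
`h q ∈ oZ.dn (h p)`; so `f q ∈ oX.dn (f p)`.
`dZ`: `leaf_sign` for the fibres of `h` (`hf.swap : Bi f h`, `gh.swap : Bi h g`), `oX`, `oY`: the second
alternative is `dZ`. In the first alternative take `p, q, r` from `exists_corner`: `g q ∈ oY.up (g p)`.
`p, r` are on a fibre of `g` and `f r = f q ∈ oX.up (f p)`, so `h r ∈ oZ.dn (h p)`. `r, q` are on a fibre of
`f` and `g q ∈ oY.up (g p) = oY.up (g r)`, so `h q ∈ oZ.dn (h r)`, that is `h p ∈ oZ.dn (h r)`. But on the line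
`h '' (g ⁻¹' {g p})` (`gh.up_iff`) `h r ∈ oZ.dn (h p)` means `h p ∈ oZ.up (h r)`: contradiction. -/
theorem exists_web (fg : Bi f g) (gh : Bi g h) (hf : Bi h f) :
    ∃ (oX : Orientation X) (oY : Orientation Y) (oZ : Orientation Z), Web oX oY oZ f g h := by
  obtain ⟨uz, huz⟩ := exists_orientation Z
  obtain ⟨oX, HX⟩ := exists_ori fg gh ⟨uz, huz⟩
  obtain ⟨oY, HY⟩ := exists_ori fg.swap hf.swap ⟨uz, huz⟩
  refine ⟨oX, oY, ⟨uz, huz⟩, fg, gh, hf, HY, ?_, ?_⟩
  · intro p q h1 h2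
    have hne : p ≠ q := by
      rintro rfl
      exact Orientation.self_up _ _ h2
    rcases fg.swap.tri oX h1 hne with h3 | h3
    · exact absurd (HX p q h1 h3) (Orientation.up_not_dn _ h2)
    · exact h3
  · rcases leaf_sign hf.swap gh.swap oX oY with H | H
    · exfalso
      obtain ⟨p, q, r, h1, h2, h3, h4⟩ := exists_corner fg hf oX
      have h5 : g q ∈ oY.up (g p) := H p q h1 h2
      have h6 := HX p r h4.symm (by rw [h3]; exact h2)
      have h7 := HY r q h3 (by rw [h4]; exact h5)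
      rw [← h1] at h7
      exact Orientation.up_not_dn _ ((gh.up_iff _ h4.symm).2 h7) h6
    · exact H

end Pool.Agent.LST
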