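import Pool.Agent.LST.BiApi

/-!
# LST module RealT (size 3)

Three maps of the plane, pairwise `Bi`, give three transverse foliations.
-/

open Set Topology Filter

namespace Pool.Agent.LST

open Pool.Agent.H86.Bifol Pool.Agent.LSP

variable {X Y Z : Type*} [TopologicalSpace X] [TopologicalSpace Y] [TopologicalSpace Z] [SCM X]
  [SCM Y] [SCM Z] {f : ℝ × ℝ → X} {g : ℝ × ℝ → Y} {h : ℝ × ℝ → Z}

/-- PROOF. `exists_plane_box'` (LSP/RealBox) for `Ω`, `Ψ` of `Bi f g`, `(Ψ q).1 = (f q, g q)`. -/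
theorem Bi.exists_box (b : Bi f g) (p : ℝ × ℝ) :
    ∃ E : OpenPartialHomeomorph (ℝ × ℝ) (ℝ × ℝ), p ∈ E.source ∧ E.target = Square ∧
      (∀ q ∈ E.source, ∀ r ∈ E.source, f q = f r ↔ (E q).2 = (E r).2) ∧
      (∀ q ∈ E.source, ∀ r ∈ E.source, g q = g r ↔ (E q).1 = (E r).1) := by
  obtain ⟨Ω, hΩ, Ψ, hΨ⟩ := b
  obtain ⟨E, h1, h2, h3, h4⟩ := exists_plane_box' hΩ.isOpen Ψ p
  refine ⟨E, h1, h2, ?_, ?_⟩
  · intro q hq r hr
    have h5 := h3 q hq r hr
    rw [hΨ q, hΨ r] at h5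
    exact h5
  · intro q hq r hr
    have h5 := h4 q hq r hr
    rw [hΨ q, hΨ r] at h5
    exact h5

private theorem RealT_chart (b : Bi f g) (p : ℝ × ℝ) : ∃ φ, p ∈ φ.source ∧ LevelChart f φ := by
  obtain ⟨E, h1, h2, h3, -⟩ := b.exists_box p
  exact ⟨E, h1, h2, h3⟩

private theorem RealT_transverse (b : Bi f g)
    (hcf : ∀ p, ∃ φ, p ∈ φ.source ∧ LevelChart f φ)
    (hcg : ∀ p, ∃ φ, p ∈ φ.source ∧ LevelChart g φ) :
    Transverse (ofMap f hcf) (ofMap g hcg) := by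
  intro p
  obtain ⟨E, h1, h2, h3, h4⟩ := b.exists_box p
  refine ⟨E, h1, h2, ?_, ?_⟩
  · intro φ hφ q hq
    refine ⟨E.source ∩ φ.source, (E.open_source.inter φ.open_source).mem_nhds hq, ?_⟩
    intro r hr s hs
    exact (h3 r hr.1 s hs.1).symm.trans (hφ.2 r hr.2 s hs.2)
  · intro φ hφ q hq
    refine ⟨E.source ∩ φ.source, (E.open_source.inter φ.open_source).mem_nhds hq, ?_⟩
    intro r hr s hs
    exact (h4 r hr.1 s hs.1).symm.trans (hφ.2 r hr.2 s hs.2)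

/-- PROOF. See `realized_of_homeo` in LSP/Real: `ofMap f`, `ofMap g`, `ofMap h` with level charts
from `Bi.exists_box` (the first component directly, or `swapChart`), `Transverse` from the boxes of
`fg`, `hf.swap`, `gh`, `ofMap_leafSpace` from `Bi.fib₁`, `Bi.cont₁`, `Bi.open₁`, `Bi.surj₁`. -/
theorem realizedTriple_of_bi (fg : Bi f g) (gh : Bi g h) (hf : Bi h f) :
    RealizedTriple X Y Z :=
  ⟨ofMap f (RealT_chart fg), ofMap g (RealT_chart gh), ofMap h (RealT_chart hf),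
    RealT_transverse fg _ _, RealT_transverse hf.swap _ _, RealT_transverse gh _ _,
    ofMap_leafSpace _ fg.fib₁ fg.cont₁ fg.open₁ fg.surj₁,
    ofMap_leafSpace _ gh.fib₁ gh.cont₁ gh.open₁ gh.surj₁,
    ofMap_leafSpace _ hf.fib₁ hf.cont₁ hf.open₁ hf.surj₁⟩

end Pool.Agent.LST
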