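import Pool.Agent.LST.Ord

/-!
# LST module Upg (size 4)

From a triangle to a full triangle.
-/

open Set Topology Filter

namespace Pool.Agent.LST

open Pool.Agent.H86.Bifol Pool.Agent.LSP

variable {X Y Z : Type*} [TopologicalSpace X] [TopologicalSpace Y] [TopologicalSpace Z] [SCM X]
  [SCM Y] [SCM Z] {oX : Orientation X} {oY : Orientation Y} {oZ : Orientation Z} {A : Set (X × Y)}
  {B : Set (Y × Z)} {C : Set (Z × X)}

/-- The elements of `A` which are completed by a third coordinate. -/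
def Core (A : Set (X × Y)) (B : Set (Y × Z)) (C : Set (Z × X)) : Set (X × Y) :=
  {p | p ∈ A ∧ ∃ z, (p.2, z) ∈ B ∧ (z, p.1) ∈ C}

/-- **Key lemma.** PROOF. Suppose `y ∉ J := {y | (x, y) ∈ Core A B C}`. Let
`ℓ := {y | (x, y) ∈ A}`, `ℓ' := {z | (z, x) ∈ C}` (lines), `D := {(y, z) ∈ B | y ∈ ℓ, z ∈ ℓ'}`. Take `z₁, z₂ ∈ ℓ'`
with `(y₁, z₁), (y₂, z₂) ∈ B`. For every `z ∈ ℓ'` we have `(y, z) ∉ B`.
(0) `z₁ ≠ z₂`: otherwise the line `{y | (y, z₁) ∈ B}` contains `y₁, y₂`, hence `y` (`between`). And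
`z₂ ∉ oZ.up z₁`: otherwise `h.cX x` gives `(y₁, z₂) ∈ B`, and the line `{y | (y, z₂) ∈ B}` contains
`y₁, y₂`, hence `y`. So `z₁ ∈ oZ.up z₂` (`trichotomy`).
(1) Write `y ≤ y''` for `y'' = y ∨ y'' ∈ oY.up y`. Let
`U := {z ∈ ℓ' | no (y'', z'') ∈ D with y ≤ y'', z ≤ z''}`,
`L := {z ∈ ℓ' | no (y'', z'') ∈ D with y'' ≤ y, z'' ≤ z}`. Every `z ∈ ℓ'` is in `U ∪ L`: otherwise there are
`(y'', z'') ∈ D` above and `(y''', z''') ∈ D` below `(y, z)`; `y'' ≠ y ≠ y'''` (`y ∉ J`); if `z''' < z''` the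
corner condition gives `(y''', z'') ∈ B`, if `z''' = z''` it is given; the line `{y | (y, z'') ∈ B}`
contains `y'''` and `y''`, hence `y`: contradiction.
(2) `z₂ ∉ U`, `z₁ ∉ L`, so `z₁ ∈ U`, `z₂ ∈ L`. `ℓ' \ U` and `ℓ' \ L` are open: if `z ∈ ℓ' \ U`, witness
`(y'', z'')`; if `z < z''` a neighbourhood of `z` works with the same witness (`oZ.dn z''` is open); if
`z = z''`, `D` is open (in the second coordinate) and for `z*` near `z` the witness is `(y'', z*)`.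
They are disjoint by (1). If `U ∩ L = ∅` they cover the connected set `ℓ'` and both are
nonempty: contradiction. So there is `z₀ ∈ U ∩ L`.
(3) For all `t ∈ ℓ`: `(t, z₀) ∉ B` (`(t, z₀) ∈ D` contradicts `z₀ ∈ L` if `t ≤ y` and `z₀ ∈ U` if `y ≤ t`). So the
connected set `B_t := {z | (t, z) ∈ B}` (nonempty) is contained in `oZ.up z₀` or in `oZ.dn z₀` (`between`).
`ℓ⁺ := {t ∈ ℓ | B_t meets oZ.up z₀}`, `ℓ⁻ := {t ∈ ℓ | B_t meets oZ.dn z₀}` are open, disjoint and cover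
the connected set `ℓ`. But `y₁ ∈ ℓ⁺`: `z₁ ∈ B_{y₁}`, and `z₁ ∈ oZ.up z₀` because otherwise
`z₁ ≤ z₀`, `y₁ ≤ y` contradicts `z₀ ∈ L`. In the same way `y₂ ∈ ℓ⁻`. Contradiction. -/
theorem core_conv (h : Tri oX oY oZ A B C) {x : X} {y₁ y y₂ : Y} (h1 : (x, y₁) ∈ Core A B C)
    (h2 : (x, y₂) ∈ Core A B C) (hy : (x, y) ∈ A) (h3 : y ∈ oY.up y₁) (h4 : y₂ ∈ oY.up y) :
    (x, y) ∈ Core A B C := by
  by_contra hcon
  obtain ⟨a1, z₁, b1, c1⟩ := h1
  obtain ⟨a2, z₂, b2, c2⟩ := h2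
  simp only at a1 b1 c1 a2 b2 c2
  have hℓ : IsLine {t | (x, t) ∈ A} := h.sA.fst x
  have hℓ' : IsLine {t | (t, x) ∈ C} := h.sC.snd x
  have hno : ∀ z, (z, x) ∈ C → (y, z) ∉ B := fun z hz hb => hcon ⟨hy, z, hb, hz⟩
  have hy1 : y₁ ∈ oY.dn y := (up_iff_dn oY hℓ a1 hy).1 h3
  have hbt : ∀ z, (z, x) ∈ C → ∀ s t, (s, z) ∈ B → (t, z) ∈ B → s ∈ oY.dn y → t ∈ oY.up y →
      False := by
    intro z hz s t hs ht hsd htu
    exact hno z hz (between oY (h.sB.snd z).pre hs ht hsd htu)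
  -- (0)
  have h12 : z₁ ∈ oZ.up z₂ := by
    rcases trichotomy oZ hℓ' c1 c2 with e | e | e
    · rw [e] at b2
      exact (hbt _ c1 _ _ b1 b2 hy1 h4).elim
    · have hup : y₂ ∈ oY.up y₁ := up_trans oY hℓ a1 hy a2 h3 h4
      have := (h.cX x y₁ a1 y₂ a2 z₁ c1 z₂ c2 hup e b1 b2).1
      exact (hbt _ c2 _ _ this b2 hy1 h4).elim
    · exact e
  have h21 : z₂ ∈ oZ.dn z₁ := (up_iff_dn oZ hℓ' c2 c1).1 h12
  -- (1)
  let U : Z → Prop := fun z => ∀ y'' z'', (y'', z'') ∈ B → (x, y'') ∈ A → (z'', x) ∈ C →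
    (y'' = y ∨ y'' ∈ oY.up y) → (z'' = z ∨ z'' ∈ oZ.up z) → False
  let L : Z → Prop := fun z => ∀ y'' z'', (y'', z'') ∈ B → (x, y'') ∈ A → (z'', x) ∈ C →
    (y'' = y ∨ y'' ∈ oY.dn y) → (z'' = z ∨ z'' ∈ oZ.dn z) → False
  have hUL : ∀ z, (z, x) ∈ C → U z ∨ L z := by
    intro z hz
    by_contra hc
    push Not at hc
    obtain ⟨hU, hL⟩ := hc
    simp only [U, L, not_forall] at hU hL
    obtain ⟨p, q, hpq, hp, hq, hp', hq', -⟩ := hU
    obtain ⟨r, s, hrs, hr, hs, hr', hs', -⟩ := hL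
    have hp2 : p ∈ oY.up y := by
      rcases hp' with e | e
      · rw [e] at hpq
        exact (hno q hq hpq).elim
      · exact e
    have hr2 : r ∈ oY.dn y := by
      rcases hr' with e | e
      · rw [e] at hrs
        exact (hno s hs hrs).elim
      · exact e
    have hsq : q = s ∨ q ∈ oZ.up s := by
      rcases hs' with e | e
      · rw [e]
        exact hq'
      · have e' : z ∈ oZ.up s := (up_iff_dn oZ hℓ' hs hz).2 e
        rcases hq' with e2 | e2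
        · rw [e2]
          exact Or.inr e'
        · exact Or.inr (up_trans oZ hℓ' hs hz hq e' e2)
    have hrq : (r, q) ∈ B := by
      rcases hsq with e | e
      · rw [e]
        exact hrs
      · have hyr : y ∈ oY.up r := (up_iff_dn oY hℓ hr hy).2 hr2
        have hpr : p ∈ oY.up r := up_trans oY hℓ hr hy hp hyr hp2
        exact (h.cX x r hr p hp s hs q hq hpr e hrs hpq).1
    exact hbt q hq r p hrq hpq hr2 hp2
  -- (2)
  obtain ⟨z₀, hz₀, hU, hL⟩ : ∃ z₀, (z₀, x) ∈ C ∧ U z₀ ∧ L z₀ := by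
    by_contra hne
    push Not at hne
    have ou : IsOpen {z | (z, x) ∈ C ∧ ¬ U z} := by
      rw [isOpen_iff_mem_nhds]
      rintro z ⟨hz, hUz⟩
      simp only [U, not_forall] at hUz
      obtain ⟨p, q, hpq, hp, hq, hp', hq', -⟩ := hUz
      rcases hq' with e | e
      · subst e
        filter_upwards [hℓ'.isOpen.mem_nhds hz, (h.sB.fst p).isOpen.mem_nhds hpq] with t ht ht'
        exact ⟨ht, fun hU => hU p t ht' hp ht hp' (Or.inl rfl)⟩
      · filter_upwards [hℓ'.isOpen.mem_nhds hz, (oZ.isOpen_dn q).mem_nhds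
          ((up_iff_dn oZ hℓ' hz hq).1 e)] with t ht ht'
        exact ⟨ht, fun hU => hU p q hpq hp hq hp' (Or.inr ((up_iff_dn oZ hℓ' ht hq).2 ht'))⟩
    have ov : IsOpen {z | (z, x) ∈ C ∧ ¬ L z} := by
      rw [isOpen_iff_mem_nhds]
      rintro z ⟨hz, hLz⟩
      simp only [L, not_forall] at hLz
      obtain ⟨p, q, hpq, hp, hq, hp', hq', -⟩ := hLz
      rcases hq' with e | e
      · subst e
        filter_upwards [hℓ'.isOpen.mem_nhds hz, (h.sB.fst p).isOpen.mem_nhds hpq] with t ht ht'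
        exact ⟨ht, fun hL => hL p t ht' hp ht hp' (Or.inl rfl)⟩
      · filter_upwards [hℓ'.isOpen.mem_nhds hz, (oZ.isOpen_up q).mem_nhds
          ((up_iff_dn oZ hℓ' hq hz).2 e)] with t ht ht'
        exact ⟨ht, fun hL => hL p q hpq hp hq hp' (Or.inr ((up_iff_dn oZ hℓ' hq ht).1 ht'))⟩
    obtain ⟨z, -, ⟨hz1, hz2⟩, -, hz3⟩ := hℓ'.pre _ _ ou ov (fun z hz => by
      by_cases hUz : U z
      · exact Or.inr ⟨hz, hne z hz hUz⟩
      · exact Or.inl ⟨hz, hUz⟩)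
      ⟨z₂, c2, c2, fun hU => hU y₂ z₂ b2 a2 c2 (Or.inr h4) (Or.inl rfl)⟩
      ⟨z₁, c1, c1, fun hL => hL y₁ z₁ b1 a1 c1 (Or.inr hy1) (Or.inl rfl)⟩
    rcases hUL z hz1 with e | e
    · exact hz2 e
    · exact hz3 e
  -- (3)
  have hz0 : ∀ t, (x, t) ∈ A → (t, z₀) ∉ B := by
    intro t ht hb
    rcases trichotomy oY hℓ hy ht with e | e | e
    · exact hU t z₀ hb ht hz₀ (Or.inl e) (Or.inl rfl)
    · exact hU t z₀ hb ht hz₀ (Or.inr e) (Or.inl rfl)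
    · exact hL t z₀ hb ht hz₀ (Or.inr ((up_iff_dn oY hℓ ht hy).1 e)) (Or.inl rfl)
  have ou : IsOpen {t | (x, t) ∈ A ∧ ∃ z, (t, z) ∈ B ∧ z ∈ oZ.up z₀} := by
    rw [isOpen_iff_mem_nhds]
    rintro t ⟨ht, z, hz, hz'⟩
    filter_upwards [hℓ.isOpen.mem_nhds ht, (h.sB.snd z).isOpen.mem_nhds hz] with s hs hs'
    exact ⟨hs, z, hs', hz'⟩
  have ov : IsOpen {t | (x, t) ∈ A ∧ ∃ z, (t, z) ∈ B ∧ z ∈ oZ.dn z₀} := by
    rw [isOpen_iff_mem_nhds]
    rintro t ⟨ht, z, hz, hz'⟩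
    filter_upwards [hℓ.isOpen.mem_nhds ht, (h.sB.snd z).isOpen.mem_nhds hz] with s hs hs'
    exact ⟨hs, z, hs', hz'⟩
  have m1 : z₁ ∈ oZ.up z₀ := by
    rcases trichotomy oZ hℓ' hz₀ c1 with e | e | e
    · rw [e] at b1
      exact (hz0 y₁ a1 b1).elim
    · exact e
    · exact (hL y₁ z₁ b1 a1 c1 (Or.inr hy1) (Or.inr ((up_iff_dn oZ hℓ' c1 hz₀).1 e))).elim
  have m2 : z₂ ∈ oZ.dn z₀ := by
    rcases trichotomy oZ hℓ' hz₀ c2 with e | e | e
    · rw [e] at b2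
      exact (hz0 y₂ a2 b2).elim
    · exact (hU y₂ z₂ b2 a2 c2 (Or.inr h4) (Or.inr e)).elim
    · exact (up_iff_dn oZ hℓ' c2 hz₀).1 e
  obtain ⟨t, ht, ⟨-, z, hz, hz'⟩, -, w, hw, hw'⟩ := hℓ.pre _ _ ou ov (fun t ht => by
    obtain ⟨z, hz⟩ := (h.sB.fst t).nonempty
    have hne : z ≠ z₀ := by
      rintro rfl
      exact hz0 t ht hz
    rcases oZ.up_or_dn hne with e | e
    · exact Or.inl ⟨ht, z, hz, e⟩
    · exact Or.inr ⟨ht, z, hz, e⟩) ⟨y₁, a1, a1, z₁, b1, m1⟩ ⟨y₂, a2, a2, z₂, b2, m2⟩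
  exact hz0 t ht (between oZ (h.sB.fst t).pre hw hz hw' hz')

/-- The same for the second slices. PROOF. Apply `core_conv` to the triangle obtained by exchanging
`X` and `Y`: `Tri oY oX oZ (swap ⁻¹' A) (swap ⁻¹' C) (swap ⁻¹' B)` (all fields are those of `h` with
the coordinates exchanged; `Slices.swap`). -/
theorem core_conv' (h : Tri oX oY oZ A B C) {y : Y} {x₁ x x₂ : X} (h1 : (x₁, y) ∈ Core A B C)
    (h2 : (x₂, y) ∈ Core A B C) (hx : (x, y) ∈ A) (h3 : x ∈ oX.up x₁) (h4 : x₂ ∈ oX.up x) :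
    (x, y) ∈ Core A B C := by
  have key : ∀ x y, (y, x) ∈ Core (Prod.swap ⁻¹' A : Set (Y × X)) (Prod.swap ⁻¹' C : Set (X × Z))
      (Prod.swap ⁻¹' B : Set (Z × Y)) ↔ (x, y) ∈ Core A B C := by
    intro x y
    constructor
    · rintro ⟨a, z, b, c⟩
      exact ⟨a, z, c, b⟩
    · rintro ⟨a, z, b, c⟩
      exact ⟨a, z, c, b⟩
  have h' : Tri oY oX oZ (Prod.swap ⁻¹' A : Set (Y × X)) (Prod.swap ⁻¹' C : Set (X × Z))
      (Prod.swap ⁻¹' B : Set (Z × Y)) := by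
    refine { sA := h.sA.swap, sB := h.sC.swap, sC := h.sB.swap, cX := ?_, cY := ?_, cZ := ?_,
             eX := ?_, eY := ?_, eZ := ?_ }
    · intro y x hx x' hx' z hz z' hz' hxx hzz hb hb'
      exact (h.cY y z hz z' hz' x hx x' hx' hzz hxx hb hb').symm
    · intro x z hz z' hz' y hy y' hy' hzz hyy hb hb'
      exact (h.cX x y hy y' hy' z hz z' hz' hyy hzz hb hb').symm
    · intro z y hy y' hy' x hx x' hx' hyy hxx hb hb'
      exact (h.cZ z x hx x' hx' y hy y' hy' hxx hyy hb hb').symm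
    · intro y
      obtain ⟨z, x, h1, h2, h3⟩ := h.eY y
      exact ⟨x, z, h3, h2, h1⟩
    · intro x
      obtain ⟨y, z, h1, h2, h3⟩ := h.eX x
      exact ⟨z, y, h3, h2, h1⟩
    · intro z
      obtain ⟨x, y, h1, h2, h3⟩ := h.eZ z
      exact ⟨y, x, h3, h2, h1⟩
  exact (key x y).1 (core_conv h' ((key x₁ y).2 h1) ((key x₂ y).2 h2) hx h3 h4)

/-- PROOF. Open: the image of an open set under the projection `X × Y × Z → X × Y` (or: for
`(x, y)`, `z` fixed, the conditions `(x, y) ∈ A`, `(y, z) ∈ B`, `(z, x) ∈ C` are open). Slices: open,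
nonempty by `h.eX`, `h.eY`, separated because contained in slices of `A`, preconnected by
`isPreconnected_of_conv` (Ord) and `core_conv`, `core_conv'`. -/
theorem slices_core (h : Tri oX oY oZ A B C) : Slices (Core A B C) := by
  have ho : IsOpen (Core A B C) := by
    rw [isOpen_iff_mem_nhds]
    rintro ⟨x, y⟩ ⟨ha, z, hb, hc⟩
    have h1 : {p : X × Y | (p.2, z) ∈ B} ∈ 𝓝 (x, y) :=
      ((h.sB.isOpen.preimage (by fun_prop : Continuous fun p : X × Y => (p.2, z))).mem_nhds hb)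
    have h2 : {p : X × Y | (z, p.1) ∈ C} ∈ 𝓝 (x, y) :=
      ((h.sC.isOpen.preimage (by fun_prop : Continuous fun p : X × Y => (z, p.1))).mem_nhds hc)
    filter_upwards [h.sA.isOpen.mem_nhds ha, h1, h2] with p p1 p2 p3
    exact ⟨p1, z, p2, p3⟩
  refine ⟨ho, fun x => ?_, fun y => ?_⟩
  · have o1 : IsOpen {y | (x, y) ∈ Core A B C} := ho.preimage (Continuous.prodMk_right x)
    refine ⟨o1, isPreconnected_of_conv oY (h.sA.fst x) (fun y hy => hy.1) o1 ?_, ?_, ?_⟩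
    · intro y₁ h1 y₂ h2 y hy h3 h4
      exact core_conv h h1 h2 hy h3 h4
    · obtain ⟨y, z, h1, h2, h3⟩ := h.eX x
      exact ⟨y, h1, z, h2, h3⟩
    · intro a ha b hb hab
      exact (h.sA.fst x).sep a ha.1 b hb.1 hab
  · have o1 : IsOpen {x | (x, y) ∈ Core A B C} := ho.preimage (Continuous.prodMk_left y)
    refine ⟨o1, isPreconnected_of_conv oX (h.sA.snd y) (fun x hx => hx.1) o1 ?_, ?_, ?_⟩
    · intro x₁ h1 x₂ h2 x hx h3 h4
      exact core_conv' h h1 h2 hx h3 h4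
    · obtain ⟨z, x, h1, h2, h3⟩ := h.eY y
      exact ⟨x, h3, z, h1, h2⟩
    · intro a ha b hb hab
      exact (h.sA.snd y).sep a ha.1 b hb.1 hab

/-- PROOF. `A' := Core A B C`, `B' := Core B C A`, `C' := Core C A B`; `slices_core` for `h`, `h.rot`,
`h.rot.rot`. Corner conditions: `(y, z), (y', z') ∈ B'`, `y, y' ∈ {y | (x, y) ∈ A'}`, … : the corner
condition of `h` gives `(y, z') ∈ B`; `x` completes it: `(z', x) ∈ C` and `(x, y) ∈ A`, so `(y, z') ∈ B'`.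
`Full`: if `(x, y) ∈ A'` and `z` completes it then `(y, z) ∈ B'` (completed by `x`) and
`(z, x) ∈ C'` (completed by `y`). -/
theorem upgrade (h : Tri oX oY oZ A B C) :
    ∃ A' B' C', Conv oX oY oZ A' B' C' ∧ Full A' B' C' := by
  refine ⟨Core A B C, Core B C A, Core C A B, ⟨slices_core h, slices_core h.rot,
    slices_core h.rot.rot, ?_, ?_, ?_⟩, ⟨?_, ?_, ?_⟩⟩
  · intro x y hy y' hy' z hz z' hz' hyy hzz hb hb'
    have := h.cX x y hy.1 y' hy'.1 z hz.1 z' hz'.1 hyy hzz hb.1 hb'.1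
    exact ⟨⟨this.1, x, hz'.1, hy.1⟩, ⟨this.2, x, hz.1, hy'.1⟩⟩
  · intro y z hz z' hz' x hx x' hx' hzz hxx hb hb'
    have := h.cY y z hz.1 z' hz'.1 x hx.1 x' hx'.1 hzz hxx hb.1 hb'.1
    exact ⟨⟨this.1, y, hx'.1, hz.1⟩, ⟨this.2, y, hx.1, hz'.1⟩⟩
  · intro z x hx x' hx' y hy y' hy' hxx hyy hb hb'
    have := h.cZ z x hx.1 x' hx'.1 y hy.1 y' hy'.1 hxx hyy hb.1 hb'.1
    exact ⟨⟨this.1, z, hy'.1, hx.1⟩, ⟨this.2, z, hy.1, hx'.1⟩⟩
  · rintro x y ⟨ha, z, hb, hc⟩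
    exact ⟨z, ⟨hb, x, hc, ha⟩, ⟨hc, y, ha, hb⟩⟩
  · rintro y z ⟨hb, x, hc, ha⟩
    exact ⟨x, ⟨hc, y, ha, hb⟩, ⟨ha, z, hb, hc⟩⟩
  · rintro z x ⟨hc, y, ha, hb⟩
    exact ⟨y, ⟨ha, z, hb, hc⟩, ⟨hb, x, hc, ha⟩⟩

end Pool.Agent.LST
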