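import Pool.Agent.LST.Maps
import Pool.Agent.LST.RealT
import Pool.Agent.LST.BiOf
import Pool.Agent.LST.Ori
import Pool.Agent.LST.NecTri
import Pool.Agent.LST.NecCut
import Pool.Agent.LST.CTri
import Pool.Agent.LST.FinA
import Pool.Agent.LST.FinB
import Pool.Agent.LST.Upg

/-!
# LST module Main: the criterion
-/

open Set Topology Filter

namespace Pool.Agent.LST

open Pool.Agent.H86.Bifol Pool.Agent.LSP

variable {X Y Z : Type*} [TopologicalSpace X] [TopologicalSpace Y] [TopologicalSpace Z] [SCM X]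
  [SCM Y] [SCM Z]

theorem realizedTriple_of_tri [SecondCountableTopology X] [SecondCountableTopology Y]
    [SecondCountableTopology Z] {oX : Orientation X} {oY : Orientation Y} {oZ : Orientation Z}
    {A : Set (X × Y)} {B : Set (Y × Z)} {C : Set (Z × X)} (h : Tri oX oY oZ A B C) :
    RealizedTriple X Y Z := by
  obtain ⟨A', B', C', hc, hf⟩ := upgrade h
  obtain ⟨f, g, h, fg, gh, hf⟩ := exists_maps hc hf
  exact realizedTriple_of_bi fg gh hf

theorem exists_web_of_realizedTriple (hr : RealizedTriple X Y Z) :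
    ∃ (oX : Orientation X) (oY : Orientation Y) (oZ : Orientation Z) (f : ℝ × ℝ → X)
      (g : ℝ × ℝ → Y) (h : ℝ × ℝ → Z), Web oX oY oZ f g h := by
  obtain ⟨f, g, h, fg, gh, hf⟩ := exists_bi_of_realizedTriple hr
  obtain ⟨oX, oY, oZ, w⟩ := exists_web fg gh hf
  exact ⟨oX, oY, oZ, f, g, h, w⟩

/-- Triangles of sets with line slices. -/
theorem realizedTriple_iff_tri [SecondCountableTopology X] [SecondCountableTopology Y]
    [SecondCountableTopology Z] : RealizedTriple X Y Z ↔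
      ∃ (oX : Orientation X) (oY : Orientation Y) (oZ : Orientation Z) (A : Set (X × Y))
        (B : Set (Y × Z)) (C : Set (Z × X)), Tri oX oY oZ A B C := by
  constructor
  · intro hr
    obtain ⟨oX, oY, oZ, f, g, h, w⟩ := exists_web_of_realizedTriple hr
    exact ⟨oX, oY, oZ, _, _, _, tri_of_web w⟩
  · rintro ⟨oX, oY, oZ, A, B, C, h⟩
    exact realizedTriple_of_tri h

theorem hasCuts_of_realizedTriple (hr : RealizedTriple X Y Z) : HasCuts X Y Z := by
  obtain ⟨oX, oY, oZ, f, g, h, w⟩ := exists_web_of_realizedTriple hr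
  obtain ⟨D₁, D₂, D₃, hD⟩ := cuts_of_web w
  exact ⟨oX, oY, oZ, D₁, D₂, D₃, hD⟩

/-- **The criterion, all triples.** -/
theorem realizedTriple_iff_cuts [SecondCountableTopology X] [SecondCountableTopology Y]
    [SecondCountableTopology Z] : RealizedTriple X Y Z ↔ HasCuts X Y Z := by
  refine ⟨hasCuts_of_realizedTriple, ?_⟩
  rintro ⟨oX, oY, oZ, D₁, D₂, D₃, t₁, t₂, t₃, h⟩
  exact realizedTriple_of_tri (tri_of_cuts t₁ t₂ t₃ h)

/-- **Necessity of the compatibility conditions, all triples.** -/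
theorem compatCuts_of_realizedTriple (hr : RealizedTriple X Y Z) : HasCompatCuts X Y Z := by
  obtain ⟨oX, oY, oZ, D₁, D₂, D₃, t₁, t₂, t₃, h⟩ := hasCuts_of_realizedTriple hr
  refine ⟨oX, oY, oZ, D₁, D₂, D₃, t₁, t₂, t₃, compat_of_onto ⟨?_, ?_, ?_⟩⟩
  · intro x
    obtain ⟨y, z, h1, h2, h3⟩ := h.eX x
    exact ⟨y, z, interior_subset h1, interior_subset h2, interior_subset h3⟩
  · intro x
    obtain ⟨y, z, h1, h2, h3⟩ := h.eY x
    exact ⟨y, z, interior_subset h1, interior_subset h2, interior_subset h3⟩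
  · intro x
    obtain ⟨y, z, h1, h2, h3⟩ := h.eZ x
    exact ⟨y, z, interior_subset h1, interior_subset h2, interior_subset h3⟩

/-- **The finite criterion.** -/
theorem realizedTriple_iff_of_finType [SecondCountableTopology X] [SecondCountableTopology Y]
    [SecondCountableTopology Z] (hX : FinType X) (hY : FinType Y) (hZ : FinType Z) :
    RealizedTriple X Y Z ↔ HasCompatCuts X Y Z := by
  refine ⟨compatCuts_of_realizedTriple, ?_⟩
  rintro ⟨oX, oY, oZ, D₁, D₂, D₃, t₁, t₂, t₃, h⟩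
  have f₁ := finite_conds hX hY hZ oX oY oZ D₁ D₂ D₃
  have f₂ := finite_conds hY hZ hX oY oZ oX D₂ D₃ D₁
  have f₃ := finite_conds hZ hX hY oZ oX oY D₃ D₁ D₂
  have h1 := isHalfSpace_conds (oX := oX) (oY := oY) (oZ := oZ) (D₁ := D₁) (D₂ := D₂) (D₃ := D₃)
  have h2 := isHalfSpace_conds (oX := oY) (oY := oZ) (oZ := oX) (D₁ := D₂) (D₂ := D₃) (D₃ := D₁)
  have h3 := isHalfSpace_conds (oX := oZ) (oY := oX) (oZ := oY) (D₁ := D₃) (D₂ := D₁) (D₃ := D₂)
  have ho := onto_of_compat f₁ f₂ f₃ h1 h2 h3 h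
  refine realizedTriple_iff_cuts.2 ⟨oX, oY, oZ, D₁, D₂, D₃, t₁, t₂, t₃, ?_⟩
  rw [(isOpen_Sat f₁ h1).interior_eq, (isOpen_Sat f₂ h2).interior_eq,
    (isOpen_Sat f₃ h3).interior_eq]
  exact ho

end Pool.Agent.LST
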