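import Pool.Agent.LST.Zero
import Pool.Agent.LST.BiApi

/-!
# LST module Maps (size 3)

From a full triangle to three maps of the plane.
-/

open Set Topology Filter

namespace Pool.Agent.LST

open Pool.Agent.H86.Bifol Pool.Agent.LSP

variable {X Y Z : Type*} [TopologicalSpace X] [TopologicalSpace Y] [TopologicalSpace Z] [SCM X]
  [SCM Y] [SCM Z] {oX : Orientation X} {oY : Orientation Y} {oZ : Orientation Z} {A : Set (X × Y)}
  {B : Set (Y × Z)} {C : Set (Z × X)}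

private theorem Maps_corner {oY : Orientation Y} {oZ : Orientation Z} {I : Set Y} {J : Set Z}
    {B : Set (Y × Z)} (hI : IsLine I) (hJ : IsLine J) (h : Corner oY oZ I J B) :
    Corner (op oY) (op oZ) I J B := by
  intro y hy y' hy' z hz z' hz' h1 h2 h3 h4
  rw [op_up] at h1 h2
  have h5 : y ∈ oY.up y' := (up_iff_dn oY hI hy' hy).2 h1
  have h6 : z ∈ oZ.up z' := (up_iff_dn oZ hJ hz' hz).2 h2
  have h7 := h y' hy' y hy z' hz' z hz h5 h6 h4 h3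
  exact ⟨h7.2, h7.1⟩

omit [SCM X] [SCM Y] in
private theorem Maps_bi {Ω : Set (X × Y)} (hΩ : Slices Ω) (f : ℝ × ℝ → X) (g : ℝ × ℝ → Y)
    (hf : Continuous f) (hg : Continuous g) (hm : ∀ q, (f q, g q) ∈ Ω) (inv : Ω → ℝ × ℝ)
    (hinv : Continuous inv) (hl : ∀ q, inv ⟨(f q, g q), hm q⟩ = q)
    (hr : ∀ p : Ω, (f (inv p), g (inv p)) = p.1) : Bi f g :=
  ⟨Ω, hΩ,
    { toFun := fun q => ⟨(f q, g q), hm q⟩
      invFun := inv
      left_inv := hl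
      right_inv := fun p => Subtype.ext (hr p)
      continuous_toFun := (hf.prodMk hg).subtype_mk _
      continuous_invFun := hinv }, fun _ => rfl⟩

/-- PROOF. Corner conditions: `y' ∈ (op oY).up y = oY.dn y` on the line of the slice gives
`y ∈ oY.up y'` (`up_iff_dn`), the same for `z`; apply the corner condition with the two points
exchanged. -/
theorem Conv.op (h : Conv oX oY oZ A B C) : Conv (op oX) (op oY) (op oZ) A B C :=
  ⟨h.sA, h.sB, h.sC, fun x => Maps_corner (h.sA.fst x) (h.sC.snd x) (h.cX x),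
    fun y => Maps_corner (h.sB.fst y) (h.sA.snd y) (h.cY y),
    fun z => Maps_corner (h.sC.fst z) (h.sB.snd z) (h.cZ z)⟩

/-- PROOF. `m`, `n` from `exists_height` for `h`, `h.op`. `σ₁ : X → Y → Z`, `σ₂ : Y → Z → X`,
`σ₃ : Z → X → Y` from `exists_sigma` for `(A, B, C)`, and for the rotations (`Height.rot`,
`Conv.rot`, `Full.rot`; the functions are `fun y z x => m x y z` etc.). `Ψ : ℝ × ℝ ≃ₜ A` from
`Pool.Agent.LSP.plane h.sA` (symm). `f q := (Ψ q).1.1`, `g q := (Ψ q).1.2`, `h q := σ₁ (f q) (g q)`.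
`Bi f g` with `Ω = A`. `Bi g h` with `Ω = B`: the homeomorphism is `q ↦ (g q, h q)` with the inverse
`(y, z) ↦ Ψ.symm (σ₂ y z, y)`; they are inverse to each other by the uniqueness clauses
(`(f q, g q, h q) ∈ Mh` has `m = n`, so `f q = σ₂ (g q) (h q)`; and `z = σ₁ (σ₂ y z) y`). `Bi h f` with `Ω = C`
and the inverse `(z, x) ↦ Ψ.symm (x, σ₃ z x)`. -/
theorem exists_maps [SecondCountableTopology X] [SecondCountableTopology Y]
    [SecondCountableTopology Z] (h : Conv oX oY oZ A B C) (hf : Full A B C) :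
    ∃ (f : ℝ × ℝ → X) (g : ℝ × ℝ → Y) (h : ℝ × ℝ → Z), Bi f g ∧ Bi g h ∧ Bi h f := by
  obtain ⟨m, hm⟩ := exists_height h
  obtain ⟨n, hn⟩ := exists_height h.op
  obtain ⟨σ₁, a1, a2, a3⟩ := exists_sigma h hf hm hn
  obtain ⟨σ₂, b1, b2, b3⟩ := exists_sigma h.rot hf.rot hm.rot hn.rot
  obtain ⟨σ₃, c1, c2, c3⟩ := exists_sigma h.rot.rot hf.rot.rot hm.rot.rot hn.rot.rot
  obtain ⟨Φ⟩ := Pool.Agent.LSP.plane h.sA
  have hcf : Continuous fun q => (Φ.symm q).1.1 :=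
    (continuous_fst.comp continuous_subtype_val).comp Φ.symm.continuous
  have hcg : Continuous fun q => (Φ.symm q).1.2 :=
    (continuous_snd.comp continuous_subtype_val).comp Φ.symm.continuous
  have hck : Continuous fun q => σ₁ (Φ.symm q).1.1 (Φ.symm q).1.2 :=
    a3.comp_continuous (continuous_subtype_val.comp Φ.symm.continuous) (fun q => (Φ.symm q).2)
  have hM : ∀ q, ((Φ.symm q).1.1, (Φ.symm q).1.2, σ₁ (Φ.symm q).1.1 (Φ.symm q).1.2) ∈ Mh A B C ∧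
      m (Φ.symm q).1.1 (Φ.symm q).1.2 (σ₁ (Φ.symm q).1.1 (Φ.symm q).1.2) =
      n (Φ.symm q).1.1 (Φ.symm q).1.2 (σ₁ (Φ.symm q).1.1 (Φ.symm q).1.2) := fun q =>
    a1 _ _ (Φ.symm q).2
  have hF : ∀ q, (Φ.symm q).1.1 = σ₂ (Φ.symm q).1.2 (σ₁ (Φ.symm q).1.1 (Φ.symm q).1.2) := fun q =>
    b2 _ _ _ ⟨(hM q).1.2.1, (hM q).1.2.2, (hM q).1.1⟩ (hM q).2
  have hG : ∀ q, (Φ.symm q).1.2 = σ₃ (σ₁ (Φ.symm q).1.1 (Φ.symm q).1.2) (Φ.symm q).1.1 := fun q =>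
    c2 _ _ _ ⟨(hM q).1.2.2, (hM q).1.1, (hM q).1.2.1⟩ (hM q).2
  refine ⟨fun q => (Φ.symm q).1.1, fun q => (Φ.symm q).1.2,
    fun q => σ₁ (Φ.symm q).1.1 (Φ.symm q).1.2, ⟨A, h.sA, Φ.symm, fun _ => rfl⟩, ?_, ?_⟩
  · have hmem : ∀ p : B, (σ₂ p.1.1 p.1.2, p.1.1) ∈ A := fun p => (b1 p.1.1 p.1.2 p.2).1.2.2
    have hc : Continuous fun p : B => (⟨(σ₂ p.1.1 p.1.2, p.1.1), hmem p⟩ : A) := by
      refine Continuous.subtype_mk ?_ _
      exact (b3.comp_continuous continuous_subtype_val (fun p => p.2)).prodMk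
        (continuous_fst.comp continuous_subtype_val)
    refine Maps_bi h.sB _ _ hcg hck (fun q => (hM q).1.2.1)
      (fun p => Φ ⟨(σ₂ p.1.1 p.1.2, p.1.1), hmem p⟩) (Φ.continuous.comp hc) ?_ ?_
    · intro q
      have h1 : (⟨(σ₂ (Φ.symm q).1.2 (σ₁ (Φ.symm q).1.1 (Φ.symm q).1.2), (Φ.symm q).1.2),
          hmem ⟨((Φ.symm q).1.2, σ₁ (Φ.symm q).1.1 (Φ.symm q).1.2), (hM q).1.2.1⟩⟩ : A) =
          Φ.symm q := Subtype.ext (Prod.ext (hF q).symm rfl)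
      exact (congrArg Φ h1).trans (Φ.apply_symm_apply q)
    · intro p
      have h1 : p.1.2 = σ₁ (σ₂ p.1.1 p.1.2) p.1.1 :=
        a2 _ _ _ ⟨(b1 p.1.1 p.1.2 p.2).1.2.2, (b1 p.1.1 p.1.2 p.2).1.1,
          (b1 p.1.1 p.1.2 p.2).1.2.1⟩ (b1 p.1.1 p.1.2 p.2).2
      simp only [Φ.symm_apply_apply]
      exact Prod.ext rfl h1.symm
  · have hmem : ∀ p : C, (p.1.2, σ₃ p.1.1 p.1.2) ∈ A := fun p => (c1 p.1.1 p.1.2 p.2).1.2.1
    have hc : Continuous fun p : C => (⟨(p.1.2, σ₃ p.1.1 p.1.2), hmem p⟩ : A) := by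
      refine Continuous.subtype_mk ?_ _
      exact (continuous_snd.comp continuous_subtype_val).prodMk
        (c3.comp_continuous continuous_subtype_val (fun p => p.2))
    refine Maps_bi h.sC _ _ hck hcf (fun q => (hM q).1.2.2)
      (fun p => Φ ⟨(p.1.2, σ₃ p.1.1 p.1.2), hmem p⟩) (Φ.continuous.comp hc) ?_ ?_
    · intro q
      have h1 : (⟨((Φ.symm q).1.1, σ₃ (σ₁ (Φ.symm q).1.1 (Φ.symm q).1.2) (Φ.symm q).1.1),
          hmem ⟨(σ₁ (Φ.symm q).1.1 (Φ.symm q).1.2, (Φ.symm q).1.1), (hM q).1.2.2⟩⟩ : A) =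
          Φ.symm q := Subtype.ext (Prod.ext rfl (hG q).symm)
      exact (congrArg Φ h1).trans (Φ.apply_symm_apply q)
    · intro p
      have h1 : p.1.1 = σ₁ p.1.2 (σ₃ p.1.1 p.1.2) :=
        a2 _ _ _ ⟨(c1 p.1.1 p.1.2 p.2).1.2.1, (c1 p.1.1 p.1.2 p.2).1.2.2,
          (c1 p.1.1 p.1.2 p.2).1.1⟩ (c1 p.1.1 p.1.2 p.2).2
      simp only [Φ.symm_apply_apply]
      exact Prod.ext h1.symm rfl

end Pool.Agent.LST
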