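import Pool.Agent.LST.Gfun

/-!
# LST module Mplus (size 4)

A continuous positive function on `Mh A B C`, strictly decreasing in every coordinate, with infimum
zero on every axis fibre.
-/

open Set Topology Filter

namespace Pool.Agent.LST

open Pool.Agent.H86.Bifol Pool.Agent.LSP

variable {X Y Z : Type*} [TopologicalSpace X] [TopologicalSpace Y] [TopologicalSpace Z]

structure Height (oX : Orientation X) (oY : Orientation Y) (oZ : Orientation Z) (A : Set (X × Y))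
    (B : Set (Y × Z)) (C : Set (Z × X)) (m : X → Y → Z → ℝ) : Prop where
  cont : ContinuousOn (fun q : X × Y × Z => m q.1 q.2.1 q.2.2) (Mh A B C)
  pos : ∀ x y z, (x, y, z) ∈ Mh A B C → 0 < m x y z
  sX : ∀ x₁ x₂ y z, (x₁, y, z) ∈ Mh A B C → (x₂, y, z) ∈ Mh A B C → x₂ ∈ oX.up x₁ →
    m x₂ y z < m x₁ y z
  sY : ∀ x y₁ y₂ z, (x, y₁, z) ∈ Mh A B C → (x, y₂, z) ∈ Mh A B C → y₂ ∈ oY.up y₁ →
    m x y₂ z < m x y₁ z
  sZ : ∀ x y z₁ z₂, (x, y, z₁) ∈ Mh A B C → (x, y, z₂) ∈ Mh A B C → z₂ ∈ oZ.up z₁ →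
    m x y z₂ < m x y z₁
  iX : ∀ x y z, (x, y, z) ∈ Mh A B C → ∀ ε > 0, ∃ x', (x', y, z) ∈ Mh A B C ∧ m x' y z < ε
  iY : ∀ x y z, (x, y, z) ∈ Mh A B C → ∀ ε > 0, ∃ y', (x, y', z) ∈ Mh A B C ∧ m x y' z < ε
  iZ : ∀ x y z, (x, y, z) ∈ Mh A B C → ∀ ε > 0, ∃ z', (x, y, z') ∈ Mh A B C ∧ m x y z' < ε

variable {oX : Orientation X} {oY : Orientation Y} {oZ : Orientation Z} {A : Set (X × Y)}
  {B : Set (Y × Z)} {C : Set (Z × X)}

/-- PROOF. `(y, z, x) ∈ Mh B C A ↔ (x, y, z) ∈ Mh A B C`; the continuity by composition with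
`(y, z, x) ↦ (x, y, z)`. -/
theorem Height.rot {m : X → Y → Z → ℝ} (h : Height oX oY oZ A B C m) :
    Height oY oZ oX B C A (fun y z x => m x y z) where
  cont := by
    have hc : Continuous (fun q : Y × Z × X => ((q.2.2, q.1, q.2.1) : X × Y × Z)) := by fun_prop
    have := h.cont.comp hc.continuousOn (s := Mh B C A) (fun q hq => ⟨hq.2.2, hq.1, hq.2.1⟩)
    exact this
  pos y z x hq := h.pos x y z ⟨hq.2.2, hq.1, hq.2.1⟩
  sX y₁ y₂ z x h₁ h₂ hu := h.sY x y₁ y₂ z ⟨h₁.2.2, h₁.1, h₁.2.1⟩ ⟨h₂.2.2, h₂.1, h₂.2.1⟩ hu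
  sY y z₁ z₂ x h₁ h₂ hu := h.sZ x y z₁ z₂ ⟨h₁.2.2, h₁.1, h₁.2.1⟩ ⟨h₂.2.2, h₂.1, h₂.2.1⟩ hu
  sZ y z x₁ x₂ h₁ h₂ hu := h.sX x₁ x₂ y z ⟨h₁.2.2, h₁.1, h₁.2.1⟩ ⟨h₂.2.2, h₂.1, h₂.2.1⟩ hu
  iX y z x hq ε hε := by
    obtain ⟨y', h1, h2⟩ := h.iY x y z ⟨hq.2.2, hq.1, hq.2.1⟩ ε hε
    exact ⟨y', ⟨h1.2.1, h1.2.2, h1.1⟩, h2⟩
  iY y z x hq ε hε := by
    obtain ⟨z', h1, h2⟩ := h.iZ x y z ⟨hq.2.2, hq.1, hq.2.1⟩ ε hε
    exact ⟨z', ⟨h1.2.1, h1.2.2, h1.1⟩, h2⟩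
  iZ y z x hq ε hε := by
    obtain ⟨x', h1, h2⟩ := h.iX x y z ⟨hq.2.2, hq.1, hq.2.1⟩ ε hε
    exact ⟨x', ⟨h1.2.1, h1.2.2, h1.1⟩, h2⟩

variable [SCM X] [SCM Y] [SCM Z]

/-- On the axis fibre of `(y, z)` the function `g` of `exists_g` vanishes somewhere, above a given
point. PROOF. Suppose `(t, y, z) ∈ Strict … x' y' z'` for all `t` of the fibre with `t = x ∨ t ∈ oX.up x`. For
`t = x`: `(x', y) ∈ A` (`a3`) and `(z, x') ∈ C` (`c2`), `x ∈ oX.dn x'`, so `(x', y, z) ∈ Mh` and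
`x' ∈ oX.up x` (line `{t | (t, y) ∈ A}`); then `(x', y, z) ∈ Strict`, so `x' ∈ oX.dn x'`: contradiction. -/
theorem exists_notMem_Strict (h : Conv oX oY oZ A B C) {x x' : X} {y y' : Y} {z z' : Z}
    (hm : (x, y, z) ∈ Mh A B C) :
    ∃ t, (t = x ∨ t ∈ oX.up x) ∧ (t, y, z) ∈ Mh A B C ∧
      (t, y, z) ∉ Strict oX oY oZ A B C x' y' z' := by
  by_contra hcon
  push Not at hcon
  have h1 := hcon x (Or.inl rfl) hm
  obtain ⟨hb, e1, e2, e3⟩ := h1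
  simp only at hb e1 e2 e3
  have hup : x' ∈ oX.up x := (up_iff_dn oX (h.sA.snd y) hb.a1 hb.a3).2 e1
  have h2 := hcon x' (Or.inr hup) ⟨hb.a3, hb.b1, hb.c2⟩
  exact self_notMem_dn oX x' h2.2.1

private theorem Mplus_notStrict (h : Conv oX oY oZ A B C) {x₂ x' : X} {y y' : Y} {z z' : Z}
    (hx' : x' ∈ oX.dn x₂) :
    (x₂, y, z) ∉ Strict oX oY oZ A B C x' y' z' := by
  intro hs
  have hb := hs.1
  simp only at hb
  have hup : x' ∈ oX.up x₂ := (up_iff_dn oX (h.sA.snd y) hb.a1 hb.a3).2 hs.2.1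
  exact oX.up_not_dn hup hx'

private theorem Mplus_above {W : Type*} [TopologicalSpace W] [SCM W] (o : Orientation W) {U : Set W}
    (hU : IsOpen U) {x : W} (hx : x ∈ U) :
    ∃ V : Set W, IsOpen V ∧ V.Nonempty ∧ V ⊆ U ∧ ∀ t ∈ V, t ∈ o.up x ∧ x ∈ o.dn t := by
  obtain ⟨e, he, hp⟩ := o.exists_chart x
  obtain ⟨y, ⟨hyU, hye⟩, hy1, hy2⟩ := exists_above o (hU.inter e.open_source) ⟨hx, he⟩
  refine ⟨U ∩ (e.source ∩ e ⁻¹' Set.Ioi (e x)), hU.inter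
    (e.continuousOn.isOpen_inter_preimage e.open_source isOpen_Ioi), ⟨y, hyU, hye, ?_⟩,
    inter_subset_left, ?_⟩
  · rw [hp.up_eq x he] at hy1
    exact (mem_upS_iff he hp.tar hye).1 hy1
  · rintro t ⟨_, hte, htx⟩
    constructor
    · rw [hp.up_eq x he]
      exact (mem_upS_iff he hp.tar hte).2 htx
    · rw [hp.dn_eq hte]
      exact (mem_dnS_iff hte hp.tar he).2 htx

private theorem Mplus_tail {f : ℕ → ℝ} (N : ℕ) (h0 : ∀ j < N, f j = 0)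
    (hf : ∀ j, f j ≤ (1 / 2 : ℝ) ^ j) (hs : Summable f) : ∑' j, f j ≤ 2 * (1 / 2 : ℝ) ^ N := by
  rw [← hs.sum_add_tsum_nat_add N, Finset.sum_eq_zero (fun j hj => h0 j (Finset.mem_range.1 hj)),
    zero_add]
  have h1 : ∀ j, f (j + N) ≤ (1 / 2 : ℝ) ^ N * (1 / 2 : ℝ) ^ j := by
    intro j
    refine (hf _).trans (le_of_eq ?_)
    rw [pow_add]; ring
  have h2 : Summable fun j => (1 / 2 : ℝ) ^ N * (1 / 2 : ℝ) ^ j := summable_geometric_two.mul_left _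
  refine ((summable_nat_add_iff N).2 hs).tsum_le_tsum h1 h2 |>.trans (le_of_eq ?_)
  rw [tsum_mul_left, tsum_geometric_two]; ring

/-- PROOF. If `Mh = ∅` take `m = 0`. Otherwise the subspace `Mh` is second countable, so there is a
sequence `b : ℕ → X × Y × Z` in `Mh` with range dense in `Mh` (`TopologicalSpace.exists_dense_seq` for the
subtype). `g n` from `exists_g` for the point `b n`; `m x y z := ∑' n, (1/2)^n * g n x y z`.
* `cont`: `continuousOn_tsum` (bound `(1/2)^n`).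
* For `q = (x, y, z) ∈ Mh` and an open `N ∋ q` in `Mh` there is `n` with `b n ∈ N`, `q ∈ Strict (b n)`:
  take a box `N₁ × N₂ × N₃ ⊆ N ∩ Mh` of open sets; `N₁' := {t ∈ N₁ | t ∈ oX.up x, x ∈ oX.dn t}` contains a
  nonempty open set (`exists_above` twice, or chart interval above `x`); choose `b n` in the product; all
  vertices are in the box. (`x ∈ oX.dn t` is an open condition on `t` inside of a chart; use a positive
  chart at `x` and `e t > e x`.)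
* `pos`: some `g n x y z > 0` (`Summable.tsum_pos` or `tsum_pos`).
* `sX`: all terms are `≤`; strict for an `n` with `(x₁, y, z) ∈ Strict (b n)` and `(b n).1 ∈ oX.dn x₂` (take
  `N := {q | q.1 ∈ oX.dn x₂}`): then `g n x₁ y z > 0` and `g n x₂ y z = 0`, because
  `(x₂, y, z) ∈ Strict (b n)` would give `x₂ ∈ oX.dn (b n).1`, `(b n).1 ∈ oX.dn x₂`, both on the line
  `{t | (t, y) ∈ A}`: contradiction. `Summable.tsum_lt_tsum`. `sY`, `sZ`: the same (the statement about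
  `b` is symmetric; `strict_of_up` etc. are already in `exists_g`).
* `iX`: let `N` with `2 * (1/2)^N < ε`. By induction on `n ≤ N` there is `x'` in the axis fibre of `(y, z)`
  with `g k x' y z = 0` for all `k < n`: from `x'` for `n`, `exists_notMem_Strict` gives `t` above `x'` with
  `g n t y z = 0`, and `g k t y z ≤ g k x' y z = 0` for `k < n`. Then `m x' y z ≤ ∑_{k ≥ N} (1/2)^k`
  (see `tail_bound` in H86/Plane or LSP/Plane0). `iY`, `iZ` the same with `h.rot`. -/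
theorem exists_height [SecondCountableTopology X] [SecondCountableTopology Y]
    [SecondCountableTopology Z] (h : Conv oX oY oZ A B C) : ∃ m, Height oX oY oZ A B C m := by
  by_cases hne : (Mh A B C).Nonempty
  swap
  · have hno : ∀ q, q ∉ Mh A B C := fun q hq => hne ⟨q, hq⟩
    refine ⟨fun _ _ _ => 0, ?_, ?_, ?_, ?_, ?_, ?_, ?_, ?_⟩
    · exact continuousOn_const
    · exact fun x y z hq => absurd hq (hno _)
    · exact fun x₁ x₂ y z hq => absurd hq (hno _)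
    · exact fun x y₁ y₂ z hq => absurd hq (hno _)
    · exact fun x y z₁ z₂ hq => absurd hq (hno _)
    · exact fun x y z hq => absurd hq (hno _)
    · exact fun x y z hq => absurd hq (hno _)
    · exact fun x y z hq => absurd hq (hno _)
  haveI : Nonempty (Mh A B C) := hne.to_subtype
  obtain ⟨b, hb⟩ := TopologicalSpace.exists_dense_seq (Mh A B C)
  -- density
  have key : ∀ x y z, (x, y, z) ∈ Mh A B C → ∀ N : Set (X × Y × Z), IsOpen N → (x, y, z) ∈ N →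
      ∃ n, (b n : X × Y × Z) ∈ N ∧ (x, y, z) ∈ Strict oX oY oZ A B C (b n : X × Y × Z).1
        (b n : X × Y × Z).2.1 (b n : X × Y × Z).2.2 := by
    intro x y z hq N hN hqN
    have hNM : IsOpen (N ∩ Mh A B C) := hN.inter (isOpen_Mh h)
    obtain ⟨N₁, N₂₃, hN₁, hN₂₃, hx, hyz, hsub⟩ := isOpen_prod_iff.1 hNM x (y, z) ⟨hqN, hq⟩
    obtain ⟨N₂, N₃, hN₂, hN₃, hy, hz, hsub'⟩ := isOpen_prod_iff.1 hN₂₃ y z hyz
    have hbox : ∀ x' ∈ N₁, ∀ y' ∈ N₂, ∀ z' ∈ N₃, (x', y', z') ∈ N ∩ Mh A B C :=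
      fun x' hx' y' hy' z' hz' => hsub ⟨hx', hsub' ⟨hy', hz'⟩⟩
    obtain ⟨V₁, hV₁, ⟨v₁, hv₁⟩, hVN₁, hu₁⟩ := Mplus_above oX hN₁ hx
    obtain ⟨V₂, hV₂, ⟨v₂, hv₂⟩, hVN₂, hu₂⟩ := Mplus_above oY hN₂ hy
    obtain ⟨V₃, hV₃, ⟨v₃, hv₃⟩, hVN₃, hu₃⟩ := Mplus_above oZ hN₃ hz
    have hVo : IsOpen (((↑) : Mh A B C → X × Y × Z) ⁻¹' (V₁ ×ˢ (V₂ ×ˢ V₃))) :=
      (hV₁.prod (hV₂.prod hV₃)).preimage continuous_subtype_val
    have hVne : (((↑) : Mh A B C → X × Y × Z) ⁻¹' (V₁ ×ˢ (V₂ ×ˢ V₃))).Nonempty :=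
      ⟨⟨(v₁, v₂, v₃), (hbox v₁ (hVN₁ hv₁) v₂ (hVN₂ hv₂) v₃ (hVN₃ hv₃)).2⟩, hv₁, hv₂, hv₃⟩
    obtain ⟨n, hn⟩ := hb.exists_mem_open hVo hVne
    obtain ⟨hn1, hn2, hn3⟩ := hn
    refine ⟨n, ?_, ?_, ?_, ?_, ?_⟩
    · exact (hbox _ (hVN₁ hn1) _ (hVN₂ hn2) _ (hVN₃ hn3)).1
    · refine ⟨Or.inr (hu₁ _ hn1).2, Or.inr (hu₂ _ hn2).2, Or.inr (hu₃ _ hn3).2,
        hq.1, ?_, ?_, ?_, hq.2.1, ?_, ?_, ?_, hq.2.2, ?_, ?_, ?_⟩
      · exact (hbox x hx _ (hVN₂ hn2) z hz).2.1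
      · exact (hbox _ (hVN₁ hn1) y hy z hz).2.1
      · exact (b n).2.1
      · exact (hbox x hx y hy _ (hVN₃ hn3)).2.2.1
      · exact (hbox x hx _ (hVN₂ hn2) z hz).2.2.1
      · exact (b n).2.2.1
      · exact (hbox _ (hVN₁ hn1) y hy z hz).2.2.2
      · exact (hbox x hx y hy _ (hVN₃ hn3)).2.2.2
      · exact (b n).2.2.2
    · exact (hu₁ _ hn1).2
    · exact (hu₂ _ hn2).2
    · exact (hu₃ _ hn3).2
  choose g gc g0 g1 gp gX gY gZ using fun n => exists_g h (b n : X × Y × Z).1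
    (b n : X × Y × Z).2.1 (b n : X × Y × Z).2.2
  have hzero : ∀ n x y z, (x, y, z) ∉ Strict oX oY oZ A B C (b n : X × Y × Z).1
        (b n : X × Y × Z).2.1 (b n : X × Y × Z).2.2 → g n x y z = 0 := fun n x y z hn =>
    le_antisymm (not_lt.1 fun h' => hn ((gp n x y z).1 h')) (g0 n x y z)
  have tm0 : ∀ n x y z, 0 ≤ (1 / 2 : ℝ) ^ n * g n x y z := fun n x y z =>
    mul_nonneg (by positivity) (g0 n x y z)
  have tm1 : ∀ n x y z, (1 / 2 : ℝ) ^ n * g n x y z ≤ (1 / 2 : ℝ) ^ n := fun n x y z =>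
    mul_le_of_le_one_right (by positivity) (g1 n x y z)
  have hsum : ∀ x y z, Summable fun n => (1 / 2 : ℝ) ^ n * g n x y z := fun x y z =>
    Summable.of_nonneg_of_le (fun n => tm0 n x y z) (fun n => tm1 n x y z) summable_geometric_two
  have hlt : ∀ {x₁ x₂ : X} {y₁ y₂ : Y} {z₁ z₂ : Z},
      (∀ n, g n x₂ y₂ z₂ ≤ g n x₁ y₁ z₁) → (∃ n, g n x₂ y₂ z₂ < g n x₁ y₁ z₁) →
      ∑' n, (1 / 2 : ℝ) ^ n * g n x₂ y₂ z₂ < ∑' n, (1 / 2 : ℝ) ^ n * g n x₁ y₁ z₁ := by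
    intro x₁ x₂ y₁ y₂ z₁ z₂ h1 h2
    obtain ⟨n, hn⟩ := h2
    refine Summable.tsum_lt_tsum (i := n) (fun k => ?_) ?_ (hsum _ _ _) (hsum _ _ _)
    · exact mul_le_mul_of_nonneg_left (h1 k) (by positivity)
    · exact mul_lt_mul_of_pos_left hn (by positivity)
  have hinf : ∀ ε > (0 : ℝ), ∃ N : ℕ, ∀ x y z, (∀ k < N, g k x y z = 0) →
      ∑' n, (1 / 2 : ℝ) ^ n * g n x y z < ε := by
    intro ε hε
    obtain ⟨N, hN⟩ := exists_pow_lt_of_lt_one (show 0 < ε / 2 by linarith)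
      (show (1 / 2 : ℝ) < 1 by norm_num)
    refine ⟨N, fun x y z hk => ?_⟩
    have := Mplus_tail N (f := fun n => (1 / 2 : ℝ) ^ n * g n x y z)
      (fun j hj => by simp only [hk j hj, mul_zero]) (fun j => tm1 j x y z) (hsum x y z)
    linarith
  refine ⟨fun x y z => ∑' n, (1 / 2 : ℝ) ^ n * g n x y z, ?_, ?_, ?_, ?_, ?_, ?_, ?_, ?_⟩
  · refine continuousOn_tsum (u := fun n => (1 / 2 : ℝ) ^ n)
      (fun n => (continuousOn_const.mul (gc n))) summable_geometric_two ?_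
    intro n q _
    rw [Real.norm_eq_abs, abs_of_nonneg (tm0 n _ _ _)]
    exact tm1 n _ _ _
  · intro x y z hq
    obtain ⟨n, _, hn⟩ := key x y z hq univ isOpen_univ (mem_univ _)
    exact (hsum x y z).tsum_pos (fun k => tm0 k x y z) n
      (mul_pos (by positivity) ((gp n x y z).2 hn))
  · intro x₁ x₂ y z h₁ h₂ hup
    refine hlt (fun n => gX n x₁ x₂ y z h₁ h₂ hup) ?_
    have hd : x₁ ∈ oX.dn x₂ := (up_iff_dn oX (h.sA.snd y) h₁.1 h₂.1).1 hup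
    obtain ⟨n, hn1, hn2⟩ := key x₁ y z h₁ {q | q.1 ∈ oX.dn x₂}
      ((oX.isOpen_dn x₂).preimage continuous_fst) hd
    refine ⟨n, ?_⟩
    rw [hzero n x₂ y z (Mplus_notStrict h hn1)]
    exact (gp n x₁ y z).2 hn2
  · intro x y₁ y₂ z h₁ h₂ hup
    refine hlt (fun n => gY n x y₁ y₂ z h₁ h₂ hup) ?_
    have hd : y₁ ∈ oY.dn y₂ := (up_iff_dn oY (h.sA.fst x) h₁.1 h₂.1).1 hup
    obtain ⟨n, hn1, hn2⟩ := key x y₁ z h₁ {q | q.2.1 ∈ oY.dn y₂}
      ((oY.isOpen_dn y₂).preimage (continuous_fst.comp continuous_snd)) hd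
    refine ⟨n, ?_⟩
    rw [hzero n x y₂ z (fun hs => Mplus_notStrict h.rot hn1 (mem_Strict_rot hs))]
    exact (gp n x y₁ z).2 hn2
  · intro x y z₁ z₂ h₁ h₂ hup
    refine hlt (fun n => gZ n x y z₁ z₂ h₁ h₂ hup) ?_
    have hd : z₁ ∈ oZ.dn z₂ := (up_iff_dn oZ (h.sB.fst y) h₁.2.1 h₂.2.1).1 hup
    obtain ⟨n, hn1, hn2⟩ := key x y z₁ h₁ {q | q.2.2 ∈ oZ.dn z₂}
      ((oZ.isOpen_dn z₂).preimage (continuous_snd.comp continuous_snd)) hd
    refine ⟨n, ?_⟩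
    rw [hzero n x y z₂ (fun hs => Mplus_notStrict h.rot.rot hn1
      (mem_Strict_rot (mem_Strict_rot hs)))]
    exact (gp n x y z₁).2 hn2
  · intro x y z hq ε hε
    obtain ⟨N, hN⟩ := hinf ε hε
    have hind : ∀ n, ∃ x', (x', y, z) ∈ Mh A B C ∧ ∀ k < n, g k x' y z = 0 := by
      intro n
      induction n with
      | zero => exact ⟨x, hq, fun k hk => absurd hk (Nat.not_lt_zero k)⟩
      | succ n ih =>
        obtain ⟨x', hx', hk'⟩ := ih
        obtain ⟨t, ht, htm, hts⟩ := exists_notMem_Strict h hx' (x' := (b n : X × Y × Z).1)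
          (y' := (b n : X × Y × Z).2.1) (z' := (b n : X × Y × Z).2.2)
        refine ⟨t, htm, fun k hk => ?_⟩
        rcases Nat.lt_succ_iff_lt_or_eq.1 hk with h2 | rfl
        · rcases ht with rfl | ht
          · exact hk' k h2
          · exact le_antisymm ((gX k x' t y z hx' htm ht).trans (hk' k h2).le) (g0 k t y z)
        · exact hzero k t y z hts
    obtain ⟨x', hx', hk'⟩ := hind N
    exact ⟨x', hx', hN x' y z hk'⟩
  · intro x y z hq ε hε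
    obtain ⟨N, hN⟩ := hinf ε hε
    have hind : ∀ n, ∃ y', (x, y', z) ∈ Mh A B C ∧ ∀ k < n, g k x y' z = 0 := by
      intro n
      induction n with
      | zero => exact ⟨y, hq, fun k hk => absurd hk (Nat.not_lt_zero k)⟩
      | succ n ih =>
        obtain ⟨y', hy', hk'⟩ := ih
        obtain ⟨t, ht, htm, hts⟩ := exists_notMem_Strict h.rot (x := y') (y := z) (z := x)
          ⟨hy'.2.1, hy'.2.2, hy'.1⟩ (x' := (b n : X × Y × Z).2.1)
          (y' := (b n : X × Y × Z).2.2) (z' := (b n : X × Y × Z).1)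
        have htm' : (x, t, z) ∈ Mh A B C := ⟨htm.2.2, htm.1, htm.2.1⟩
        refine ⟨t, htm', fun k hk => ?_⟩
        rcases Nat.lt_succ_iff_lt_or_eq.1 hk with h2 | rfl
        · rcases ht with rfl | ht
          · exact hk' k h2
          · exact le_antisymm ((gY k x y' t z hy' htm' ht).trans (hk' k h2).le) (g0 k x t z)
        · exact hzero k x t z (fun hs => hts (mem_Strict_rot hs))
    obtain ⟨y', hy', hk'⟩ := hind N
    exact ⟨y', hy', hN x y' z hk'⟩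
  · intro x y z hq ε hε
    obtain ⟨N, hN⟩ := hinf ε hε
    have hind : ∀ n, ∃ z', (x, y, z') ∈ Mh A B C ∧ ∀ k < n, g k x y z' = 0 := by
      intro n
      induction n with
      | zero => exact ⟨z, hq, fun k hk => absurd hk (Nat.not_lt_zero k)⟩
      | succ n ih =>
        obtain ⟨z', hz', hk'⟩ := ih
        obtain ⟨t, ht, htm, hts⟩ := exists_notMem_Strict h.rot.rot (x := z') (y := x) (z := y)
          ⟨hz'.2.2, hz'.1, hz'.2.1⟩ (x' := (b n : X × Y × Z).2.2)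
          (y' := (b n : X × Y × Z).1) (z' := (b n : X × Y × Z).2.1)
        have htm' : (x, y, t) ∈ Mh A B C := ⟨htm.2.1, htm.2.2, htm.1⟩
        refine ⟨t, htm', fun k hk => ?_⟩
        rcases Nat.lt_succ_iff_lt_or_eq.1 hk with h2 | rfl
        · rcases ht with rfl | ht
          · exact hk' k h2
          · exact le_antisymm ((gZ k x y z' t hz' htm' ht).trans (hk' k h2).le) (g0 k x y t)
        · exact hzero k x y t (fun hs => hts (mem_Strict_rot (mem_Strict_rot hs)))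
    obtain ⟨z', hz', hk'⟩ := hind N
    exact ⟨z', hz', hN x y z' hk'⟩

end Pool.Agent.LST
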