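import Pool.Agent.LST.Defs
import Pool.Agent.LSP.Omega0

/-!
# LST module Ord (size 3)

The order on the lines of an oriented simply connected 1-manifold; the opposite orientation.
-/

open Set Topology Filter

namespace Pool.Agent.LST

open Pool.Agent.H86.Bifol Pool.Agent.LSP

variable {X : Type*} [TopologicalSpace X] [SCM X]

/-- The opposite orientation. -/
def op (o : Orientation X) : Orientation X where
  up := o.dn
  exists_pos x := by
    obtain ⟨e, he, hp⟩ := o.exists_chart x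
    refine ⟨negC e, by rwa [negC_source], negC_target hp.tar, fun y hy => ?_⟩
    rw [negC_source] at hy
    rw [upS_negC]
    exact hp.dn_eq hy

@[simp] theorem op_up (o : Orientation X) (x : X) : (op o).up x = o.dn x := rfl

@[simp] theorem op_dn (o : Orientation X) (x : X) : (op o).dn x = o.up x := by
  have h := o.self_up x
  ext y
  simp only [Orientation.dn, op, mem_compl_iff, mem_insert_iff, not_or]
  constructor
  · rintro ⟨h1, h2⟩
    by_contra h3
    exact h2 ⟨h1, h3⟩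
  · intro hy
    refine ⟨?_, fun h' => h'.2 hy⟩
    rintro rfl
    exact h hy

theorem op_op (o : Orientation X) : op (op o) = o := by
  have : ∀ o' : Orientation X, o'.up = o.up → o' = o := by
    intro o' h
    cases o'; cases o
    simp only at h
    subst h
    rfl
  exact this _ (funext fun x => by simp)

variable {ℓ : Set X} (o : Orientation X)

omit [SCM X] in
theorem self_notMem_dn (x : X) : x ∉ o.dn x := by simp [Orientation.dn]

/-- PROOF. `up x`, `dn x` are disjoint (`Orientation.up_not_dn`). -/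
theorem notMem_up_of_dn {x y : X} (h : y ∈ o.dn x) : y ∉ o.up x := fun h' => o.up_not_dn h' h

/-- A connected set which contains points of both sides of `y` contains `y`.
PROOF. If not, `S ⊆ {y}ᶜ` is contained in `side y x` (`subset_side`), which is `o.dn y`
(`Orientation.dn_eq_side`), so `z ∈ o.dn y`, contradiction with `up_not_dn`. -/
theorem between {S : Set X} (hS : IsPreconnected S) {x y z : X} (hx : x ∈ S) (hz : z ∈ S)
    (h1 : x ∈ o.dn y) (h2 : z ∈ o.up y) : y ∈ S := by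
  by_contra hy
  have h3 : x ∈ side y z := subset_side hS hy hz hx
  rw [← o.up_eq_side h2] at h3
  exact notMem_up_of_dn o h1 h3

theorem up_iff_dn (h : IsLine ℓ) {x y : X} (hx : x ∈ ℓ) (hy : y ∈ ℓ) :
    y ∈ o.up x ↔ x ∈ o.dn y := h.mem_up_iff o hx hy

/-- PROOF. `Orientation.up_or_dn` and `up_iff_dn`. -/
theorem trichotomy (h : IsLine ℓ) {x y : X} (hx : x ∈ ℓ) (hy : y ∈ ℓ) :
    y = x ∨ y ∈ o.up x ∨ x ∈ o.up y := by
  by_cases hxy : y = x
  · exact Or.inl hxy
  right
  rcases o.up_or_dn hxy with h1 | h1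
  · exact Or.inl h1
  · exact Or.inr ((up_iff_dn o h hy hx).2 h1)

/-- PROOF. `IsLine.up_trans0` in LSP/Omega0. -/
theorem up_trans (h : IsLine ℓ) {x y z : X} (hx : x ∈ ℓ) (hy : y ∈ ℓ) (hz : z ∈ ℓ)
    (h1 : y ∈ o.up x) (h2 : z ∈ o.up y) : z ∈ o.up x := by
  exact h.up_trans0 o hx hy hz h1 h2

/-- PROOF. `up_iff_dn`, `up_not_dn`. -/
theorem up_asymm (h : IsLine ℓ) {x y : X} (hx : x ∈ ℓ) (hy : y ∈ ℓ) (h1 : y ∈ o.up x) :
    x ∉ o.up y := by
  intro h2
  exact notMem_up_of_dn o ((up_iff_dn o h hx hy).1 h1) h2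

/-- PROOF. Positive chart `e` at `x` (`Orientation.exists_chart`), segment in `U`
(`exists_segment`): `y := e.symm β`. `mem_upS_iff`, `mem_dnS_iff` and `Pos.up_eq`, `Pos.dn_eq`. -/
theorem exists_above {U : Set X} (hU : IsOpen U) {x : X} (hx : x ∈ U) :
    ∃ y ∈ U, y ∈ o.up x ∧ x ∈ o.dn y := by
  obtain ⟨e, he, hp⟩ := o.exists_chart x
  obtain ⟨α, β, h1, h2, h3⟩ := exists_segment hp.tar he (hU.mem_nhds hx)
  have hβ : e.symm β ∈ e.source := symm_mem hp.tar β
  have h4 : e x < e (e.symm β) := by rw [apply_symm hp.tar]; exact h2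
  refine ⟨e.symm β, h3 ⟨β, right_mem_Icc.2 (h1.trans h2).le, rfl⟩, ?_, ?_⟩
  · rw [hp.up_eq x he]
    exact (mem_upS_iff he hp.tar hβ).2 h4
  · rw [hp.dn_eq hβ]
    exact (mem_dnS_iff hβ hp.tar he).2 h4

/-- PROOF. `exists_above` for `op o`. -/
theorem exists_below {U : Set X} (hU : IsOpen U) {x : X} (hx : x ∈ U) :
    ∃ y ∈ U, y ∈ o.dn x ∧ x ∈ o.up y := by
  obtain ⟨y, hy, h1, h2⟩ := exists_above (op o) hU hx
  exact ⟨y, hy, h1, by simpa using h2⟩

/-- PROOF. `exists_above` for the open set `ℓ ∩ o.dn z ∋ x`. -/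
theorem exists_btw (h : IsLine ℓ) {x z : X} (hx : x ∈ ℓ) (hz : z ∈ ℓ) (h1 : z ∈ o.up x) :
    ∃ y ∈ ℓ, y ∈ o.up x ∧ z ∈ o.up y := by
  have hx' : x ∈ o.dn z := (up_iff_dn o h hx hz).1 h1
  obtain ⟨y, hy, h2, h3⟩ := exists_above o (h.isOpen.inter (o.isOpen_dn z)) ⟨hx, hx'⟩
  exact ⟨y, hy.1, h2, (up_iff_dn o h hy.1 hz).2 hy.2⟩

/-- The closed upper side of a point is upward closed on lines. PROOF. `x ∉ o.dn p`: `x = p` (clear)
or `x ∈ o.up p`. Suppose `y ∉ o.up p`. Then `y = p` or `y ∈ o.dn p`; in the first case `p ∈ ℓ`, in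
the second too, by `between`. On `ℓ`: `p < x < y ≤ p`, contradiction (`up_trans`, `up_asymm`). -/
theorem up_of_notMem_dn (h : IsLine ℓ) {x y p : X} (hx : x ∈ ℓ) (hy : y ∈ ℓ) (hxy : y ∈ o.up x)
    (hp : x ∉ o.dn p) : y ∈ o.up p := by
  by_contra hyp
  have hyp' : y = p ∨ y ∈ o.dn p := by
    by_cases h1 : y = p
    · exact Or.inl h1
    · exact Or.inr ((o.up_or_dn h1).resolve_left hyp)
  have hxp' : x = p ∨ x ∈ o.up p := by
    by_cases h1 : x = p
    · exact Or.inl h1
    · exact Or.inr ((o.up_or_dn h1).resolve_right hp)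
  rcases hxp' with rfl | hxp
  · exact hyp hxy
  rcases hyp' with rfl | hyd
  · exact up_asymm o h hx hy hxy hxp
  have hpℓ : p ∈ ℓ := between o h.pre hy hx hyd hxp
  have h1 : y ∈ o.up p := up_trans o h hpℓ hx hy hxp hxy
  exact hyp h1

/-- PROOF. The same for `op o`. -/
theorem dn_of_notMem_up (h : IsLine ℓ) {x y p : X} (hx : x ∈ ℓ) (hy : y ∈ ℓ) (hxy : y ∈ o.up x)
    (hp : y ∉ o.up p) : x ∈ o.dn p := by
  have h1 : x ∈ (op o).up y := (up_iff_dn o h hx hy).1 hxy
  have h2 : y ∉ (op o).dn p := by rw [op_dn]; exact hp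
  exact up_of_notMem_dn (op o) h hy hx h1 h2

/-- Two distinct non-separated points are above each other or below each other. PROOF. By symmetry
(`NS.symm`) one implication. Let `z' ∈ o.up z` and suppose `z ∉ o.up z'`, so `z ∈ o.dn z'`
(`up_or_dn`, `z ≠ z'`). Let `e'`, `e` be positive charts at `z`, `z'`. The open sets
`e'.source ∩ o.dn z' ∋ z` and `e.source ∩ o.up z ∋ z'` meet: `x₀`. In the chart `e'`: `e' z < e' x₀`
(`mem_upS_iff`), so `z ∈ o.dn x₀` (`mem_dnS_iff`, `Pos.dn_eq`). In the chart `e`: `e x₀ < e z'`, so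
`z' ∈ o.up x₀`. But `o.dn x₀`, `o.up x₀` are disjoint and open: contradiction with `h.2`. -/
theorem ns_up_iff {z z' : X} (h : NS z z') : z' ∈ o.up z ↔ z ∈ o.up z' := by
  have key : ∀ z z' : X, NS z z' → z' ∈ o.up z → z ∈ o.up z' := by
    intro z z' h hz
    by_contra hcon
    have hdn : z ∈ o.dn z' := (o.up_or_dn h.1).resolve_left hcon
    obtain ⟨e', he', hp'⟩ := o.exists_chart z
    obtain ⟨e, he, hp⟩ := o.exists_chart z'
    obtain ⟨x, ⟨hx1, hx2⟩, hx3, hx4⟩ := h.2 (e'.source ∩ o.dn z') (e.source ∩ o.up z)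
      (e'.open_source.inter (o.isOpen_dn z')) (e.open_source.inter (o.isOpen_up z)) ⟨he', hdn⟩
      ⟨he, hz⟩
    have h1 : e' z < e' x := by
      rw [hp'.up_eq z he'] at hx4
      exact (mem_upS_iff he' hp'.tar hx1).1 hx4
    have h2 : z ∈ o.dn x := by
      rw [hp'.dn_eq hx1]
      exact (mem_dnS_iff hx1 hp'.tar he').2 h1
    have h3 : e x < e z' := by
      rw [hp.dn_eq he] at hx2
      exact (mem_dnS_iff he hp.tar hx3).1 hx2
    have h4 : z' ∈ o.up x := by
      rw [hp.up_eq x hx3]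
      exact (mem_upS_iff hx3 hp.tar he).2 h3
    obtain ⟨t, ht1, ht2⟩ := h.2 _ _ (o.isOpen_dn x) (o.isOpen_up x) h2 h4
    exact notMem_up_of_dn o ht1 ht2
  exact ⟨key z z' h, key z' z h.symm⟩

/-- PROOF. `Cc z z' = (side z z')ᶜ` and `side z z' = o.up z` (`Orientation.up_eq_side`). -/
theorem Cc_of_up {z z' : X} (h : z' ∈ o.up z) : Cc z z' = (o.up z)ᶜ := by
  rw [Cc, o.up_eq_side h]

/-- PROOF. As above. -/
theorem Cc_of_dn {z z' : X} (h : z' ∈ o.dn z) : Cc z z' = (o.dn z)ᶜ := by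
  rw [Cc, o.dn_eq_side h]

/-- An open order convex subset of a line is connected. PROOF. `isPreconnected_of_forall_pair`: let
`x, z ∈ J`, say `z ∈ o.up x` (`trichotomy`; the case `x = z` is clear). Let `N ∋ x`, `N' ∋ z` be
the components in `J` (open: `IsOpen.connectedComponentIn`). `M := ℓ ∩ o.up x ∩ o.dn z` is
preconnected (`isPreconnected_inter`), contained in `J`, and meets `N` and `N'` (`exists_above`,
`exists_below`). Take `N ∪ M ∪ N'` (`IsPreconnected.union'`). -/
theorem isPreconnected_of_conv (h : IsLine ℓ) {J : Set X} (hJ : J ⊆ ℓ) (hJo : IsOpen J)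
    (hc : ∀ x ∈ J, ∀ z ∈ J, ∀ y ∈ ℓ, y ∈ o.up x → z ∈ o.up y → y ∈ J) : IsPreconnected J := by
  refine isPreconnected_of_forall_pair ?_
  have key : ∀ x ∈ J, ∀ z ∈ J, z ∈ o.up x → ∃ t, t ⊆ J ∧ x ∈ t ∧ z ∈ t ∧ IsPreconnected t := by
    intro x hx z hz hxz
    have hxz' : x ∈ o.dn z := (up_iff_dn o h (hJ hx) (hJ hz)).1 hxz
    have hN : IsOpen (connectedComponentIn J x) := hJo.connectedComponentIn
    have hN' : IsOpen (connectedComponentIn J z) := hJo.connectedComponentIn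
    set M := (ℓ ∩ o.up x) ∩ o.dn z with hM
    have hMp : IsPreconnected M := isPreconnected_inter
      (isPreconnected_inter h.pre h.isOpen (o.pre_up x) (o.isOpen_up x))
      (h.isOpen.inter (o.isOpen_up x)) (o.pre_dn z) (o.isOpen_dn z)
    have hMJ : M ⊆ J := by
      rintro y ⟨⟨h1, h2⟩, h3⟩
      exact hc x hx z hz y h1 h2 ((up_iff_dn o h h1 (hJ hz)).2 h3)
    obtain ⟨p, ⟨hp1, hp2⟩, hp3, -⟩ := exists_above o (hN.inter (o.isOpen_dn z))
      ⟨mem_connectedComponentIn hx, hxz'⟩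
    obtain ⟨q, ⟨hq1, hq2⟩, hq3, -⟩ := exists_below o (hN'.inter (o.isOpen_up x))
      ⟨mem_connectedComponentIn hz, hxz⟩
    have hpM : p ∈ M := ⟨⟨hJ (connectedComponentIn_subset _ _ hp1), hp3⟩, hp2⟩
    have hqM : q ∈ M := ⟨⟨hJ (connectedComponentIn_subset _ _ hq1), hq2⟩, hq3⟩
    have h1 : IsPreconnected (connectedComponentIn J x ∪ M) :=
      IsPreconnected.union p hp1 hpM isPreconnected_connectedComponentIn hMp
    have h2 : IsPreconnected ((connectedComponentIn J x ∪ M) ∪ connectedComponentIn J z) :=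
      IsPreconnected.union q (Or.inr hqM) hq1 h1 isPreconnected_connectedComponentIn
    refine ⟨_, ?_, Or.inl (Or.inl (mem_connectedComponentIn hx)),
      Or.inr (mem_connectedComponentIn hz), h2⟩
    rintro y ((hy | hy) | hy)
    · exact connectedComponentIn_subset _ _ hy
    · exact hMJ hy
    · exact connectedComponentIn_subset _ _ hy
  intro x hx z hz
  rcases trichotomy o h (hJ hx) (hJ hz) with h1 | h1 | h1
  · subst h1
    exact ⟨{z}, by simpa using hx, rfl, rfl, isPreconnected_singleton⟩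
  · exact key x hx z hz h1
  · obtain ⟨t, h2, h3, h4, h5⟩ := key z hz x hx h1
    exact ⟨t, h2, h4, h3, h5⟩

end Pool.Agent.LST
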