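import Pool.Agent.LST.BiApi

/-!
# LST module Sgn (size 4)

On the fibres of `g` the maps `f` and `h` are related by increasing maps, for all fibres, or by
decreasing maps, for all fibres.
-/

open Set Topology Filter

namespace Pool.Agent.LST

open Pool.Agent.H86.Bifol Pool.Agent.LSP

variable {X Y Z : Type*} [TopologicalSpace X] [TopologicalSpace Y] [TopologicalSpace Z] [SCM X]
  [SCM Y] [SCM Z] {f : ℝ × ℝ → X} {g : ℝ × ℝ → Y} {h : ℝ × ℝ → Z}

/-- Stability of the order under small perturbations. PROOF. The line `g '' (f ⁻¹' {f p})` contains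
`g p`, `g q`; take `m` on it with `g p < m < g q` (`exists_btw`). For `p'` near `p`, `q'` near `q`:
`g p' ∈ o.dn m`, `g q' ∈ o.up m`. If moreover `f p' = f q'` then the line `g '' (f ⁻¹' {f p'})` contains `m`
(`between`) and `g p' < m < g q'` (`up_iff_dn`, `up_trans`). -/
theorem Bi.up_stable (b : Bi f g) (o : Orientation Y) {p q : ℝ × ℝ} (h1 : f p = f q)
    (h2 : g q ∈ o.up (g p)) :
    ∃ N ∈ 𝓝 p, ∃ N' ∈ 𝓝 q, ∀ p' ∈ N, ∀ q' ∈ N', f p' = f q' → g q' ∈ o.up (g p') := by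
  have hl := b.line₁ (f p)
  have hp : g p ∈ g '' (f ⁻¹' {f p}) := ⟨p, rfl, rfl⟩
  have hq : g q ∈ g '' (f ⁻¹' {f p}) := ⟨q, h1.symm, rfl⟩
  obtain ⟨m, hm, hm1, hm2⟩ := exists_btw o hl hp hq h2
  have hm3 : g p ∈ o.dn m := (up_iff_dn o hl hp hm).1 hm1
  refine ⟨g ⁻¹' o.dn m, ((o.isOpen_dn m).preimage b.cont₂).mem_nhds hm3, g ⁻¹' o.up m,
    ((o.isOpen_up m).preimage b.cont₂).mem_nhds hm2, ?_⟩
  intro p' hp' q' hq' hpq
  have hl' := b.line₁ (f p')
  have hp1 : g p' ∈ g '' (f ⁻¹' {f p'}) := ⟨p', rfl, rfl⟩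
  have hq1 : g q' ∈ g '' (f ⁻¹' {f p'}) := ⟨q', hpq.symm, rfl⟩
  have hm' : m ∈ g '' (f ⁻¹' {f p'}) := between o hl'.pre hp1 hq1 hp' hq'
  have hm4 : m ∈ o.up (g p') := (up_iff_dn o hl' hp1 hm').2 hp'
  exact up_trans o hl' hp1 hm' hq1 hm4 hq'

/-- PROOF. `E := {r : (ℝ × ℝ) × (ℝ × ℝ) // g r.1 = g r.2 ∧ f r.2 ∈ oX.up (f r.1)}` with the map
`π : E → ℝ × ℝ`, `π r = r.1`.
* `π` is surjective: the line `f '' (g ⁻¹' {g p})` has points above `f p` (`exists_above`).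
* `π` is open: for `(p, q) ∈ E` and neighbourhoods `N`, `N'` of `p`, `q` as in `Bi.up_stable`
  (for `fg.swap`) the points `p'` near `p` have `g p' ∈ g '' N'` (`open`), so there is `q' ∈ N'` with
  `g q' = g p'`, and `(p', q') ∈ E`.
* the fibre of `π` over `p` is homeomorphic to `g ⁻¹' {g p} ∩ f ⁻¹' (oX.up (f p))`, preconnected
  by `Bi.fib_inter` for `fg.swap`.
So `E` is preconnected (`isPreconnected_preimage`, BifolMain, with the preconnected set `univ` of the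
plane). On `E` we have `h r.2 ≠ h r.1` (otherwise `r.1 = r.2` by `gh.inj`, and `f r.2 ∈ oX.up (f r.1)` is
impossible), so `h r.2 ∈ oZ.up (h r.1)` or `h r.2 ∈ oZ.dn (h r.1)`. Both sets are open in `E` by
`Bi.up_stable` for `gh` (for the second: `h r.1 ∈ oZ.up (h r.2)`, `Bi.up_iff`). So one of
them is `E`. -/
theorem leaf_sign (fg : Bi f g) (gh : Bi g h) (oX : Orientation X) (oZ : Orientation Z) :
    (∀ p q, g p = g q → f q ∈ oX.up (f p) → h q ∈ oZ.up (h p)) ∨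
      (∀ p q, g p = g q → f q ∈ oX.up (f p) → h q ∈ oZ.dn (h p)) := by
  let E := {r : (ℝ × ℝ) × (ℝ × ℝ) // g r.1 = g r.2 ∧ f r.2 ∈ oX.up (f r.1)}
  let π : E → ℝ × ℝ := fun r => r.1.1
  have hs : Function.Surjective π := by
    intro p
    have hl := fg.swap.line₁ (g p)
    obtain ⟨y, hy, hy1, -⟩ := exists_above oX hl.isOpen (x := f p) ⟨p, rfl, rfl⟩
    obtain ⟨q, hq, rfl⟩ := hy
    have hq' : g q = g p := hq
    exact ⟨⟨(p, q), hq'.symm, hy1⟩, rfl⟩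
  have ho : IsOpenMap π := by
    intro U hU
    obtain ⟨O, hO, rfl⟩ := isOpen_induced_iff.1 hU
    rw [isOpen_iff_mem_nhds]
    rintro _ ⟨⟨⟨p, q⟩, hr1, hr2⟩, hrO, rfl⟩
    have hrO' : (p, q) ∈ O := hrO
    obtain ⟨A, B, hA, hB, hpA, hqB, hAB⟩ := isOpen_prod_iff.1 hO p q hrO'
    obtain ⟨N, hN, N', hN', hst⟩ := fg.swap.up_stable oX (p := p) (q := q) hr1 hr2
    have hB' : interior N' ∩ B ∈ 𝓝 q := (isOpen_interior.inter hB).mem_nhds
      ⟨mem_interior_iff_mem_nhds.2 hN', hqB⟩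
    have hgB : IsOpen (g '' (interior N' ∩ B)) :=
      fg.open₂ _ (isOpen_interior.inter hB)
    have h1 : g ⁻¹' (g '' (interior N' ∩ B)) ∈ 𝓝 p := by
      refine (hgB.preimage fg.cont₂).mem_nhds ?_
      exact ⟨q, mem_of_mem_nhds hB', hr1.symm⟩
    show π '' _ ∈ 𝓝 p
    refine Filter.mem_of_superset (Filter.inter_mem (Filter.inter_mem h1 hN) (hA.mem_nhds hpA)) ?_
    rintro p' ⟨⟨⟨q', hq', hgq⟩, hp'N⟩, hp'A⟩
    refine ⟨⟨(p', q'), hgq.symm, hst p' hp'N q' (interior_subset hq'.1) hgq.symm⟩, ?_, rfl⟩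
    exact hAB ⟨hp'A, hq'.2⟩
  have hfib : ∀ p, IsPreconnected (π ⁻¹' {p}) := by
    intro p
    have h1 : IsPreconnected (g ⁻¹' {g p} ∩ f ⁻¹' (oX.up (f p))) :=
      fg.swap.fib_inter (g p) (oX.pre_up (f p)) (oX.isOpen_up _)
    have h2 : PreconnectedSpace (g ⁻¹' {g p} ∩ f ⁻¹' (oX.up (f p)) : Set (ℝ × ℝ)) :=
      Subtype.preconnectedSpace h1
    have h3 : π ⁻¹' {p} = range (fun q : (g ⁻¹' {g p} ∩ f ⁻¹' (oX.up (f p)) : Set (ℝ × ℝ)) =>
        (⟨(p, q.1), (show g q.1 = g p from q.2.1).symm, q.2.2⟩ : E)) := by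
      ext r
      constructor
      · intro hr
        have hr' : r.1.1 = p := hr
        subst hr'
        exact ⟨⟨r.1.2, r.2.1.symm, r.2.2⟩, rfl⟩
      · rintro ⟨q, rfl⟩
        rfl
    rw [h3]
    exact isPreconnected_range (by fun_prop)
  have hE : IsPreconnected (univ : Set E) := by
    have h1 := isPreconnected_preimage ho hs hfib isPreconnected_univ
    rwa [preimage_univ] at h1
  have hne : ∀ r : E, h r.1.2 ∈ oZ.up (h r.1.1) ∨ h r.1.2 ∈ oZ.dn (h r.1.1) := by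
    intro r
    refine oZ.up_or_dn fun h1 => ?_
    have h2 : r.1.1 = r.1.2 := gh.inj r.2.1 h1.symm
    have h3 := r.2.2
    rw [h2] at h3
    exact oX.self_up _ h3
  have hPo : IsOpen {r : E | h r.1.2 ∈ oZ.up (h r.1.1)} := by
    rw [isOpen_iff_mem_nhds]
    intro r hr
    obtain ⟨N, hN, N', hN', hst⟩ := gh.up_stable oZ (p := r.1.1) (q := r.1.2) r.2.1 hr
    have h1 : {r' : E | r'.1.1 ∈ N} ∈ 𝓝 r :=
      (continuous_fst.comp continuous_subtype_val).continuousAt.preimage_mem_nhds hN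
    have h2 : {r' : E | r'.1.2 ∈ N'} ∈ 𝓝 r :=
      (continuous_snd.comp continuous_subtype_val).continuousAt.preimage_mem_nhds hN'
    filter_upwards [h1, h2] with r' h3 h4
    exact hst _ h3 _ h4 r'.2.1
  have hQo : IsOpen {r : E | h r.1.2 ∈ oZ.dn (h r.1.1)} := by
    rw [isOpen_iff_mem_nhds]
    intro r hr
    have hr' : h r.1.1 ∈ oZ.up (h r.1.2) := (gh.up_iff oZ r.2.1.symm).2 hr
    obtain ⟨N, hN, N', hN', hst⟩ := gh.up_stable oZ (p := r.1.2) (q := r.1.1) r.2.1.symm hr'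
    have h1 : {r' : E | r'.1.2 ∈ N} ∈ 𝓝 r :=
      (continuous_snd.comp continuous_subtype_val).continuousAt.preimage_mem_nhds hN
    have h2 : {r' : E | r'.1.1 ∈ N'} ∈ 𝓝 r :=
      (continuous_fst.comp continuous_subtype_val).continuousAt.preimage_mem_nhds hN'
    filter_upwards [h1, h2] with r' h3 h4
    exact (gh.up_iff oZ r'.2.1.symm).1 (hst _ h3 _ h4 r'.2.1.symm)
  by_cases hP : ({r : E | h r.1.2 ∈ oZ.up (h r.1.1)}).Nonempty
  · left
    intro p q h1 h2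
    rcases hne ⟨(p, q), h1, h2⟩ with h3 | h3
    · exact h3
    · exfalso
      obtain ⟨r, -, hr1, hr2⟩ := hE _ _ hPo hQo (fun r _ => hne r)
        (by obtain ⟨r, hr⟩ := hP; exact ⟨r, mem_univ _, hr⟩) ⟨⟨(p, q), h1, h2⟩, mem_univ _, h3⟩
      exact oZ.up_not_dn hr1 hr2
  · right
    intro p q h1 h2
    rcases hne ⟨(p, q), h1, h2⟩ with h3 | h3
    · exact absurd ⟨⟨(p, q), h1, h2⟩, h3⟩ hP
    · exact h3

end Pool.Agent.LST
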