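import Pool.Agent.LST.Mplus

/-!
# LST module Zero (size 4)

The zero set of the difference of two height functions is a graph over `A`.
-/

open Set Topology Filter

namespace Pool.Agent.LST

open Pool.Agent.H86.Bifol Pool.Agent.LSP

variable {X Y Z : Type*} [TopologicalSpace X] [TopologicalSpace Y] [TopologicalSpace Z] [SCM X]
  [SCM Y] [SCM Z] {oX : Orientation X} {oY : Orientation Y} {oZ : Orientation Z} {A : Set (X × Y)}
  {B : Set (Y × Z)} {C : Set (Z × X)}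

/-- The axis fibre. PROOF. Intersection of the lines `{z | (y, z) ∈ B}` and `{z | (z, x) ∈ C}`
(`isPreconnected_inter`); nonempty by `hf.fA`. -/
theorem isLine_fibre (hc : Conv oX oY oZ A B C) (hf : Full A B C) {x : X} {y : Y}
    (h : (x, y) ∈ A) : IsLine {z | (y, z) ∈ B ∧ (z, x) ∈ C} := by
  have h1 := hc.sB.fst y
  have h2 := hc.sC.snd x
  refine ⟨?_, ?_, ?_, ?_⟩
  · exact h1.isOpen.inter h2.isOpen
  · exact isPreconnected_inter h1.pre h1.isOpen h2.pre h2.isOpen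
  · obtain ⟨z, hz⟩ := hf.fA x y h
    exact ⟨z, hz⟩
  · intro z hz z' hz' hns
    exact h1.sep z hz.1 z' hz'.1 hns

variable {m n : X → Y → Z → ℝ}

private theorem Zero_F_lt (hc : Conv oX oY oZ A B C) (hf : Full A B C)
    (hm : Height oX oY oZ A B C m) (hn : Height (op oX) (op oY) (op oZ) A B C n) {x : X} {y : Y}
    {z z' : Z} (h : (x, y, z) ∈ Mh A B C) (h' : (x, y, z') ∈ Mh A B C) (hu : z' ∈ oZ.up z) :
    m x y z' < m x y z ∧ n x y z < n x y z' := by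
  refine ⟨hm.sZ x y z z' h h' hu, hn.sZ x y z' z h' h ?_⟩
  rw [op_up]
  exact (up_iff_dn oZ (isLine_fibre hc hf h.1) ⟨h.2.1, h.2.2⟩ ⟨h'.2.1, h'.2.2⟩).1 hu

private theorem Zero_tri (hc : Conv oX oY oZ A B C) (hf : Full A B C) {x : X} {y : Y}
    {z z' : Z} (h : (x, y, z) ∈ Mh A B C) (h' : (x, y, z') ∈ Mh A B C) :
    z' = z ∨ z' ∈ oZ.up z ∨ z ∈ oZ.up z' :=
  trichotomy oZ (isLine_fibre hc hf h.1) ⟨h.2.1, h.2.2⟩ ⟨h'.2.1, h'.2.2⟩

private theorem Zero_contF (hm : Height oX oY oZ A B C m)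
    (hn : Height (op oX) (op oY) (op oZ) A B C n) :
    ContinuousOn (fun q : X × Y × Z => m q.1 q.2.1 q.2.2 - n q.1 q.2.1 q.2.2) (Mh A B C) :=
  hm.cont.sub hn.cont

/-- PROOF. `m` is strictly decreasing and `n` is strictly increasing in `z` on the axis fibre of
`(x, y)` (a line). -/
theorem unique_zero (hc : Conv oX oY oZ A B C) (hf : Full A B C) (hm : Height oX oY oZ A B C m)
    (hn : Height (op oX) (op oY) (op oZ) A B C n) {x : X} {y : Y} {z z' : Z}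
    (h : (x, y, z) ∈ Mh A B C) (h' : (x, y, z') ∈ Mh A B C) (e : m x y z = n x y z)
    (e' : m x y z' = n x y z') : z = z' := by
  rcases Zero_tri hc hf h h' with h1 | h1 | h1
  · exact h1.symm
  · obtain ⟨h2, h3⟩ := Zero_F_lt hc hf hm hn h h' h1
    linarith
  · obtain ⟨h2, h3⟩ := Zero_F_lt hc hf hm hn h' h h1
    linarith

/-- PROOF. On the axis fibre `ℓ` of `(x, y)` (connected, `isLine_fibre`) the continuous function
`F = m - n` takes a positive and a negative value: take `z₀ ∈ ℓ`; by `hm.iZ` there is `z₁ ∈ ℓ` with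
`m x y z₁ < n x y z₀`; if `z₁ = z₀` or `z₁ ∈ oZ.up z₀` then `m x y z₁ < n x y z₀ ≤ n x y z₁`; if
`z₁ ∈ oZ.dn z₀` then `m x y z₀ < m x y z₁ < n x y z₀`. In the same way a point with
`n < m` (by `hn.iZ`). Then the intermediate value theorem: `IsPreconnected.intermediate_value`. -/
theorem exists_zero (hc : Conv oX oY oZ A B C) (hf : Full A B C) (hm : Height oX oY oZ A B C m)
    (hn : Height (op oX) (op oY) (op oZ) A B C n) {x : X} {y : Y} (h : (x, y) ∈ A) :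
    ∃ z, (x, y, z) ∈ Mh A B C ∧ m x y z = n x y z := by
  obtain ⟨z₀, hz₀⟩ := hf.fA x y h
  have h0 : (x, y, z₀) ∈ Mh A B C := ⟨h, hz₀.1, hz₀.2⟩
  have hmp := hm.pos x y z₀ h0
  have hnp := hn.pos x y z₀ h0
  have hneg : ∃ z, (x, y, z) ∈ Mh A B C ∧ m x y z - n x y z < 0 := by
    obtain ⟨z₁, h1, h1'⟩ := hm.iZ x y z₀ h0 _ hnp
    rcases Zero_tri hc hf h0 h1 with h2 | h2 | h2
    · subst h2
      exact ⟨z₁, h1, by linarith⟩
    · obtain ⟨h3, h4⟩ := Zero_F_lt hc hf hm hn h0 h1 h2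
      exact ⟨z₁, h1, by linarith⟩
    · obtain ⟨h3, h4⟩ := Zero_F_lt hc hf hm hn h1 h0 h2
      exact ⟨z₀, h0, by linarith⟩
  have hposs : ∃ z, (x, y, z) ∈ Mh A B C ∧ 0 < m x y z - n x y z := by
    obtain ⟨z₁, h1, h1'⟩ := hn.iZ x y z₀ h0 _ hmp
    rcases Zero_tri hc hf h0 h1 with h2 | h2 | h2
    · subst h2
      exact ⟨z₁, h1, by linarith⟩
    · obtain ⟨h3, h4⟩ := Zero_F_lt hc hf hm hn h0 h1 h2
      exact ⟨z₀, h0, by linarith⟩
    · obtain ⟨h3, h4⟩ := Zero_F_lt hc hf hm hn h1 h0 h2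
      exact ⟨z₁, h1, by linarith⟩
  obtain ⟨p, hp, hp'⟩ := hneg
  obtain ⟨q, hq, hq'⟩ := hposs
  have hcont : ContinuousOn (fun z => m x y z - n x y z) {z | (y, z) ∈ B ∧ (z, x) ∈ C} := by
    have hc1 : Continuous (fun z : Z => ((x, y, z) : X × Y × Z)) := by fun_prop
    exact (Zero_contF hm hn).comp hc1.continuousOn (fun z hz => ⟨h, hz.1, hz.2⟩)
  obtain ⟨z, hz, hz'⟩ := (isLine_fibre hc hf h).pre.intermediate_value
    (⟨hp.2.1, hp.2.2⟩ : p ∈ {z | (y, z) ∈ B ∧ (z, x) ∈ C})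
    (⟨hq.2.1, hq.2.2⟩ : q ∈ {z | (y, z) ∈ B ∧ (z, x) ∈ C}) hcont
    (⟨hp'.le, hq'.le⟩ : (0 : ℝ) ∈ Icc (m x y p - n x y p) (m x y q - n x y q))
  exact ⟨z, ⟨h, hz.1, hz.2⟩, by simpa [sub_eq_zero] using hz'⟩

/-- PROOF. `σ x y` from `exists_zero` (`Classical.choice`, `Nonempty Z`). Continuity at
`(x, y) ∈ A`: let `W` be an open neighbourhood of `z := σ x y`. Positive chart `e` at `z`, segment
`e.symm '' Icc α β ⊆ W ∩ ℓ`, `α < e z < β` (`exists_segment`), `ℓ` the axis fibre of `(x, y)`. `F := m - n` is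
strictly decreasing on `ℓ`, so `F x y (e.symm α) > 0 > F x y (e.symm β)`. By continuity of `F` on the open set
`Mh` (`isOpen_Mh`) for `(x₁, y₁)` near `(x, y)`: `(x₁, y₁) ∈ A`, `(x₁, y₁, e.symm α), (x₁, y₁, e.symm β) ∈ Mh` and
`F x₁ y₁ (e.symm α) > 0 > F x₁ y₁ (e.symm β)`. Let `ℓ₁` be the axis fibre of `(x₁, y₁)`: it is a line
which contains `e.symm α`, `e.symm β`, hence `e.symm '' Icc α β` (`between`). `z₁ := σ x₁ y₁ ∈ ℓ₁`;
`F = 0` there, so `z₁ ∈ oZ.up (e.symm α)` and `z₁ ∈ oZ.dn (e.symm β)` (`trichotomy`, `hm.sZ`, `hn.sZ`).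
`IsLine.segment` (H86/LineOrder) gives `z₁ ∈ e.symm '' Icc α β ⊆ W`. -/
theorem exists_sigma (hc : Conv oX oY oZ A B C) (hf : Full A B C)
    (hm : Height oX oY oZ A B C m) (hn : Height (op oX) (op oY) (op oZ) A B C n) :
    ∃ σ : X → Y → Z,
      (∀ x y, (x, y) ∈ A → (x, y, σ x y) ∈ Mh A B C ∧ m x y (σ x y) = n x y (σ x y)) ∧
      (∀ x y z, (x, y, z) ∈ Mh A B C → m x y z = n x y z → z = σ x y) ∧
      ContinuousOn (fun p : X × Y => σ p.1 p.2) A := by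
  classical
  obtain ⟨zd⟩ : Nonempty Z := inferInstance
  have hex : ∀ x y, ∃ z, (x, y) ∈ A → ((x, y, z) ∈ Mh A B C ∧ m x y z = n x y z) := by
    intro x y
    by_cases h : (x, y) ∈ A
    · obtain ⟨z, hz⟩ := exists_zero hc hf hm hn h
      exact ⟨z, fun _ => hz⟩
    · exact ⟨zd, fun h' => absurd h' h⟩
  choose σ hσ using hex
  refine ⟨σ, hσ, fun x y z h e => unique_zero hc hf hm hn h (hσ x y h.1).1 e (hσ x y h.1).2, ?_⟩
  rintro ⟨x, y⟩ hA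
  apply ContinuousAt.continuousWithinAt
  obtain ⟨hM, he0⟩ := hσ x y hA
  intro W hW
  change W ∈ 𝓝 (σ x y) at hW
  obtain ⟨e, hze, hp⟩ := oZ.exists_chart (σ x y)
  have hℓ := isLine_fibre hc hf hA
  obtain ⟨α, β, h1, h2, hsub⟩ := exists_segment hp.tar hze
    (Filter.inter_mem hW (hℓ.isOpen.mem_nhds (⟨hM.2.1, hM.2.2⟩ :
      σ x y ∈ {z | (y, z) ∈ B ∧ (z, x) ∈ C})))
  have hαs : e.symm α ∈ e.source := symm_mem hp.tar α
  have hβs : e.symm β ∈ e.source := symm_mem hp.tar β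
  have hαM : (x, y, e.symm α) ∈ Mh A B C :=
    ⟨hA, (hsub ⟨α, left_mem_Icc.2 (h1.trans h2).le, rfl⟩).2⟩
  have hβM : (x, y, e.symm β) ∈ Mh A B C :=
    ⟨hA, (hsub ⟨β, right_mem_Icc.2 (h1.trans h2).le, rfl⟩).2⟩
  have hαup : σ x y ∈ oZ.up (e.symm α) := by
    rw [hp.up_eq _ hαs, mem_upS_iff hαs hp.tar hze, apply_symm hp.tar]
    exact h1
  have hβup : e.symm β ∈ oZ.up (σ x y) := by
    rw [hp.up_eq _ hze, mem_upS_iff hze hp.tar hβs, apply_symm hp.tar]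
    exact h2
  have hFα : 0 < m x y (e.symm α) - n x y (e.symm α) := by
    obtain ⟨h3, h4⟩ := Zero_F_lt hc hf hm hn hαM hM hαup
    linarith
  have hFβ : m x y (e.symm β) - n x y (e.symm β) < 0 := by
    obtain ⟨h3, h4⟩ := Zero_F_lt hc hf hm hn hM hβM hβup
    linarith
  have hMo := isOpen_Mh hc
  have hev : ∀ c : ℝ, (x, y, e.symm c) ∈ Mh A B C → ∀ S : Set ℝ, IsOpen S →
      m x y (e.symm c) - n x y (e.symm c) ∈ S → ∀ᶠ p : X × Y in 𝓝 (x, y),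
        (p.1, p.2, e.symm c) ∈ Mh A B C ∧
          m p.1 p.2 (e.symm c) - n p.1 p.2 (e.symm c) ∈ S := by
    intro c hcM S hS hcS
    have hc1 : Continuous (fun p : X × Y => ((p.1, p.2, e.symm c) : X × Y × Z)) := by fun_prop
    have hc2 : Tendsto (fun p : X × Y => ((p.1, p.2, e.symm c) : X × Y × Z)) (𝓝 (x, y))
        (𝓝 (x, y, e.symm c)) := hc1.tendsto (x, y)
    have hc3 : ContinuousAt (fun q : X × Y × Z => m q.1 q.2.1 q.2.2 - n q.1 q.2.1 q.2.2)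
        (x, y, e.symm c) := (Zero_contF hm hn).continuousAt (hMo.mem_nhds hcM)
    have h5 := hc2.eventually (hMo.mem_nhds hcM)
    have h6 := (hc3.tendsto.comp hc2).eventually (hS.mem_nhds hcS)
    filter_upwards [h5, h6] with p hp5 hp6
    exact ⟨hp5, hp6⟩
  rw [mem_map]
  filter_upwards [hev α hαM (Ioi 0) isOpen_Ioi hFα, hev β hβM (Iio 0) isOpen_Iio hFβ]
  rintro ⟨x₁, y₁⟩ ⟨hα1, hα2⟩ ⟨hβ1, hβ2⟩
  change σ x₁ y₁ ∈ W
  simp only [mem_Ioi, mem_Iio] at hα1 hα2 hβ1 hβ2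
  have hA1 : (x₁, y₁) ∈ A := hα1.1
  obtain ⟨hM1, he1⟩ := hσ x₁ y₁ hA1
  have hℓ1 := isLine_fibre hc hf hA1
  have hsub1 : e.symm '' Icc α β ⊆ {z | (y₁, z) ∈ B ∧ (z, x₁) ∈ C} := by
    rintro _ ⟨c, hcI, rfl⟩
    rcases eq_or_lt_of_le hcI.1 with h3 | h3
    · rw [← h3]; exact ⟨hα1.2.1, hα1.2.2⟩
    · rcases eq_or_lt_of_le hcI.2 with h4 | h4
      · rw [h4]; exact ⟨hβ1.2.1, hβ1.2.2⟩
      · have hcs : e.symm c ∈ e.source := symm_mem hp.tar c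
        refine between oZ hℓ1.pre (x := e.symm α) (z := e.symm β) ⟨hα1.2.1, hα1.2.2⟩
          ⟨hβ1.2.1, hβ1.2.2⟩ ?_ ?_
        · rw [hp.dn_eq hcs, mem_dnS_iff hcs hp.tar hαs, apply_symm hp.tar, apply_symm hp.tar]
          exact h3
        · rw [hp.up_eq _ hcs, mem_upS_iff hcs hp.tar hβs, apply_symm hp.tar, apply_symm hp.tar]
          exact h4
  have hup : σ x₁ y₁ ∈ oZ.up (e.symm α) := by
    rcases Zero_tri hc hf hα1 hM1 with h3 | h3 | h3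
    · rw [h3] at he1; linarith
    · exact h3
    · obtain ⟨h4, h5⟩ := Zero_F_lt hc hf hm hn hM1 hα1 h3
      linarith
  have hdn : σ x₁ y₁ ∈ oZ.dn (e.symm β) := by
    rcases Zero_tri hc hf hM1 hβ1 with h3 | h3 | h3
    · rw [← h3] at he1; linarith
    · exact (up_iff_dn oZ hℓ1 ⟨hM1.2.1, hM1.2.2⟩ ⟨hβ1.2.1, hβ1.2.2⟩).1 h3
    · obtain ⟨h4, h5⟩ := Zero_F_lt hc hf hm hn hβ1 hM1 h3
      linarith
  rcases hℓ1.segment hp.tar (h1.trans h2) hsub1 (⟨hM1.2.1, hM1.2.2⟩ :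
      σ x₁ y₁ ∈ {z | (y₁, z) ∈ B ∧ (z, x₁) ∈ C}) with h3 | h3 | h3
  · exact (hsub h3).1
  · rw [← hp.dn_eq hαs] at h3
    exact absurd h3 (oZ.up_not_dn hup)
  · rw [← hp.up_eq _ hβs] at h3
    exact absurd hdn (oZ.up_not_dn h3)

end Pool.Agent.LST
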